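import Pool.Agent.Run7.h774.Basic

/-!
# MP_be9f18_nt: piece G1 (glue to the frozen statement)
-/

set_option autoImplicit false

namespace Run7.h349.DS

open Run7.h774

/-- the solution set -/
def Sol (ξ₁ ξ₂ c : ℝ) : Set (ℤ × ℤ × ℤ) :=
  {x : ℤ × ℤ × ℤ | 0 < x.2.2 ∧
    (x.2.2 : ℝ) * |(x.2.2 : ℝ) * ξ₁ - (x.1 : ℝ)| ^ 2 < c ∧
    (x.2.2 : ℝ) * |(x.2.2 : ℝ) * ξ₂ - (x.2.1 : ℝ)| ^ 2 < c}

theorem ne_of_irr {ξ₁ ξ₂ : ℝ} (h : Irrational ξ₁ ∨ Irrational ξ₂) (p₁ p₂ q : ℤ) (hq : q ≠ 0) :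
    0 < max |(q : ℝ) * ξ₁ - p₁| |(q : ℝ) * ξ₂ - p₂| := by
  have key : ∀ (ξ : ℝ), Irrational ξ → ∀ p : ℤ, 0 < |(q : ℝ) * ξ - p| := by
    intro ξ hξ p
    rw [abs_pos, sub_ne_zero]
    intro he
    exact ((hξ.intCast_mul hq).ne_int p) he
  rcases h with h | h
  · exact lt_max_of_lt_left (key ξ₁ h p₁)
  · exact lt_max_of_lt_right (key ξ₂ h p₂)

theorem exists_lt_of_finite {β : Type*} {S : Set β} (hS : S.Finite) (f : β → ℝ)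
    (hf : ∀ x ∈ S, 0 < f x) : ∃ δ : ℝ, 0 < δ ∧ ∀ x ∈ S, δ < f x := by
  rcases S.eq_empty_or_nonempty with rfl | hne
  · exact ⟨1, one_pos, by simp⟩
  · obtain ⟨a, ha, hmin⟩ := Set.exists_min_image S f hS hne
    exact ⟨f a / 2, half_pos (hf a ha), fun x hx =>
      lt_of_lt_of_le (half_lt_self (hf a ha)) (hmin x hx)⟩

/-- not admissible gives infinitely many solutions -/
theorem inf_of_not_adm {ξ₁ ξ₂ c : ℝ} (hirr : Irrational ξ₁ ∨ Irrational ξ₂)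
    (h : ¬ Adm ξ₁ ξ₂ c) : (Sol ξ₁ ξ₂ c).Infinite := by
  intro hfin
  -- a positive lower bound for the distances of the finitely many solutions
  obtain ⟨δ, hδ, hδs⟩ : ∃ δ : ℝ, 0 < δ ∧ ∀ x ∈ Sol ξ₁ ξ₂ c,
      δ < max |(x.2.2 : ℝ) * ξ₁ - x.1| |(x.2.2 : ℝ) * ξ₂ - x.2.1| := by
    exact exists_lt_of_finite hfin _ (fun x hx => ne_of_irr hirr x.1 x.2.1 x.2.2 (ne_of_gt hx.1))
  unfold Adm at h
  push Not at h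
  obtain ⟨p₁, p₂, q, hne, h1, h2, h3⟩ := h (min δ (1 / 2)) (lt_min hδ (by norm_num))
  have hq : q ≠ 0 := by
    rintro rfl
    have key : ∀ (p : ℤ) (ξ : ℝ), |((0 : ℤ) : ℝ) * ξ - p| ≤ min δ (1 / 2) → p = 0 := by
      intro p ξ hp
      have h4 : |(p : ℝ)| ≤ 1 / 2 := by
        have := hp.trans (min_le_right _ _)
        rw [Int.cast_zero, zero_mul, zero_sub, abs_neg] at this
        exact this
      have h5 : |(p : ℝ)| < 1 := by linarith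
      have h6 : |p| < 1 := by exact_mod_cast h5
      exact Int.abs_lt_one_iff.1 h6
    exact hne (key p₁ ξ₁ h1) (key p₂ ξ₂ h2) rfl
  -- normalise the sign of q
  obtain ⟨s, hs, hsq⟩ : ∃ s : ℤ, (s = 1 ∨ s = -1) ∧ 0 < s * q := by
    rcases lt_or_gt_of_ne hq with h | h
    · exact ⟨-1, Or.inr rfl, by linarith⟩
    · exact ⟨1, Or.inl rfl, by linarith⟩
  have hsabs : |(s : ℝ)| = 1 := by rcases hs with h | h <;> rw [h] <;> norm_num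
  have e1 : ∀ (p : ℤ) (ξ : ℝ), |((s * q : ℤ) : ℝ) * ξ - ((s * p : ℤ) : ℝ)| = |(q : ℝ) * ξ - p| := by
    intro p ξ
    have : ((s * q : ℤ) : ℝ) * ξ - ((s * p : ℤ) : ℝ) = (s : ℝ) * ((q : ℝ) * ξ - p) := by
      push_cast; ring
    rw [this, abs_mul, hsabs, one_mul]
  have e2 : ((s * q : ℤ) : ℝ) = |(q : ℝ)| := by
    have h4 : (0 : ℝ) < ((s * q : ℤ) : ℝ) := by exact_mod_cast hsq
    rw [← abs_of_pos h4]
    push_cast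
    rw [abs_mul, hsabs, one_mul]
  have hmem : ((s * p₁, s * p₂, s * q) : ℤ × ℤ × ℤ) ∈ Sol ξ₁ ξ₂ c := by
    refine ⟨hsq, ?_, ?_⟩
    · show ((s * q : ℤ) : ℝ) * |((s * q : ℤ) : ℝ) * ξ₁ - ((s * p₁ : ℤ) : ℝ)| ^ 2 < c
      rw [e1, e2]
      refine lt_of_le_of_lt ?_ h3
      exact mul_le_mul_of_nonneg_left (pow_le_pow_left₀ (abs_nonneg _) (le_max_left _ _) 2)
        (abs_nonneg _)
    · show ((s * q : ℤ) : ℝ) * |((s * q : ℤ) : ℝ) * ξ₂ - ((s * p₂ : ℤ) : ℝ)| ^ 2 < c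
      rw [e1, e2]
      refine lt_of_le_of_lt ?_ h3
      exact mul_le_mul_of_nonneg_left (pow_le_pow_left₀ (abs_nonneg _) (le_max_right _ _) 2)
        (abs_nonneg _)
  have h5 := hδs _ hmem
  change δ < max |((s * q : ℤ) : ℝ) * ξ₁ - ((s * p₁ : ℤ) : ℝ)|
    |((s * q : ℤ) : ℝ) * ξ₂ - ((s * p₂ : ℤ) : ℝ)| at h5
  rw [e1, e1] at h5
  have h6 := max_le (h1.trans (min_le_left _ _)) (h2.trans (min_le_left _ _))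
  linarith

/-- admissible with constant `c' ≥ c`: the solution set is finite -/
theorem fin_of_adm {ξ₁ ξ₂ c c' : ℝ} (hcc : c ≤ c') (h : Adm ξ₁ ξ₂ c') :
    (Sol ξ₁ ξ₂ c).Finite := by
  obtain ⟨ρ, hρ, hA⟩ := h
  rcases le_or_gt c 0 with hc | hc
  · have : Sol ξ₁ ξ₂ c = ∅ := by
      rw [Set.eq_empty_iff_forall_notMem]
      rintro x ⟨h1, h2, _⟩
      have h3 : (0 : ℝ) < x.2.2 := by exact_mod_cast h1
      have h4 : 0 ≤ (x.2.2 : ℝ) * |(x.2.2 : ℝ) * ξ₁ - (x.1 : ℝ)| ^ 2 := by positivity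
      linarith
    rw [this]
    exact Set.finite_empty
  -- bounded q
  obtain ⟨Q, hQ⟩ := exists_nat_gt (c / ρ ^ 2)
  have hQ0 : 0 ≤ (Q : ℝ) := Nat.cast_nonneg _
  obtain ⟨K, hK⟩ := exists_nat_gt ((Q : ℝ) * (|ξ₁| + |ξ₂|) + c + 1)
  have hbox : Sol ξ₁ ξ₂ c ⊆ (Set.Icc (-(K : ℤ)) K) ×ˢ ((Set.Icc (-(K : ℤ)) K) ×ˢ
      (Set.Icc (0 : ℤ) Q)) := by
    rintro ⟨p₁, p₂, q⟩ ⟨h1, h2, h3⟩
    simp only at h1 h2 h3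
    have hq0 : (0 : ℝ) < q := by exact_mod_cast h1
    have hq1 : (1 : ℝ) ≤ q := by exact_mod_cast h1
    have hqQ : (q : ℝ) ≤ Q := by
      by_contra hlt
      push Not at hlt
      have h4 : c < q * ρ ^ 2 := by
        rw [div_lt_iff₀ (by positivity)] at hQ
        have : (Q : ℝ) * ρ ^ 2 ≤ q * ρ ^ 2 := by
          apply mul_le_mul_of_nonneg_right hlt.le (by positivity)
        linarith
      have key : ∀ x : ℝ, (q : ℝ) * |x| ^ 2 < c → |x| ≤ ρ := by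
        intro x hx
        by_contra hlt'
        push Not at hlt'
        have : ρ ^ 2 ≤ |x| ^ 2 := pow_le_pow_left₀ hρ.le hlt'.le 2
        nlinarith
      have h5 := hA p₁ p₂ q (by rintro ⟨_, _, h⟩; omega) (key _ h2) (key _ h3)
      rw [abs_of_pos hq0] at h5
      rcases max_choice |(q : ℝ) * ξ₁ - p₁| |(q : ℝ) * ξ₂ - p₂| with h6 | h6 <;>
        rw [h6] at h5 <;> linarith
    have hpb : ∀ (p : ℤ) (ξ : ℝ), (q : ℝ) * |(q : ℝ) * ξ - p| ^ 2 < c → |ξ| ≤ |ξ₁| + |ξ₂| →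
        |(p : ℝ)| ≤ K := by
      intro p ξ hp hξ
      have h6 : |(q : ℝ) * ξ - p| ≤ c + 1 := by
        by_contra hlt
        push Not at hlt
        have h7 : (c + 1) ^ 2 ≤ |(q : ℝ) * ξ - p| ^ 2 := pow_le_pow_left₀ (by linarith) hlt.le 2
        have h8 : |(q : ℝ) * ξ - p| ^ 2 ≤ q * |(q : ℝ) * ξ - p| ^ 2 := by
          have := sq_nonneg |(q : ℝ) * ξ - p|
          nlinarith
        nlinarith
      have h9 : |(p : ℝ)| ≤ |(q : ℝ) * ξ| + |(q : ℝ) * ξ - p| := by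
        have : (p : ℝ) = (q : ℝ) * ξ - ((q : ℝ) * ξ - p) := by ring
        calc |(p : ℝ)| = |(q : ℝ) * ξ - ((q : ℝ) * ξ - p)| := by rw [← this]
          _ ≤ _ := abs_sub _ _
      have h10 : |(q : ℝ) * ξ| ≤ Q * (|ξ₁| + |ξ₂|) := by
        rw [abs_mul, abs_of_pos hq0]
        exact mul_le_mul hqQ hξ (abs_nonneg _) hQ0
      linarith
    have hp1 := hpb p₁ ξ₁ h2 (by linarith [abs_nonneg ξ₂])
    have hp2 := hpb p₂ ξ₂ h3 (by linarith [abs_nonneg ξ₁])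
    rw [abs_le] at hp1 hp2
    simp only [Set.mem_prod, Set.mem_Icc]
    refine ⟨⟨?_, ?_⟩, ⟨?_, ?_⟩, h1.le, ?_⟩
    · exact_mod_cast hp1.1
    · exact_mod_cast hp1.2
    · exact_mod_cast hp2.1
    · exact_mod_cast hp2.2
    · exact_mod_cast hqQ
  exact Set.Finite.subset ((Set.finite_Icc _ _).prod ((Set.finite_Icc _ _).prod
    (Set.finite_Icc _ _))) hbox

/-- PIECE G1. Glue to the frozen statement. -/
theorem glue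
    (hup : ∀ ξ₁ ξ₂ c : ℝ, (Irrational ξ₁ ∨ Irrational ξ₂) → 2 / 7 < c → ¬ Adm ξ₁ ξ₂ c)
    (hlow : ∀ ε : ℝ, 0 < ε → ∃ ξ₁ ξ₂ : ℝ, (Irrational ξ₁ ∨ Irrational ξ₂) ∧ Adm ξ₁ ξ₂ (2 / 7 - ε)) :
    sSup {γ : ℝ | ∃ ξ₁ ξ₂ : ℝ, (Irrational ξ₁ ∨ Irrational ξ₂) ∧
      γ = sInf {c : ℝ | 0 < c ∧ c ≤ 1 ∧
        {x : ℤ × ℤ × ℤ | 0 < x.2.2 ∧
          (x.2.2 : ℝ) * |(x.2.2 : ℝ) * ξ₁ - (x.1 : ℝ)| ^ 2 < c ∧
          (x.2.2 : ℝ) * |(x.2.2 : ℝ) * ξ₂ - (x.2.1 : ℝ)| ^ 2 < c}.Infinite}} = 2 / 7 := by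
  have hdef : ∀ ξ₁ ξ₂ c : ℝ, {x : ℤ × ℤ × ℤ | 0 < x.2.2 ∧
          (x.2.2 : ℝ) * |(x.2.2 : ℝ) * ξ₁ - (x.1 : ℝ)| ^ 2 < c ∧
          (x.2.2 : ℝ) * |(x.2.2 : ℝ) * ξ₂ - (x.2.1 : ℝ)| ^ 2 < c} = Sol ξ₁ ξ₂ c := fun _ _ _ => rfl
  simp only [hdef]
  have hbdd : ∀ ξ₁ ξ₂ : ℝ, BddBelow {c : ℝ | 0 < c ∧ c ≤ 1 ∧ (Sol ξ₁ ξ₂ c).Infinite} :=
    fun _ _ => ⟨0, fun c hc => hc.1.le⟩
  have hmem : ∀ ξ₁ ξ₂ c : ℝ, (Irrational ξ₁ ∨ Irrational ξ₂) → 2 / 7 < c → c ≤ 1 →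
      c ∈ {c : ℝ | 0 < c ∧ c ≤ 1 ∧ (Sol ξ₁ ξ₂ c).Infinite} :=
    fun ξ₁ ξ₂ c h h1 h2 => ⟨by linarith, h2, inf_of_not_adm h (hup ξ₁ ξ₂ c h h1)⟩
  have hle : ∀ ξ₁ ξ₂ : ℝ, (Irrational ξ₁ ∨ Irrational ξ₂) →
      sInf {c : ℝ | 0 < c ∧ c ≤ 1 ∧ (Sol ξ₁ ξ₂ c).Infinite} ≤ 2 / 7 := by
    intro ξ₁ ξ₂ h
    refine le_of_forall_pos_le_add fun ε hε => ?_
    have h1 := csInf_le (hbdd ξ₁ ξ₂) (hmem ξ₁ ξ₂ (min (2 / 7 + ε) 1) h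
      (lt_min (by linarith) (by norm_num)) (min_le_right _ _))
    exact h1.trans (min_le_left _ _)
  set S : Set ℝ := {γ : ℝ | ∃ ξ₁ ξ₂ : ℝ, (Irrational ξ₁ ∨ Irrational ξ₂) ∧
      γ = sInf {c : ℝ | 0 < c ∧ c ≤ 1 ∧ (Sol ξ₁ ξ₂ c).Infinite}} with hS
  have hSle : ∀ γ ∈ S, γ ≤ 2 / 7 := by
    rintro γ ⟨ξ₁, ξ₂, h, rfl⟩
    exact hle ξ₁ ξ₂ h
  apply le_antisymm
  · refine csSup_le ?_ hSle
    obtain ⟨ξ₁, ξ₂, h, _⟩ := hlow 1 one_pos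
    exact ⟨_, ξ₁, ξ₂, h, rfl⟩
  · refine le_of_forall_pos_le_add fun ε hε => ?_
    obtain ⟨ξ₁, ξ₂, h, hA⟩ := hlow ε hε
    have h1 : 2 / 7 - ε ≤ sInf {c : ℝ | 0 < c ∧ c ≤ 1 ∧ (Sol ξ₁ ξ₂ c).Infinite} := by
      refine le_csInf ⟨1, hmem ξ₁ ξ₂ 1 h (by norm_num) le_rfl⟩ ?_
      rintro c ⟨_, _, h4⟩
      by_contra hlt
      push Not at hlt
      exact h4 (fin_of_adm hlt.le hA)
    have h2 : sInf {c : ℝ | 0 < c ∧ c ≤ 1 ∧ (Sol ξ₁ ξ₂ c).Infinite} ≤ sSup S :=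
      le_csSup ⟨2 / 7, hSle⟩ ⟨ξ₁, ξ₂, h, rfl⟩
    linarith

end Run7.h349.DS
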