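import Pool.Agent.Run7.h349.DS.Field

/-!
# MP_be9f18_nt: piece VI (Cassels' lower bound)
-/

set_option autoImplicit false

namespace Run7.h349.DS

open Run7.h774

theorem prim_of_coeffs (d1 d2 : ℤ) (h : ¬ (d1 = 0 ∧ d2 = 0)) :
    ∃ g b' c' x y : ℤ, d1 = g * b' ∧ d2 = g * c' ∧ b' * y - c' * x = 1 := by
  have hg : 0 < Int.gcd d1 d2 := by
    rw [Nat.pos_iff_ne_zero]
    intro h0
    rw [Int.gcd_eq_zero_iff] at h0
    exact h h0
  obtain ⟨g, b', c', _, h1, h2, h3⟩ := Int.exists_gcd_one' hg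
  have h4 := Int.gcd_eq_gcd_ab b' c'
  rw [h1] at h4
  refine ⟨g, b', c', -Int.gcdB b' c', Int.gcdA b' c', ?_, ?_, ?_⟩
  · rw [h2]; ring
  · rw [h3]; ring
  · push_cast at h4
    linarith

theorem choose_nu (ε : ℝ) (hε : 0 < ε) (hε1 : ε ≤ 1 / 2) :
    ∃ a b c b' c' : ℤ, b' * c - c' * b = 1 ∧ |e1 (a, b, c) - 1| ≤ ε ∧
      |e2 (a, b, c) + 1| ≤ 3 * ε := by
  obtain ⟨δ, h1, h2⟩ := dens (ε / 2) (ε / 2) (ε ^ 2 / 8) (by positivity)
  set δ1 := e1 δ with hδ1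
  set δ2 := e2 δ with hδ2
  rw [abs_le] at h1 h2
  have hq : ε ^ 2 / 8 ≤ ε / 8 := by nlinarith
  have p1 : ε / 4 ≤ δ1 := by linarith
  have p2 : δ1 ≤ ε := by linarith
  have p3 : |δ1 - δ2| ≤ ε * δ1 := by
    have : ε ^ 2 / 4 ≤ ε * δ1 := by nlinarith
    rw [abs_le]
    constructor <;> linarith
  have hδ0 : 0 < δ1 := by linarith
  have hne : ¬ (δ.2.1 = 0 ∧ δ.2.2 = 0) := by
    rintro ⟨ha, hb⟩
    have h3 : δ1 = (δ.1 : ℝ) := by
      rw [hδ1]; unfold e1; rw [ha, hb]; push_cast; ring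
    have h4 : (0 : ℝ) < (δ.1 : ℝ) := by linarith
    have h5 : (δ.1 : ℝ) < 1 := by linarith
    have h6 : (0 : ℤ) < δ.1 := by exact_mod_cast h4
    have h7 : δ.1 < (1 : ℤ) := by exact_mod_cast h5
    omega
  have hΔ : δ1 - δ2 ≠ 0 := by
    intro h0
    -- then `(b + c (t1 + t2)) = 0`, so the element `b - c - c t3 ...` vanishes at the third place
    have h3 : (t1 - t2) * ((δ.2.1 : ℝ) + δ.2.2 * (t1 + t2)) = 0 := by
      have : δ1 - δ2 = (t1 - t2) * ((δ.2.1 : ℝ) + δ.2.2 * (t1 + t2)) := by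
        rw [hδ1, hδ2]; unfold e1 e2; ring
      rw [← this]; exact h0
    have ht : t1 - t2 ≠ 0 := by
      have a1 := t1_lo
      have b2 := t2_hi
      intro h; linarith
    have h4 : (δ.2.1 : ℝ) + δ.2.2 * (t1 + t2) = 0 := by
      rcases mul_eq_zero.1 h3 with h | h
      · exact absurd h ht
      · exact h
    have h5 : e1 (δ.2.1 - 2 * δ.2.2, δ.2.2, δ.2.2) = 0 := by
      unfold e1
      push_cast
      rw [t2_def'] at h4
      linear_combination h4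
    refine e1_ne ?_ h5
    rintro ⟨ha, hb, hc⟩
    simp only at ha hb hc
    exact hne ⟨by omega, hb⟩
  obtain ⟨g, b', c', x, y, hg1, hg2, hxy⟩ := prim_of_coeffs δ.2.1 δ.2.2 hne
  set w1 : ℝ := e1 (0, x, y) with hw1
  set w2 : ℝ := e2 (0, x, y) with hw2
  set Δ := δ1 - δ2 with hΔdef
  set n0 : ℤ := ⌈(2 - (w1 - w2)) / Δ⌉ with hn0
  set z : ℝ := n0 * δ1 + w1 with hz
  set j : ℕ := ⌊((⌈z⌉ : ℝ) - z) / δ1⌋₊ with hj
  have hz1 := Int.le_ceil z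
  have hz2 := Int.ceil_lt_add_one z
  have hj1 : (j : ℝ) * δ1 ≤ (⌈z⌉ : ℝ) - z := by
    have := Nat.floor_le (a := ((⌈z⌉ : ℝ) - z) / δ1) (div_nonneg (by linarith) hδ0.le)
    rw [le_div_iff₀ hδ0] at this
    exact this
  have hj2 : (⌈z⌉ : ℝ) - z < (j + 1) * δ1 := by
    have := Nat.lt_floor_add_one (((⌈z⌉ : ℝ) - z) / δ1)
    rw [div_lt_iff₀ hδ0] at this
    exact this
  have hj3 : (j : ℝ) * δ1 ≤ 1 := by linarith
  set n : ℤ := n0 + j with hn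
  have hν1 : ∀ a : ℤ, e1 (a + n * δ.1, n * δ.2.1 + x, n * δ.2.2 + y) = a + n * δ1 + w1 := by
    intro a
    rw [hδ1, hw1]; unfold e1; push_cast; ring
  have hν2 : ∀ a : ℤ, e2 (a + n * δ.1, n * δ.2.1 + x, n * δ.2.2 + y) = a + n * δ2 + w2 := by
    intro a
    rw [hδ2, hw2]; unfold e2; push_cast; ring
  refine ⟨(1 - ⌈z⌉) + n * δ.1, n * δ.2.1 + x, n * δ.2.2 + y, b', c', ?_, ?_, ?_⟩
  · rw [hg1, hg2]
    linear_combination hxy
  · rw [hν1]
    have : ((1 - ⌈z⌉ : ℤ) : ℝ) + n * δ1 + w1 - 1 = z + j * δ1 - ⌈z⌉ := by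
      rw [hn, hz]; push_cast; ring
    rw [this, abs_le]
    constructor <;> linarith
  · have e1' : ((1 - ⌈z⌉ : ℤ) : ℝ) + n * δ1 + w1 - 1 = z + j * δ1 - ⌈z⌉ := by
      rw [hn, hz]; push_cast; ring
    have hd : |(n : ℝ) * Δ + (w1 - w2) - 2| ≤ 2 * ε := by
      set r : ℝ := (2 - (w1 - w2)) / Δ with hr
      have hr' : r * Δ = 2 - (w1 - w2) := by rw [hr]; field_simp
      have h3 : (n : ℝ) * Δ + (w1 - w2) - 2 = (n - r) * Δ := by rw [sub_mul, hr']; ring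
      rw [h3, abs_mul]
      have h4 : |(n : ℝ) - r| ≤ j + 1 := by
        have h5 := Int.le_ceil r
        have h6 := Int.ceil_lt_add_one r
        have h7 : (0 : ℝ) ≤ j := Nat.cast_nonneg _
        rw [hn]
        push_cast
        rw [abs_le]
        constructor <;> linarith
      calc |(n : ℝ) - r| * |Δ| ≤ (j + 1) * (ε * δ1) :=
            mul_le_mul h4 p3 (abs_nonneg _) (by positivity)
        _ = ε * (j * δ1 + δ1) := by ring
        _ ≤ ε * 2 := mul_le_mul_of_nonneg_left (by linarith) hε.le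
        _ = 2 * ε := by ring
    rw [hν2]
    have h8 : ((1 - ⌈z⌉ : ℤ) : ℝ) + n * δ2 + w2 + 1 =
        (((1 - ⌈z⌉ : ℤ) : ℝ) + n * δ1 + w1 - 1) - ((n : ℝ) * Δ + (w1 - w2) - 2) := by
      rw [hΔdef]; ring
    rw [h8, e1']
    have h9 : |z + j * δ1 - ⌈z⌉| ≤ ε := by
      rw [abs_le]
      constructor <;> linarith
    calc _ ≤ |z + j * δ1 - ⌈z⌉| + |(n : ℝ) * Δ + (w1 - w2) - 2| := abs_sub _ _
      _ ≤ 3 * ε := by linarith

/-- numerical bound for the product of the first two embeddings -/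
theorem num_prod {ε1 ν1 ν2 x1 x2 X : ℝ} (he0 : 0 < ε1) (he2 : ε1 ≤ 1 / 100)
    (hn1 : -ε1 ≤ ν1 - 1 ∧ ν1 - 1 ≤ ε1) (hn2 : -(3 * ε1) ≤ ν2 + 1 ∧ ν2 + 1 ≤ 3 * ε1)
    (hX0 : 0 ≤ X) (hX1 : |x1| ≤ X) (hX2 : |x2| ≤ X) :
    |x1 + ν1 * x2| * |x1 + ν2 * x2| ≤ X ^ 2 * (1 + 20 * ε1) := by
    have g1 : |x1 + ν1 * x2| ≤ |x1 + x2| + ε1 * X := by
      have : x1 + ν1 * x2 = (x1 + x2) + (ν1 - 1) * x2 := by ring
      rw [this]
      refine (abs_add_le _ _).trans ?_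
      rw [abs_mul]
      have : |ν1 - 1| ≤ ε1 := by rw [abs_le]; exact hn1
      have := mul_le_mul this hX2 (abs_nonneg _) he0.le
      linarith
    have g2 : |x1 + ν2 * x2| ≤ |x1 - x2| + 3 * ε1 * X := by
      have : x1 + ν2 * x2 = (x1 - x2) + (ν2 + 1) * x2 := by ring
      rw [this]
      refine (abs_add_le _ _).trans ?_
      rw [abs_mul]
      have : |ν2 + 1| ≤ 3 * ε1 := by rw [abs_le]; exact hn2
      have := mul_le_mul this hX2 (abs_nonneg _) (by positivity)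
      linarith
    have g3 : |x1 + x2| ≤ 2 * X := (abs_add_le _ _).trans (by linarith)
    have g4 : |x1 - x2| ≤ 2 * X := (abs_sub _ _).trans (by linarith)
    have g5 : |x1 + x2| * |x1 - x2| ≤ X ^ 2 := by
      rw [← abs_mul]
      have h1 : x1 ^ 2 ≤ X ^ 2 := by
        rw [← sq_abs]; exact pow_le_pow_left₀ (abs_nonneg _) hX1 2
      have h2 : x2 ^ 2 ≤ X ^ 2 := by
        rw [← sq_abs]; exact pow_le_pow_left₀ (abs_nonneg _) hX2 2
      have h3 : (x1 + x2) * (x1 - x2) = x1 ^ 2 - x2 ^ 2 := by ring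
      rw [h3, abs_le]
      constructor <;> nlinarith [sq_nonneg x1, sq_nonneg x2]
    calc |x1 + ν1 * x2| * |x1 + ν2 * x2|
        ≤ (|x1 + x2| + ε1 * X) * (|x1 - x2| + 3 * ε1 * X) :=
          mul_le_mul g1 g2 (abs_nonneg _) (by positivity)
      _ = |x1 + x2| * |x1 - x2| + 3 * ε1 * X * |x1 + x2| + ε1 * X * |x1 - x2| +
          3 * ε1 ^ 2 * X ^ 2 := by ring
      _ ≤ X ^ 2 + 3 * ε1 * X * (2 * X) + ε1 * X * (2 * X) + 3 * ε1 ^ 2 * X ^ 2 := by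
          gcongr
      _ = X ^ 2 * (1 + 8 * ε1 + 3 * ε1 ^ 2) := by ring
      _ ≤ X ^ 2 * (1 + 20 * ε1) := by
          apply mul_le_mul_of_nonneg_left _ (sq_nonneg X)
          nlinarith

/-- PIECE VI (Cassels) -/
theorem lower (ε : ℝ) (hε : 0 < ε) :
    ∃ ξ₁ ξ₂ : ℝ, (Irrational ξ₁ ∨ Irrational ξ₂) ∧ Adm ξ₁ ξ₂ (2 / 7 - ε) := by
  set ε1 : ℝ := min (ε / 100) (1 / 100) with hε1
  have he0 : 0 < ε1 := lt_min (by positivity) (by norm_num)
  have he1 : ε1 ≤ ε / 100 := min_le_left _ _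
  have he2 : ε1 ≤ 1 / 100 := min_le_right _ _
  obtain ⟨a, b, c, b', c', hdet, hn1, hn2⟩ := choose_nu ε1 he0 (by linarith)
  set ν1 := e1 (a, b, c) with hν1
  set ν2 := e2 (a, b, c) with hν2
  set ν3 := e3 (a, b, c) with hν3
  set α1 := e1 (0, b', c') with hα1
  set α2 := e2 (0, b', c') with hα2
  set α3 := e3 (0, b', c') with hα3
  rw [abs_le] at hn1 hn2
  have hd : 0 < ν1 - ν2 := by linarith
  set ξ₂ : ℝ := (α1 - α2) / (ν1 - ν2) with hξ2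
  set ξ₁ : ℝ := α1 - ν1 * ξ₂ with hξ1
  have k2 : ξ₂ * (ν1 - ν2) = α1 - α2 := by rw [hξ2]; field_simp
  have hA1 : α1 = ξ₁ + ν1 * ξ₂ := by rw [hξ1]; ring
  have hA2 : α2 = ξ₁ + ν2 * ξ₂ := by rw [hξ1]; linarith
  -- the element attached to an integer point
  have hη1 : ∀ p₁ p₂ q : ℤ, e1 (-p₁ - p₂ * a, q * b' - p₂ * b, q * c' - p₂ * c) =
      ((q : ℝ) * ξ₁ - p₁) + ν1 * ((q : ℝ) * ξ₂ - p₂) := by
    intro p₁ p₂ q
    have : e1 (-p₁ - p₂ * a, q * b' - p₂ * b, q * c' - p₂ * c) = q * α1 - p₁ - p₂ * ν1 := by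
      rw [hα1, hν1]; unfold e1; push_cast; ring
    rw [this, hA1]; ring
  have hη2 : ∀ p₁ p₂ q : ℤ, e2 (-p₁ - p₂ * a, q * b' - p₂ * b, q * c' - p₂ * c) =
      ((q : ℝ) * ξ₁ - p₁) + ν2 * ((q : ℝ) * ξ₂ - p₂) := by
    intro p₁ p₂ q
    have : e2 (-p₁ - p₂ * a, q * b' - p₂ * b, q * c' - p₂ * c) = q * α2 - p₁ - p₂ * ν2 := by
      rw [hα2, hν2]; unfold e2; push_cast; ring
    rw [this, hA2]; ring
  set β : ℝ := α3 - ξ₁ - ν3 * ξ₂ with hβ
  have hη3 : ∀ p₁ p₂ q : ℤ, e3 (-p₁ - p₂ * a, q * b' - p₂ * b, q * c' - p₂ * c) =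
      q * β + ((q : ℝ) * ξ₁ - p₁) + ν3 * ((q : ℝ) * ξ₂ - p₂) := by
    intro p₁ p₂ q
    have : e3 (-p₁ - p₂ * a, q * b' - p₂ * b, q * c' - p₂ * c) = q * α3 - p₁ - p₂ * ν3 := by
      rw [hα3, hν3]; unfold e3; push_cast; ring
    rw [this, hβ]; ring
  have hβd : |β| * (ν1 - ν2) = 7 := by
    have h1 : β * (ν1 - ν2) = α3 * (ν1 - ν2) - α1 * (ν1 - ν2) + ν1 * (ξ₂ * (ν1 - ν2)) -
        ν3 * (ξ₂ * (ν1 - ν2)) := by
      rw [hβ, hξ1]; ring
    have h2 : β * (ν1 - ν2) = -(b' * c - c' * b) * ((t1 - t2) * (t1 - t3) * (t2 - t3)) := by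
      rw [h1, k2, hα1, hα2, hα3, hν1, hν2, hν3]
      unfold e1 e2 e3
      push_cast
      ring
    have h3 : ((b' : ℝ) * c - c' * b) = 1 := by exact_mod_cast hdet
    rw [h3, vander] at h2
    have h4 : |β| * (ν1 - ν2) = |β * (ν1 - ν2)| := by rw [abs_mul, abs_of_pos hd]
    rw [h4, h2]
    norm_num
  have hnz : ∀ p₁ p₂ q : ℤ, ¬ (p₁ = 0 ∧ p₂ = 0 ∧ q = 0) →
      ¬ ((-p₁ - p₂ * a, q * b' - p₂ * b, q * c' - p₂ * c).1 = 0 ∧
        (-p₁ - p₂ * a, q * b' - p₂ * b, q * c' - p₂ * c).2.1 = 0 ∧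
        (-p₁ - p₂ * a, q * b' - p₂ * b, q * c' - p₂ * c).2.2 = 0) := by
    rintro p₁ p₂ q hne ⟨g1, g2, g3⟩
    simp only at g1 g2 g3
    have hq : q = 0 := by linear_combination (-q) * hdet + c * g2 - b * g3
    have hp2 : p₂ = 0 := by linear_combination (-p₂) * hdet + c' * g2 - b' * g3
    rw [hp2] at g1
    exact hne ⟨by linarith, hp2, hq⟩
  refine ⟨ξ₁, ξ₂, ?_, ?_⟩
  · by_contra hno
    push Not at hno
    unfold Irrational at hno
    simp only [not_not] at hno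
    obtain ⟨⟨r1, hr1⟩, ⟨r2, hr2⟩⟩ := hno
    -- common denominator
    set q : ℤ := (r1.den : ℤ) * r2.den with hq
    have hq0 : q ≠ 0 := by
      rw [hq]
      exact mul_ne_zero (by exact_mod_cast r1.den_nz) (by exact_mod_cast r2.den_nz)
    have hx1 : (q : ℝ) * ξ₁ - ((r1.num * r2.den : ℤ) : ℝ) = 0 := by
      rw [← hr1, hq]
      have h4 : (r1 : ℝ) * (r1.den : ℝ) = r1.num := by exact_mod_cast Rat.mul_den_eq_num r1
      push_cast
      linear_combination (r2.den : ℝ) * h4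
    have hx2 : (q : ℝ) * ξ₂ - ((r2.num * r1.den : ℤ) : ℝ) = 0 := by
      rw [← hr2, hq]
      have h4 : (r2 : ℝ) * (r2.den : ℝ) = r2.num := by exact_mod_cast Rat.mul_den_eq_num r2
      push_cast
      linear_combination (r1.den : ℝ) * h4
    have h5 := hη1 (r1.num * r2.den) (r2.num * r1.den) q
    rw [hx1, hx2, mul_zero, add_zero] at h5
    exact e1_ne (hnz _ _ _ (fun h => hq0 h.2.2)) h5
  · set ρ : ℝ := ε1 / (1 + |ν3|) with hρ
    have hν30 : 0 ≤ |ν3| := abs_nonneg _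
    have hρ0 : 0 < ρ := by positivity
    have hρ1 : (1 + |ν3|) * ρ = ε1 := by rw [hρ]; field_simp
    have hρ2 : ρ ≤ ε1 := by nlinarith
    refine ⟨ρ, hρ0, ?_⟩
    intro p₁ p₂ q hne hx hy
    have hq : q ≠ 0 := by
      rintro rfl
      have key : ∀ (p : ℤ) (ξ : ℝ), |((0 : ℤ) : ℝ) * ξ - p| ≤ ρ → p = 0 := by
        intro p ξ hp
        rw [Int.cast_zero, zero_mul, zero_sub, abs_neg] at hp
        have h5 : |(p : ℝ)| < 1 := by linarith
        have h6 : |p| < 1 := by exact_mod_cast h5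
        exact Int.abs_lt_one_iff.1 h6
      exact hne ⟨key p₁ ξ₁ hx, key p₂ ξ₂ hy, rfl⟩
    have hq1 : 1 ≤ |(q : ℝ)| := by exact_mod_cast Int.one_le_abs hq
    set x1 : ℝ := (q : ℝ) * ξ₁ - p₁ with hx1
    set x2 : ℝ := (q : ℝ) * ξ₂ - p₂ with hx2
    set X : ℝ := max |x1| |x2| with hX
    have hX0 : 0 ≤ X := le_max_of_le_left (abs_nonneg _)
    have hX1 : |x1| ≤ X := le_max_left _ _
    have hX2 : |x2| ≤ X := le_max_right _ _
    have hnorm := norm_ge (hnz p₁ p₂ q hne)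
    rw [hη1, hη2, hη3] at hnorm
    rw [← hx1, ← hx2, abs_mul, abs_mul] at hnorm
    have hprod : |x1 + ν1 * x2| * |x1 + ν2 * x2| ≤ X ^ 2 * (1 + 20 * ε1) :=
      num_prod he0 he2 hn1 hn2 hX0 hX1 hX2
    have hβ1 : |β| ≤ 7 / 2 * (1 + 4 * ε1) := by
      have h1 : 2 - 4 * ε1 ≤ ν1 - ν2 := by linarith
      have h2 : |β| * (2 - 4 * ε1) ≤ 7 := by
        rw [← hβd]
        exact mul_le_mul_of_nonneg_left h1 (abs_nonneg _)
      by_contra hlt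
      push Not at hlt
      have h3 : 7 / 2 * (1 + 4 * ε1) * (2 - 4 * ε1) < |β| * (2 - 4 * ε1) :=
        mul_lt_mul_of_pos_right hlt (by linarith)
      nlinarith
    have hthird : |(q : ℝ) * β + x1 + ν3 * x2| ≤ |(q : ℝ)| * (7 / 2 + 15 * ε1) := by
      have g1 : |(q : ℝ) * β + x1 + ν3 * x2| ≤ |(q : ℝ)| * |β| + |x1| + |ν3| * |x2| := by
        refine (abs_add_le _ _).trans ?_
        refine add_le_add ((abs_add_le _ _).trans ?_) ?_
        · rw [abs_mul]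
        · rw [abs_mul]
      have g2 : |x1| + |ν3| * |x2| ≤ ε1 := by
        rw [← hρ1]
        have := mul_le_mul_of_nonneg_left hy hν30
        linarith
      have g3 : ε1 ≤ |(q : ℝ)| * ε1 := by nlinarith
      have g4 : |(q : ℝ)| * |β| ≤ |(q : ℝ)| * (7 / 2 * (1 + 4 * ε1)) :=
        mul_le_mul_of_nonneg_left hβ1 (abs_nonneg _)
      linarith
    have hfin : 1 ≤ (X ^ 2 * (1 + 20 * ε1)) * (|(q : ℝ)| * (7 / 2 + 15 * ε1)) :=
      hnorm.trans (mul_le_mul hprod hthird (abs_nonneg _) (by positivity))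
    set Q : ℝ := |(q : ℝ)| * X ^ 2 with hQ
    have hQ0 : 0 ≤ Q := by positivity
    have hfin2 : 1 ≤ Q * (7 / 2 + 90 * ε1) := by
      have h1 : (X ^ 2 * (1 + 20 * ε1)) * (|(q : ℝ)| * (7 / 2 + 15 * ε1)) =
          Q * ((1 + 20 * ε1) * (7 / 2 + 15 * ε1)) := by rw [hQ]; ring
      rw [h1] at hfin
      refine hfin.trans (mul_le_mul_of_nonneg_left ?_ hQ0)
      nlinarith
    by_contra hlt
    push Not at hlt
    rcases le_or_gt (2 / 7 - ε) 0 with h0 | h0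
    · linarith
    · have h1 : Q * (7 / 2 + 90 * ε1) < (2 / 7 - ε) * (7 / 2 + 90 * ε1) :=
        mul_lt_mul_of_pos_right hlt (by positivity)
      nlinarith

end Run7.h349.DS
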