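import Mathlib

/-!
# MP_be9f18_nt: Lagrange–Gauss reduction for the form `u² + 2 v²` (used in piece I)
-/

set_option autoImplicit false

namespace Run7.h349.DS

/-- the form -/
noncomputable def nf (u v : ℝ) : ℝ := u ^ 2 + 2 * v ^ 2

/-- value of the form on the integer combination `p` of `(u1,v1)`, `(u2,v2)` -/
noncomputable def nfc (u1 v1 u2 v2 : ℝ) (p : ℤ × ℤ) : ℝ :=
  nf (p.1 * u1 + p.2 * u2) (p.1 * v1 + p.2 * v2)

theorem nf_nonneg (u v : ℝ) : 0 ≤ nf u v := by unfold nf; positivity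

theorem gauss_fin (u1 v1 u2 v2 K : ℝ) (hD : u1 * v2 - u2 * v1 ≠ 0) :
    {p : ℤ × ℤ | nfc u1 v1 u2 v2 p ≤ K}.Finite := by
  set S : ℝ := |u1| + |v1| + |u2| + |v2| with hS
  set D : ℝ := |u1 * v2 - u2 * v1| with hDd
  have hD0 : 0 < D := abs_pos.2 hD
  set B : ℝ := (|K| + 1) * S / D with hB
  have key : ∀ p : ℤ × ℤ, nfc u1 v1 u2 v2 p ≤ K → |(p.1 : ℝ)| ≤ B ∧ |(p.2 : ℝ)| ≤ B := by
    intro p hp
    unfold nfc nf at hp
    set U : ℝ := p.1 * u1 + p.2 * u2 with hU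
    set V : ℝ := p.1 * v1 + p.2 * v2 with hV
    have hK : K ≤ |K| := le_abs_self K
    have h1 : |U| ≤ |K| + 1 := by
      apply abs_le_of_sq_le_sq _ (by positivity)
      nlinarith [sq_nonneg V, abs_nonneg K]
    have h2 : |V| ≤ |K| + 1 := by
      apply abs_le_of_sq_le_sq _ (by positivity)
      nlinarith [sq_nonneg U, abs_nonneg K, sq_nonneg V]
    have e1 : (p.1 : ℝ) * (u1 * v2 - u2 * v1) = U * v2 - V * u2 := by rw [hU, hV]; ring
    have e2 : (p.2 : ℝ) * (u1 * v2 - u2 * v1) = V * u1 - U * v1 := by rw [hU, hV]; ring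
    have hKp : 0 ≤ |K| + 1 := by positivity
    constructor
    · rw [hB, le_div_iff₀ hD0, hDd, ← abs_mul, e1]
      calc |U * v2 - V * u2| ≤ |U * v2| + |V * u2| := abs_sub _ _
        _ = |U| * |v2| + |V| * |u2| := by rw [abs_mul, abs_mul]
        _ ≤ (|K| + 1) * |v2| + (|K| + 1) * |u2| := by gcongr
        _ ≤ (|K| + 1) * S := by
          rw [hS]
          nlinarith [abs_nonneg u1, abs_nonneg v1, abs_nonneg u2, abs_nonneg v2,
            mul_nonneg hKp (abs_nonneg u1), mul_nonneg hKp (abs_nonneg v1)]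
    · rw [hB, le_div_iff₀ hD0, hDd, ← abs_mul, e2]
      calc |V * u1 - U * v1| ≤ |V * u1| + |U * v1| := abs_sub _ _
        _ = |V| * |u1| + |U| * |v1| := by rw [abs_mul, abs_mul]
        _ ≤ (|K| + 1) * |u1| + (|K| + 1) * |v1| := by gcongr
        _ ≤ (|K| + 1) * S := by
          rw [hS]
          nlinarith [abs_nonneg u1, abs_nonneg v1, abs_nonneg u2, abs_nonneg v2,
            mul_nonneg hKp (abs_nonneg u2), mul_nonneg hKp (abs_nonneg v2)]
  refine Set.Finite.subset ((Set.finite_Icc (-⌈B⌉) ⌈B⌉).prod (Set.finite_Icc (-⌈B⌉) ⌈B⌉)) ?_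
  intro p hp
  obtain ⟨h1, h2⟩ := key p hp
  rw [abs_le] at h1 h2
  have hc : B ≤ (⌈B⌉ : ℝ) := Int.le_ceil B
  refine ⟨⟨?_, ?_⟩, ⟨?_, ?_⟩⟩
  · have : ((-⌈B⌉ : ℤ) : ℝ) ≤ (p.1 : ℝ) := by push_cast; linarith [h1.1]
    exact_mod_cast this
  · have : (p.1 : ℝ) ≤ (⌈B⌉ : ℝ) := by linarith [h1.2]
    exact_mod_cast this
  · have : ((-⌈B⌉ : ℤ) : ℝ) ≤ (p.2 : ℝ) := by push_cast; linarith [h2.1]
    exact_mod_cast this
  · have : (p.2 : ℝ) ≤ (⌈B⌉ : ℝ) := by linarith [h2.2]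
    exact_mod_cast this

/-- unimodular pairs -/
def unim (g : (ℤ × ℤ) × (ℤ × ℤ)) : Prop :=
  g.1.1 * g.2.2 - g.1.2 * g.2.1 = 1 ∨ g.1.1 * g.2.2 - g.1.2 * g.2.1 = -1

theorem gauss_min (u1 v1 u2 v2 : ℝ) (hD : u1 * v2 - u2 * v1 ≠ 0) :
    ∃ g : (ℤ × ℤ) × (ℤ × ℤ), unim g ∧ ∀ g', unim g' →
      nfc u1 v1 u2 v2 g.1 + nfc u1 v1 u2 v2 g.2 ≤
        nfc u1 v1 u2 v2 g'.1 + nfc u1 v1 u2 v2 g'.2 := by
  set f : (ℤ × ℤ) × (ℤ × ℤ) → ℝ := fun g => nfc u1 v1 u2 v2 g.1 + nfc u1 v1 u2 v2 g.2 with hf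
  set K0 : ℝ := f ((1, 0), (0, 1)) with hK0
  set S : Set ((ℤ × ℤ) × (ℤ × ℤ)) := {g | unim g ∧ f g ≤ K0} with hS
  have hfin : S.Finite := by
    refine Set.Finite.subset ((gauss_fin u1 v1 u2 v2 K0 hD).prod
      (gauss_fin u1 v1 u2 v2 K0 hD)) ?_
    rintro g ⟨-, hg⟩
    have h1 : 0 ≤ nfc u1 v1 u2 v2 g.1 := nf_nonneg _ _
    have h2 : 0 ≤ nfc u1 v1 u2 v2 g.2 := nf_nonneg _ _
    have h3 : nfc u1 v1 u2 v2 g.1 + nfc u1 v1 u2 v2 g.2 ≤ K0 := hg
    exact ⟨by show nfc u1 v1 u2 v2 g.1 ≤ K0; linarith, by show nfc u1 v1 u2 v2 g.2 ≤ K0; linarith⟩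
  have hne : S.Nonempty := ⟨((1, 0), (0, 1)), by left; norm_num, le_refl _⟩
  obtain ⟨g, hg, hmin⟩ := Set.exists_min_image S f hfin hne
  refine ⟨g, hg.1, ?_⟩
  intro g' hg'
  by_cases h : f g' ≤ K0
  · exact hmin g' ⟨hg', h⟩
  · push Not at h
    exact hg.2.trans h.le

theorem gauss (u1 v1 u2 v2 : ℝ) (hD : u1 * v2 - u2 * v1 ≠ 0) :
    ∃ i j k l : ℤ, (i * l - j * k = 1 ∨ i * l - j * k = -1) ∧
      (i * u1 + j * u2) ^ 2 + 2 * (i * v1 + j * v2) ^ 2 ≤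
        (k * u1 + l * u2) ^ 2 + 2 * (k * v1 + l * v2) ^ 2 ∧
      0 ≤ (i * u1 + j * u2) * (k * u1 + l * u2) + 2 * ((i * v1 + j * v2) * (k * v1 + l * v2)) ∧
      2 * ((i * u1 + j * u2) * (k * u1 + l * u2) + 2 * ((i * v1 + j * v2) * (k * v1 + l * v2))) ≤
        (i * u1 + j * u2) ^ 2 + 2 * (i * v1 + j * v2) ^ 2 := by
  obtain ⟨⟨⟨i, j⟩, ⟨k, l⟩⟩, hu, hmin⟩ := gauss_min u1 v1 u2 v2 hD
  have hu' : i * l - j * k = 1 ∨ i * l - j * k = -1 := hu
  have m1 := hmin ((i, j), (k + i, l + j)) (by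
    show i * (l + j) - j * (k + i) = 1 ∨ i * (l + j) - j * (k + i) = -1
    rcases hu' with h | h
    · left; linarith
    · right; linarith)
  have m2 := hmin ((i, j), (k - i, l - j)) (by
    show i * (l - j) - j * (k - i) = 1 ∨ i * (l - j) - j * (k - i) = -1
    rcases hu' with h | h
    · left; linarith
    · right; linarith)
  have m3 := hmin ((i + k, j + l), (k, l)) (by
    show (i + k) * l - (j + l) * k = 1 ∨ (i + k) * l - (j + l) * k = -1
    rcases hu' with h | h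
    · left; linarith
    · right; linarith)
  have m4 := hmin ((i - k, j - l), (k, l)) (by
    show (i - k) * l - (j - l) * k = 1 ∨ (i - k) * l - (j - l) * k = -1
    rcases hu' with h | h
    · left; linarith
    · right; linarith)
  unfold nfc nf at m1 m2 m3 m4
  push_cast at m1 m2 m3 m4
  rcases le_total ((i * u1 + j * u2) ^ 2 + 2 * (i * v1 + j * v2) ^ 2)
    ((k * u1 + l * u2) ^ 2 + 2 * (k * v1 + l * v2) ^ 2) with hc | hc
  · rcases le_total 0 ((i * u1 + j * u2) * (k * u1 + l * u2) +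
      2 * ((i * v1 + j * v2) * (k * v1 + l * v2))) with hs | hs
    · exact ⟨i, j, k, l, hu', hc, hs, by nlinarith⟩
    · refine ⟨i, j, -k, -l, ?_, ?_, ?_, ?_⟩
      · rcases hu' with h | h
        · right; linarith
        · left; linarith
      · push_cast; nlinarith
      · push_cast; nlinarith
      · push_cast; nlinarith
  · rcases le_total 0 ((i * u1 + j * u2) * (k * u1 + l * u2) +
      2 * ((i * v1 + j * v2) * (k * v1 + l * v2))) with hs | hs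
    · refine ⟨k, l, i, j, ?_, hc, ?_, ?_⟩
      · rcases hu' with h | h
        · right; linarith
        · left; linarith
      · nlinarith
      · nlinarith
    · refine ⟨k, l, -i, -j, ?_, ?_, ?_, ?_⟩
      · rcases hu' with h | h
        · left; linarith
        · right; linarith
      · push_cast; nlinarith
      · push_cast; nlinarith
      · push_cast; nlinarith

end Run7.h349.DS
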