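import Pool.Agent.Run7.h349.DS.D
import Pool.Agent.Run7.h349.DS.Gauss

/-!
# MP_be9f18_nt: piece I (reduction)
-/

set_option autoImplicit false

namespace Run7.h349.DS

open Run7.h774

/-! ## Reducing a real basis `P = (1,a,1), X0, Y0` -/

theorem red3 (a x1 x2 x3 y1 y2 y3 : ℝ)
    (hD : (x1 - x3) * (y2 - a * y3) - (y1 - y3) * (x2 - a * x3) ≠ 0) :
    ∃ n₁ i j n₂ k l : ℤ, (i * l - j * k = 1 ∨ i * l - j * k = -1) ∧
      ∀ X1 X2 X3 Y1 Y2 Y3 : ℝ,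
        X1 = n₁ + i * x1 + j * y1 → X2 = n₁ * a + i * x2 + j * y2 → X3 = n₁ + i * x3 + j * y3 →
        Y1 = n₂ + k * x1 + l * y1 → Y2 = n₂ * a + k * x2 + l * y2 → Y3 = n₂ + k * x3 + l * y3 →
        0 ≤ X3 ∧ X3 ≤ 1 / 2 ∧ |Y3| ≤ 1 / 2 ∧
        (X1 - X3) ^ 2 + 2 * (X2 - a * X3) ^ 2 ≤ (Y1 - Y3) ^ 2 + 2 * (Y2 - a * Y3) ^ 2 ∧
        0 ≤ (X1 - X3) * (Y1 - Y3) + 2 * ((X2 - a * X3) * (Y2 - a * Y3)) ∧
        2 * ((X1 - X3) * (Y1 - Y3) + 2 * ((X2 - a * X3) * (Y2 - a * Y3)))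
          ≤ (X1 - X3) ^ 2 + 2 * (X2 - a * X3) ^ 2 := by
  obtain ⟨i, j, k, l, hu, h1, h2, h3⟩ := gauss (x1 - x3) (x2 - a * x3) (y1 - y3) (y2 - a * y3) hD
  set nX : ℤ := -round ((i : ℝ) * x3 + j * y3) with hnX
  set nY : ℤ := -round ((k : ℝ) * x3 + l * y3) with hnY
  have hX : |(nX : ℝ) + i * x3 + j * y3| ≤ 1 / 2 := by
    have := abs_sub_round ((i : ℝ) * x3 + j * y3)
    rw [hnX]; push_cast
    have e : -(round ((i : ℝ) * x3 + j * y3) : ℝ) + i * x3 + j * y3 =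
      ((i : ℝ) * x3 + j * y3) - round ((i : ℝ) * x3 + j * y3) := by ring
    rw [e]; exact this
  have hY : |(nY : ℝ) + k * x3 + l * y3| ≤ 1 / 2 := by
    have := abs_sub_round ((k : ℝ) * x3 + l * y3)
    rw [hnY]; push_cast
    have e : -(round ((k : ℝ) * x3 + l * y3) : ℝ) + k * x3 + l * y3 =
      ((k : ℝ) * x3 + l * y3) - round ((k : ℝ) * x3 + l * y3) := by ring
    rw [e]; exact this
  rcases le_total 0 ((nX : ℝ) + i * x3 + j * y3) with hs | hs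
  · refine ⟨nX, i, j, nY, k, l, hu, ?_⟩
    intro X1 X2 X3 Y1 Y2 Y3 e1 e2 e3 e4 e5 e6
    have f1 : X1 - X3 = i * (x1 - x3) + j * (y1 - y3) := by rw [e1, e3]; ring
    have f2 : X2 - a * X3 = i * (x2 - a * x3) + j * (y2 - a * y3) := by rw [e2, e3]; ring
    have f3 : Y1 - Y3 = k * (x1 - x3) + l * (y1 - y3) := by rw [e4, e6]; ring
    have f4 : Y2 - a * Y3 = k * (x2 - a * x3) + l * (y2 - a * y3) := by rw [e5, e6]; ring
    rw [f1, f2, f3, f4]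
    refine ⟨by rw [e3]; exact hs, ?_, by rw [e6]; exact hY, h1, h2, h3⟩
    rw [e3]; exact (abs_le.1 hX).2
  · refine ⟨-nX, -i, -j, -nY, -k, -l, ?_, ?_⟩
    · rcases hu with h | h
      · left; linarith
      · right; linarith
    intro X1 X2 X3 Y1 Y2 Y3 e1 e2 e3 e4 e5 e6
    push_cast at e1 e2 e3 e4 e5 e6
    have f1 : X1 - X3 = -(i * (x1 - x3) + j * (y1 - y3)) := by rw [e1, e3]; ring
    have f2 : X2 - a * X3 = -(i * (x2 - a * x3) + j * (y2 - a * y3)) := by rw [e2, e3]; ring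
    have f3 : Y1 - Y3 = -(k * (x1 - x3) + l * (y1 - y3)) := by rw [e4, e6]; ring
    have f4 : Y2 - a * Y3 = -(k * (x2 - a * x3) + l * (y2 - a * y3)) := by rw [e5, e6]; ring
    rw [f1, f2, f3, f4]
    refine ⟨?_, ?_, ?_, ?_, ?_, ?_⟩
    · rw [e3]; linarith
    · rw [e3]; linarith [(abs_le.1 hX).1]
    · rw [e6]
      have : -(nY : ℝ) + -(k : ℝ) * y3 * 0 = -(nY : ℝ) := by ring
      rw [abs_le] at hY ⊢
      constructor <;> linarith [hY.1, hY.2]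
    · linarith
    · linarith
    · linarith

/-! ## Extending a primitive vector to a basis -/

theorem extend_basis (p1 p2 q : ℤ) (hg : Int.gcd (Int.gcd p1 p2) q = 1) :
    ∃ a1 a2 a3 b1 b2 b3 : ℤ,
      p1 * (a2 * b3 - a3 * b2) - p2 * (a1 * b3 - a3 * b1) + q * (a1 * b2 - a2 * b1) = 1 := by
  by_cases h0 : p1 = 0 ∧ p2 = 0
  · obtain ⟨rfl, rfl⟩ := h0
    have hq : Int.gcd 0 q = 1 := by simpa using hg
    have hq' : q.natAbs = 1 := by simpa using hq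
    rcases Int.natAbs_eq q with h | h
    · refine ⟨1, 0, 0, 0, 1, 0, ?_⟩
      rw [h, hq']; norm_num
    · refine ⟨0, 1, 0, 1, 0, 0, ?_⟩
      rw [h, hq']; norm_num
  · have hgne : (Int.gcd p1 p2 : ℤ) ≠ 0 := by
      intro h
      have : Int.gcd p1 p2 = 0 := by exact_mod_cast h
      rw [Int.gcd_eq_zero_iff] at this
      exact h0 this
    obtain ⟨a, ha⟩ : (Int.gcd p1 p2 : ℤ) ∣ p1 := Int.gcd_dvd_left ..
    obtain ⟨b, hb⟩ : (Int.gcd p1 p2 : ℤ) ∣ p2 := Int.gcd_dvd_right ..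
    have hbez := Int.gcd_eq_gcd_ab p1 p2
    have hbez2 := Int.gcd_eq_gcd_ab (Int.gcd p1 p2 : ℤ) q
    set g : ℤ := (Int.gcd p1 p2 : ℤ) with hgd
    set r := Int.gcdA p1 p2
    set s := Int.gcdB p1 p2
    set t := Int.gcdA g q
    set w := Int.gcdB g q
    have hrs : a * r + b * s = 1 := by
      have : g * (a * r + b * s) = g * 1 := by
        rw [mul_one]
        have h5 : g = (g * a) * r + (g * b) * s := by
          rw [← ha, ← hb]; exact hbez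
        linarith
      exact mul_left_cancel₀ hgne this
    have htw : g * t + q * w = 1 := by
      rw [← hbez2]
      have : Int.gcd g q = 1 := hg
      rw [this]; rfl
    refine ⟨-s, r, 0, -(w * a), -(w * b), t, ?_⟩
    have e1 : p1 * (r * t - 0 * -(w * b)) - p2 * (-s * t - 0 * -(w * a)) +
        q * (-s * -(w * b) - r * -(w * a)) =
        t * (p1 * r + p2 * s) + q * w * (a * r + b * s) := by ring
    rw [e1, hrs]
    have e2 : p1 * r + p2 * s = g := hbez.symm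
    rw [e2]; linarith

/-! ## After the choice of `P` -/

theorem det_form (ξ₁ ξ₂ s : ℝ) (p1 p2 q a1 a2 a3 b1 b2 b3 : ℝ) (W A a : ℝ)
    (hW : W = q * ξ₁ - p1) (hW0 : W ≠ 0) (hA0 : A ≠ 0) (hq : q ≠ 0)
    (ha : a = s * (q * ξ₂ - p2) / A) :
    ((a3 * ξ₁ - a1) / W - a3 / q) * (s * (b3 * ξ₂ - b2) / A - a * (b3 / q)) -
      ((b3 * ξ₁ - b1) / W - b3 / q) * (s * (a3 * ξ₂ - a2) / A - a * (a3 / q)) =
      s / (W * A * q) *
        (p1 * (a2 * b3 - a3 * b2) - p2 * (a1 * b3 - a3 * b1) + q * (a1 * b2 - a2 * b1)) := by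
  have e1 : ∀ z1 z3 : ℝ, (z3 * ξ₁ - z1) / W - z3 / q = (z3 * p1 - q * z1) / (W * q) := by
    intro z1 z3
    rw [div_sub_div _ _ hW0 hq]
    congr 1
    rw [hW]; ring
  have e2 : ∀ z2 z3 : ℝ, s * (z3 * ξ₂ - z2) / A - a * (z3 / q) =
      s * (z3 * p2 - q * z2) / (A * q) := by
    intro z2 z3
    rw [ha]
    field_simp
    ring
  rw [e1, e1, e2, e2]
  field_simp
  ring

theorem red_core (ξ₁ ξ₂ c R ε : ℝ) (p1 p2 q : ℤ)
    (hprim : Int.gcd (Int.gcd p1 p2) q = 1) (hq : q ≠ 0)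
    (hw1 : (q : ℝ) * ξ₁ - p1 ≠ 0)
    (hw2 : |(q : ℝ) * ξ₂ - p2| ≤ |(q : ℝ) * ξ₁ - p1|)
    (hc : 2 / 7 < c)
    (hF : 2 / 7 < |(q : ℝ)| * |(q : ℝ) * ξ₁ - p1| ^ 2)
    (H : ∀ z1 z2 z3 : ℤ, ¬ (z1 = 0 ∧ z2 = 0 ∧ z3 = 0) →
      |(z3 : ℝ) * ξ₁ - z1| ≤ R * |(q : ℝ) * ξ₁ - p1| →
      |(z3 : ℝ) * ξ₂ - z2| ≤ R * |(q : ℝ) * ξ₁ - p1| →
      c ≤ |(z3 : ℝ)| * (max |(z3 : ℝ) * ξ₁ - z1| |(z3 : ℝ) * ξ₂ - z2|) ^ 2 ∧
      (1 - ε) * (|(q : ℝ)| * |(q : ℝ) * ξ₁ - p1| ^ 2) ≤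
        |(z3 : ℝ)| * (max |(z3 : ℝ) * ξ₁ - z1| |(z3 : ℝ) * ξ₂ - z2|) ^ 2) :
    ∃ a x1 x2 x3 y1 y2 y3 : ℝ,
      0 ≤ a ∧ a ≤ 1 ∧ 0 ≤ x3 ∧ x3 ≤ 1 / 2 ∧ |y3| ≤ 1 / 2 ∧
      (x1 - x3) ^ 2 + 2 * (x2 - a * x3) ^ 2 ≤ (y1 - y3) ^ 2 + 2 * (y2 - a * y3) ^ 2 ∧
      0 ≤ (x1 - x3) * (y1 - y3) + 2 * ((x2 - a * x3) * (y2 - a * y3)) ∧
      2 * ((x1 - x3) * (y1 - y3) + 2 * ((x2 - a * x3) * (y2 - a * y3)))
        ≤ (x1 - x3) ^ 2 + 2 * (x2 - a * x3) ^ 2 ∧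
      |(x1 - x3) * (y2 - a * y3) - (y1 - y3) * (x2 - a * x3)| < 7 / 2 ∧
      0 < |(x1 - x3) * (y2 - a * y3) - (y1 - y3) * (x2 - a * x3)| ∧
      (∀ n i j : ℤ, ¬ (n = 0 ∧ i = 0 ∧ j = 0) →
        |n + i * x1 + j * y1| ≤ R → |n * a + i * x2 + j * y2| ≤ R →
        1 - ε ≤ |n + i * x3 + j * y3| *
          (max |n + i * x1 + j * y1| |n * a + i * x2 + j * y2|) ^ 2) ∧
      ∃ κ : ℝ, 1 < κ ∧ ∀ n i j : ℤ, ¬ (n = 0 ∧ i = 0 ∧ j = 0) →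
        |n + i * x1 + j * y1| ≤ R → |n * a + i * x2 + j * y2| ≤ R →
        κ * (2 / 7 * |(x1 - x3) * (y2 - a * y3) - (y1 - y3) * (x2 - a * x3)|) ≤
          |n + i * x3 + j * y3| *
          (max |n + i * x1 + j * y1| |n * a + i * x2 + j * y2|) ^ 2 := by
  obtain ⟨a1, a2, a3, b1, b2, b3, hdet⟩ := extend_basis p1 p2 q hprim
  set W : ℝ := (q : ℝ) * ξ₁ - p1 with hW
  have hA : 0 < |W| := abs_pos.2 hw1
  have hqR : (q : ℝ) ≠ 0 := by exact_mod_cast hq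
  have hqA : 0 < |(q : ℝ)| := abs_pos.2 hqR
  obtain ⟨s, hs, hsa⟩ : ∃ s : ℝ, s * ((q : ℝ) * ξ₂ - p2) = |(q : ℝ) * ξ₂ - p2| ∧ |s| = 1 := by
    rcases abs_cases ((q : ℝ) * ξ₂ - p2) with h | h
    · exact ⟨1, by rw [h.1, one_mul], abs_one⟩
    · exact ⟨-1, by rw [h.1]; ring, by rw [abs_neg, abs_one]⟩
  set a : ℝ := |(q : ℝ) * ξ₂ - p2| / |W| with ha
  have ha' : a = s * ((q : ℝ) * ξ₂ - p2) / |W| := by rw [hs]
  set L1 : ℤ → ℤ → ℝ := fun z1 z3 => ((z3 : ℝ) * ξ₁ - z1) / W with hL1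
  set L2 : ℤ → ℤ → ℝ := fun z2 z3 => s * ((z3 : ℝ) * ξ₂ - z2) / |W| with hL2
  set L3 : ℤ → ℝ := fun z3 => (z3 : ℝ) / q with hL3
  have hdetR : ∀ A1 A2 A3 B1 B2 B3 : ℤ,
      (L1 A1 A3 - L3 A3) * (L2 B2 B3 - a * L3 B3) - (L1 B1 B3 - L3 B3) * (L2 A2 A3 - a * L3 A3) =
      s / (W * |W| * q) * ((p1 * (A2 * B3 - A3 * B2) - p2 * (A1 * B3 - A3 * B1) +
        q * (A1 * B2 - A2 * B1) : ℤ) : ℝ) := by
    intro A1 A2 A3 B1 B2 B3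
    have := det_form ξ₁ ξ₂ s p1 p2 q A1 A2 A3 B1 B2 B3 W |W| a hW hw1 hA.ne' hqR ha'
    rw [hL1, hL2, hL3]
    push_cast
    exact this
  have hs0 : s ≠ 0 := by
    intro h
    rw [h, abs_zero] at hsa
    exact zero_ne_one hsa
  have hfac : s / (W * |W| * q) ≠ 0 :=
    div_ne_zero hs0 (mul_ne_zero (mul_ne_zero hw1 hA.ne') hqR)
  have hfac' : |s / (W * |W| * q)| = 1 / (|(q : ℝ)| * |W| ^ 2) := by
    rw [abs_div, hsa, abs_mul, abs_mul, abs_abs]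
    congr 1; ring
  have hD0 : (L1 a1 a3 - L3 a3) * (L2 b2 b3 - a * L3 b3) -
      (L1 b1 b3 - L3 b3) * (L2 a2 a3 - a * L3 a3) ≠ 0 := by
    rw [hdetR, hdet]
    simpa using hfac
  obtain ⟨n₁, i, j, n₂, k, l, hu, hred⟩ := red3 a (L1 a1 a3) (L2 a2 a3) (L3 a3)
    (L1 b1 b3) (L2 b2 b3) (L3 b3) hD0
  -- the new integer vectors
  set A1 : ℤ := n₁ * p1 + i * a1 + j * b1 with hA1
  set A2 : ℤ := n₁ * p2 + i * a2 + j * b2 with hA2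
  set A3 : ℤ := n₁ * q + i * a3 + j * b3 with hA3
  set B1 : ℤ := n₂ * p1 + k * a1 + l * b1 with hB1
  set B2 : ℤ := n₂ * p2 + k * a2 + l * b2 with hB2
  set B3 : ℤ := n₂ * q + k * a3 + l * b3 with hB3
  have hdetAB : p1 * (A2 * B3 - A3 * B2) - p2 * (A1 * B3 - A3 * B1) +
      q * (A1 * B2 - A2 * B1) = i * l - j * k := by
    have : p1 * (A2 * B3 - A3 * B2) - p2 * (A1 * B3 - A3 * B1) +
      q * (A1 * B2 - A2 * B1) = (i * l - j * k) *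
      (p1 * (a2 * b3 - a3 * b2) - p2 * (a1 * b3 - a3 * b1) + q * (a1 * b2 - a2 * b1)) := by
      rw [hA1, hA2, hA3, hB1, hB2, hB3]; ring
    rw [this, hdet, mul_one]
  -- linearity
  have lin1 : ∀ (n i j x1 x3 y1 y3 : ℤ),
      L1 (n * p1 + i * x1 + j * y1) (n * q + i * x3 + j * y3) =
      n + i * L1 x1 x3 + j * L1 y1 y3 := by
    intro n i j x1 x3 y1 y3
    rw [hL1]
    push_cast
    field_simp
    rw [hW]; ring
  have lin2 : ∀ (n i j x2 x3 y2 y3 : ℤ),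
      L2 (n * p2 + i * x2 + j * y2) (n * q + i * x3 + j * y3) =
      n * a + i * L2 x2 x3 + j * L2 y2 y3 := by
    intro n i j x2 x3 y2 y3
    rw [hL2, ha']
    push_cast
    field_simp
    ring
  have lin3 : ∀ (n i j x3 y3 : ℤ),
      L3 (n * q + i * x3 + j * y3) = n + i * L3 x3 + j * L3 y3 := by
    intro n i j x3 y3
    rw [hL3]
    push_cast
    field_simp
  obtain ⟨r1, r2, r3, r4, r5, r6⟩ := hred (L1 A1 A3) (L2 A2 A3) (L3 A3) (L1 B1 B3) (L2 B2 B3)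
    (L3 B3) (lin1 _ _ _ _ _ _ _) (lin2 _ _ _ _ _ _ _) (lin3 _ _ _ _ _)
    (lin1 _ _ _ _ _ _ _) (lin2 _ _ _ _ _ _ _) (lin3 _ _ _ _ _)
  have hDabs : |(L1 A1 A3 - L3 A3) * (L2 B2 B3 - a * L3 B3) -
      (L1 B1 B3 - L3 B3) * (L2 A2 A3 - a * L3 A3)| = 1 / (|(q : ℝ)| * |W| ^ 2) := by
    rw [hdetR, hdetAB, abs_mul, hfac']
    have : |((i * l - j * k : ℤ) : ℝ)| = 1 := by
      rcases hu with h | h
      · rw [h]; norm_num
      · rw [h]; norm_num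
    rw [this, mul_one]
  have hFP : 0 < |(q : ℝ)| * |W| ^ 2 := by positivity
  have main : ∀ n i' j' : ℤ, ¬ (n = 0 ∧ i' = 0 ∧ j' = 0) →
      |n + i' * L1 A1 A3 + j' * L1 B1 B3| ≤ R → |n * a + i' * L2 A2 A3 + j' * L2 B2 B3| ≤ R →
      c / (|(q : ℝ)| * |W| ^ 2) ≤ |n + i' * L3 A3 + j' * L3 B3| *
        (max |n + i' * L1 A1 A3 + j' * L1 B1 B3| |n * a + i' * L2 A2 A3 + j' * L2 B2 B3|) ^ 2 ∧
      1 - ε ≤ |n + i' * L3 A3 + j' * L3 B3| *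
        (max |n + i' * L1 A1 A3 + j' * L1 B1 B3| |n * a + i' * L2 A2 A3 + j' * L2 B2 B3|) ^ 2 := by
    intro n i' j' hne h1 h2
    rw [← lin1] at h1
    rw [← lin2] at h2
    rw [← lin1, ← lin2, ← lin3]
    set z1 : ℤ := n * p1 + i' * A1 + j' * B1 with hz1
    set z2 : ℤ := n * p2 + i' * A2 + j' * B2 with hz2
    set z3 : ℤ := n * q + i' * A3 + j' * B3 with hz3
    have hz : ¬ (z1 = 0 ∧ z2 = 0 ∧ z3 = 0) := by
      rintro ⟨g1, g2, g3⟩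
      apply hne
      have hd1 : i * l - j * k ≠ 0 := by
        rcases hu with h | h <;> rw [h] <;> norm_num
      -- Cramer
      have c1 : n * (i * l - j * k) = 0 := by
        rw [← hdetAB]
        have : n * (p1 * (A2 * B3 - A3 * B2) - p2 * (A1 * B3 - A3 * B1) +
            q * (A1 * B2 - A2 * B1)) =
            z1 * (A2 * B3 - A3 * B2) - z2 * (A1 * B3 - A3 * B1) + z3 * (A1 * B2 - A2 * B1) := by
          rw [hz1, hz2, hz3]; ring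
        rw [this, g1, g2, g3]; ring
      have c2 : i' * (i * l - j * k) = 0 := by
        rw [← hdetAB]
        have : i' * (p1 * (A2 * B3 - A3 * B2) - p2 * (A1 * B3 - A3 * B1) +
            q * (A1 * B2 - A2 * B1)) =
            p1 * (z2 * B3 - z3 * B2) - p2 * (z1 * B3 - z3 * B1) + q * (z1 * B2 - z2 * B1) := by
          rw [hz1, hz2, hz3]; ring
        rw [this, g1, g2, g3]; ring
      have c3 : j' * (i * l - j * k) = 0 := by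
        rw [← hdetAB]
        have : j' * (p1 * (A2 * B3 - A3 * B2) - p2 * (A1 * B3 - A3 * B1) +
            q * (A1 * B2 - A2 * B1)) =
            p1 * (A2 * z3 - A3 * z2) - p2 * (A1 * z3 - A3 * z1) + q * (A1 * z2 - A2 * z1) := by
          rw [hz1, hz2, hz3]; ring
        rw [this, g1, g2, g3]; ring
      exact ⟨(mul_eq_zero.1 c1).resolve_right hd1, (mul_eq_zero.1 c2).resolve_right hd1,
        (mul_eq_zero.1 c3).resolve_right hd1⟩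
    have n1 : |L1 z1 z3| = |(z3 : ℝ) * ξ₁ - z1| / |W| := by rw [hL1, abs_div]
    have n2 : |L2 z2 z3| = |(z3 : ℝ) * ξ₂ - z2| / |W| := by
      rw [hL2]
      simp only
      rw [abs_div, abs_mul, hsa, one_mul, abs_abs]
    have n3 : |L3 z3| = |(z3 : ℝ)| / |(q : ℝ)| := by rw [hL3, abs_div]
    rw [n1, div_le_iff₀ hA] at h1
    rw [n2, div_le_iff₀ hA] at h2
    obtain ⟨k1, k2⟩ := H z1 z2 z3 hz h1 h2
    have n4 : |L3 z3| * (max |L1 z1 z3| |L2 z2 z3|) ^ 2 =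
        (|(z3 : ℝ)| * (max |(z3 : ℝ) * ξ₁ - z1| |(z3 : ℝ) * ξ₂ - z2|) ^ 2) /
          (|(q : ℝ)| * |W| ^ 2) := by
      rw [n1, n2, n3, max_div_div_right hA.le, div_pow]
      field_simp
    rw [n4, div_le_div_iff_of_pos_right hFP, le_div_iff₀ hFP]
    exact ⟨k1, k2⟩
  refine ⟨a, L1 A1 A3, L2 A2 A3, L3 A3, L1 B1 B3, L2 B2 B3, L3 B3, ?_, ?_, r1, r2, r3, r4, r5, r6,
    ?_, ?_, ?_, c * (7 / 2), by linarith, ?_⟩
  · rw [ha]; positivity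
  · rw [ha, div_le_one hA]; exact hw2
  · rw [hDabs, div_lt_iff₀ hFP]; linarith
  · rw [hDabs]; positivity
  · intro n i' j' h0 h1 h2
    exact (main n i' j' h0 h1 h2).2
  · intro n i' j' h0 h1 h2
    refine le_trans (le_of_eq ?_) (main n i' j' h0 h1 h2).1
    rw [hDabs]; ring

/-! ## The choice of `P` -/

theorem Adm_le_one {ξ₁ ξ₂ c : ℝ} (h : Adm ξ₁ ξ₂ c) : c ≤ 1 := by
  obtain ⟨ρ, hρ, h⟩ := h
  obtain ⟨p1, p2, q, h0, h1, h2, h3⟩ := dirichlet ξ₁ ξ₂ ρ hρ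
  exact (h p1 p2 q h0 h1 h2).trans h3

/-- PIECE I -/
theorem reduction (ξ₁ ξ₂ c R ε : ℝ) (hirr : Irrational ξ₁ ∨ Irrational ξ₂) (hc : 2 / 7 < c)
    (hA : Adm ξ₁ ξ₂ c) (hR : 0 < R) (hε : 0 < ε) :
    ∃ a x1 x2 x3 y1 y2 y3 : ℝ,
      0 ≤ a ∧ a ≤ 1 ∧ 0 ≤ x3 ∧ x3 ≤ 1 / 2 ∧ |y3| ≤ 1 / 2 ∧
      (x1 - x3) ^ 2 + 2 * (x2 - a * x3) ^ 2 ≤ (y1 - y3) ^ 2 + 2 * (y2 - a * y3) ^ 2 ∧
      0 ≤ (x1 - x3) * (y1 - y3) + 2 * ((x2 - a * x3) * (y2 - a * y3)) ∧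
      2 * ((x1 - x3) * (y1 - y3) + 2 * ((x2 - a * x3) * (y2 - a * y3)))
        ≤ (x1 - x3) ^ 2 + 2 * (x2 - a * x3) ^ 2 ∧
      |(x1 - x3) * (y2 - a * y3) - (y1 - y3) * (x2 - a * x3)| < 7 / 2 ∧
      0 < |(x1 - x3) * (y2 - a * y3) - (y1 - y3) * (x2 - a * x3)| ∧
      (∀ n i j : ℤ, ¬ (n = 0 ∧ i = 0 ∧ j = 0) →
        |n + i * x1 + j * y1| ≤ R → |n * a + i * x2 + j * y2| ≤ R →
        1 - ε ≤ |n + i * x3 + j * y3| *
          (max |n + i * x1 + j * y1| |n * a + i * x2 + j * y2|) ^ 2) ∧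
      ∃ κ : ℝ, 1 < κ ∧ ∀ n i j : ℤ, ¬ (n = 0 ∧ i = 0 ∧ j = 0) →
        |n + i * x1 + j * y1| ≤ R → |n * a + i * x2 + j * y2| ≤ R →
        κ * (2 / 7 * |(x1 - x3) * (y2 - a * y3) - (y1 - y3) * (x2 - a * x3)|) ≤
          |n + i * x3 + j * y3| *
          (max |n + i * x1 + j * y1| |n * a + i * x2 + j * y2|) ^ 2 := by
  have _ := hirr
  set S : Set ℝ := {c' | Adm ξ₁ ξ₂ c'} with hS
  have hbdd : BddAbove S := ⟨1, fun c' h => Adm_le_one h⟩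
  set m : ℝ := sSup S with hm
  have hcm : c ≤ m := le_csSup hbdd hA
  have hm0 : 0 < m := by linarith
  set δ : ℝ := min (1 / 2) (ε / 2) with hδ
  have hδ0 : 0 < δ := lt_min (by norm_num) (by linarith)
  have hδ1 : δ ≤ 1 / 2 := min_le_left _ _
  have hδ2 : δ ≤ ε / 2 := min_le_right _ _
  obtain ⟨c1, hc1, hc1m⟩ := exists_lt_of_lt_csSup ⟨c, hA⟩ (show m * (1 - δ) < sSup S by
    rw [← hm]; nlinarith)
  obtain ⟨ρ1, hρ1, hadm1⟩ := hc1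
  obtain ⟨ρ0, hρ0, hadm0⟩ := hA
  have hnot : ¬ Adm ξ₁ ξ₂ (m * (1 + δ)) := by
    intro h
    have := le_csSup hbdd h
    rw [← hm] at this
    nlinarith
  set ρ : ℝ := min ρ0 ρ1 / (R + 1) with hρ
  have hmin : 0 < min ρ0 ρ1 := lt_min hρ0 hρ1
  have hρpos : 0 < ρ := by positivity
  have hρle : ρ ≤ min ρ0 ρ1 := by
    rw [hρ, div_le_iff₀ (by linarith)]
    nlinarith
  have hRρ : R * ρ ≤ min ρ0 ρ1 := by
    rw [hρ, ← mul_div_assoc, div_le_iff₀ (by linarith)]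
    nlinarith
  have hex : ∃ p₁ p₂ q : ℤ, ¬ (p₁ = 0 ∧ p₂ = 0 ∧ q = 0) ∧
      |(q : ℝ) * ξ₁ - p₁| ≤ ρ ∧ |(q : ℝ) * ξ₂ - p₂| ≤ ρ ∧
      |(q : ℝ)| * (max |(q : ℝ) * ξ₁ - p₁| |(q : ℝ) * ξ₂ - p₂|) ^ 2 < m * (1 + δ) := by
    by_contra hno
    apply hnot
    refine ⟨ρ, hρpos, ?_⟩
    intro p1 p2 q h0 h1 h2
    by_contra h3
    push Not at h3
    exact hno ⟨p1, p2, q, h0, h1, h2, h3⟩
  obtain ⟨p1, p2, q, h0, h1, h2, h3⟩ := hex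
  have l0 : min ρ0 ρ1 ≤ ρ0 := min_le_left _ _
  have l1 : min ρ0 ρ1 ≤ ρ1 := min_le_right _ _
  have hcF := hadm0 p1 p2 q h0 (by linarith) (by linarith)
  have hprim : Int.gcd (Int.gcd p1 p2) q = 1 := by
    by_contra hg
    set g : ℕ := Int.gcd (Int.gcd p1 p2) q with hgd
    have hg0 : g ≠ 0 := by
      intro h
      rw [hgd, Int.gcd_eq_zero_iff] at h
      have h5 : Int.gcd p1 p2 = 0 := by exact_mod_cast h.1
      rw [Int.gcd_eq_zero_iff] at h5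
      exact h0 ⟨h5.1, h5.2, h.2⟩
    have hg2 : 2 ≤ g := by omega
    have dq : (g : ℤ) ∣ q := Int.gcd_dvd_right ..
    have dd : (g : ℤ) ∣ (Int.gcd p1 p2 : ℤ) := Int.gcd_dvd_left ..
    have d1 : (g : ℤ) ∣ p1 := dd.trans (Int.gcd_dvd_left ..)
    have d2 : (g : ℤ) ∣ p2 := dd.trans (Int.gcd_dvd_right ..)
    obtain ⟨p1', hp1⟩ := d1
    obtain ⟨p2', hp2⟩ := d2
    obtain ⟨q', hq'⟩ := dq
    have hgR : (2 : ℝ) ≤ g := by exact_mod_cast hg2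
    have hgR0 : (0 : ℝ) < g := by linarith
    have e1 : |(q : ℝ) * ξ₁ - p1| = g * |(q' : ℝ) * ξ₁ - p1'| := by
      rw [hp1, hq']; push_cast
      rw [← abs_of_pos hgR0, ← abs_mul, abs_of_pos hgR0]
      congr 1; ring
    have e2 : |(q : ℝ) * ξ₂ - p2| = g * |(q' : ℝ) * ξ₂ - p2'| := by
      rw [hp2, hq']; push_cast
      rw [← abs_of_pos hgR0, ← abs_mul, abs_of_pos hgR0]
      congr 1; ring
    have e3 : |(q : ℝ)| = g * |(q' : ℝ)| := by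
      rw [hq']; push_cast
      rw [abs_mul, abs_of_pos hgR0]
    have h0' : ¬ (p1' = 0 ∧ p2' = 0 ∧ q' = 0) := by
      rintro ⟨g1, g2, g3⟩
      apply h0
      rw [hp1, hp2, hq', g1, g2, g3]; simp
    have s1 : |(q' : ℝ) * ξ₁ - p1'| ≤ |(q : ℝ) * ξ₁ - p1| := by
      rw [e1]; nlinarith [abs_nonneg ((q' : ℝ) * ξ₁ - p1')]
    have s2 : |(q' : ℝ) * ξ₂ - p2'| ≤ |(q : ℝ) * ξ₂ - p2| := by
      rw [e2]; nlinarith [abs_nonneg ((q' : ℝ) * ξ₂ - p2')]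
    have hcF' := hadm1 p1' p2' q' h0' (by linarith) (by linarith)
    rw [e1, e2, e3, ← mul_max_of_nonneg _ _ hgR0.le] at h3
    set Fm : ℝ := |(q' : ℝ)| * (max |(q' : ℝ) * ξ₁ - p1'| |(q' : ℝ) * ξ₂ - p2'|) ^ 2 with hFm
    have h4 : (g : ℝ) ^ 3 * Fm < m * (1 + δ) := by
      refine lt_of_eq_of_lt ?_ h3
      rw [hFm]; ring
    have h5 : (8 : ℝ) ≤ (g : ℝ) ^ 3 := by
      have : (2 : ℝ) ^ 3 ≤ (g : ℝ) ^ 3 := pow_le_pow_left₀ (by norm_num) hgR 3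
      linarith
    have h6 : 0 ≤ Fm := by rw [hFm]; positivity
    have h7 : 8 * Fm < m * (1 + δ) := by nlinarith
    have h8 : m * (1 - δ) < Fm := lt_of_lt_of_le hc1m hcF'
    nlinarith
  have hFpos : 0 < |(q : ℝ)| * (max |(q : ℝ) * ξ₁ - p1| |(q : ℝ) * ξ₂ - p2|) ^ 2 := by linarith
  have hq : q ≠ 0 := by
    rintro rfl
    simp at hFpos
  have hM : 0 < max |(q : ℝ) * ξ₁ - p1| |(q : ℝ) * ξ₂ - p2| := by
    by_contra hno
    push Not at hno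
    have h4 : 0 ≤ max |(q : ℝ) * ξ₁ - p1| |(q : ℝ) * ξ₂ - p2| := le_max_of_le_left (abs_nonneg _)
    have h5 : max |(q : ℝ) * ξ₁ - p1| |(q : ℝ) * ξ₂ - p2| = 0 := le_antisymm hno h4
    rw [h5] at hFpos
    simp at hFpos
  have hratio : (1 - ε) * (1 + δ) ≤ 1 - δ := by nlinarith
  -- common part
  have hH : ∀ M : ℝ, M ≤ ρ → 0 ≤ M →
      (|(q : ℝ)| * M ^ 2 < m * (1 + δ)) →
      ∀ z1 z2 z3 : ℤ, ¬ (z1 = 0 ∧ z2 = 0 ∧ z3 = 0) →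
      |(z3 : ℝ) * ξ₁ - z1| ≤ R * M → |(z3 : ℝ) * ξ₂ - z2| ≤ R * M →
      c ≤ |(z3 : ℝ)| * (max |(z3 : ℝ) * ξ₁ - z1| |(z3 : ℝ) * ξ₂ - z2|) ^ 2 ∧
      (1 - ε) * (|(q : ℝ)| * M ^ 2) ≤
        |(z3 : ℝ)| * (max |(z3 : ℝ) * ξ₁ - z1| |(z3 : ℝ) * ξ₂ - z2|) ^ 2 := by
    intro M hM hM0 hF z1 z2 z3 hz g1 g2
    have hRM : R * M ≤ R * ρ := mul_le_mul_of_nonneg_left hM hR.le
    have k0 := hadm0 z1 z2 z3 hz (by linarith) (by linarith)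
    have k1 := hadm1 z1 z2 z3 hz (by linarith) (by linarith)
    refine ⟨k0, ?_⟩
    set Fz : ℝ := |(z3 : ℝ)| * (max |(z3 : ℝ) * ξ₁ - z1| |(z3 : ℝ) * ξ₂ - z2|) ^ 2 with hFz
    have hX : 0 ≤ |(q : ℝ)| * M ^ 2 := by positivity
    set X : ℝ := |(q : ℝ)| * M ^ 2 with hXd
    rcases le_total ε 1 with h | h
    · have t1 : (1 - ε) * X ≤ (1 - ε) * (m * (1 + δ)) :=
        mul_le_mul_of_nonneg_left hF.le (by linarith)
      have t2 : (1 - ε) * (m * (1 + δ)) ≤ m * (1 - δ) := by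
        have : (1 - ε) * (m * (1 + δ)) = m * ((1 - ε) * (1 + δ)) := by ring
        rw [this]
        exact mul_le_mul_of_nonneg_left hratio hm0.le
      linarith
    · have t1 : (1 - ε) * X ≤ 0 := mul_nonpos_of_nonpos_of_nonneg (by linarith) hX
      have t2 : 0 < m * (1 - δ) := by
        have : 0 < 1 - δ := by linarith
        positivity
      linarith
  rcases le_total |(q : ℝ) * ξ₂ - p2| |(q : ℝ) * ξ₁ - p1| with hle | hle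
  · rw [max_eq_left hle] at h3 hFpos hM hcF
    exact red_core ξ₁ ξ₂ c R ε p1 p2 q hprim hq (abs_pos.1 hM) hle hc (by linarith)
      (hH _ h1 (abs_nonneg _) h3)
  · rw [max_eq_right hle] at h3 hFpos hM hcF
    refine red_core ξ₂ ξ₁ c R ε p2 p1 q (by rw [Int.gcd_comm p2 p1]; exact hprim) hq
      (abs_pos.1 hM) hle hc (by linarith) ?_
    intro z1 z2 z3 hz g1 g2
    have := hH _ h2 (abs_nonneg _) h3 z2 z1 z3 (by tauto) g2 g1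
    rw [max_comm]
    exact this

end Run7.h349.DS
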