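import Pool.Agent.Run7.h349.DS.Pert
import Pool.Agent.Run7.h349.DS.Reduction
import Pool.Agent.Run7.h349.DS.Lower
import Pool.Agent.Run7.h349.DS.G1

/-!
# MP_be9f18_nt: piece A (assembly)
-/

set_option autoImplicit false

namespace Run7.h349.DS

open Run7.h774

theorem half_max (a b : ℝ) : (|a + b| + |a - b|) / 2 = max |a| |b| := by
  rcases le_total |a| |b| with h | h
  · rw [max_eq_right h]
    rcases abs_cases a with h1 | h1 <;> rcases abs_cases b with h2 | h2 <;>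
      rcases abs_cases (a + b) with h3 | h3 <;> rcases abs_cases (a - b) with h4 | h4 <;>
      rw [h1.1, h2.1] at h <;> rw [h2.1, h3.1, h4.1] <;> linarith
  · rw [max_eq_left h]
    rcases abs_cases a with h1 | h1 <;> rcases abs_cases b with h2 | h2 <;>
      rcases abs_cases (a + b) with h3 | h3 <;> rcases abs_cases (a - b) with h4 | h4 <;>
      rw [h1.1, h2.1] at h <;> rw [h1.1, h3.1, h4.1] <;> linarith

/-- bounds for a reduced basis -/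
theorem red_bounds (a x1 x2 x3 y1 y2 y3 : ℝ) (ha0 : 0 ≤ a) (ha1 : a ≤ 1) (hx0 : 0 ≤ x3)
    (hx1 : x3 ≤ 1 / 2) (hy3 : |y3| ≤ 1 / 2)
    (hN : (x1 - x3) ^ 2 + 2 * (x2 - a * x3) ^ 2 ≤ (y1 - y3) ^ 2 + 2 * (y2 - a * y3) ^ 2)
    (hB0 : 0 ≤ (x1 - x3) * (y1 - y3) + 2 * ((x2 - a * x3) * (y2 - a * y3)))
    (hB1 : 2 * ((x1 - x3) * (y1 - y3) + 2 * ((x2 - a * x3) * (y2 - a * y3)))
        ≤ (x1 - x3) ^ 2 + 2 * (x2 - a * x3) ^ 2)
    (hD : |(x1 - x3) * (y2 - a * y3) - (y1 - y3) * (x2 - a * x3)| < 7 / 2)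
    (hX : |x1| ≤ 4000 → |x2| ≤ 4000 → 1 - 1 / 1000000 ≤ |x3| * (max |x1| |x2|) ^ 2) :
    |x1| ≤ 8 ∧ |x2| ≤ 8 ∧ |y1| ≤ 8 ∧ |y2| ≤ 8 := by
  set u : ℝ := x1 - x3 with hu
  set v : ℝ := x2 - a * x3 with hv
  set p : ℝ := y1 - y3 with hp
  set r : ℝ := y2 - a * y3 with hr
  have hax0 : 0 ≤ a * x3 := mul_nonneg ha0 hx0
  have hax1 : a * x3 ≤ 1 / 2 := by nlinarith
  have hay : |a * y3| ≤ 1 / 2 := by
    rw [abs_mul, abs_of_nonneg ha0]
    nlinarith [abs_nonneg y3]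
  -- lower bound
  have hlow : 8 / 10 ≤ u ^ 2 + 2 * v ^ 2 := by
    by_contra hno
    push Not at hno
    have h1 : |u| ≤ 9 / 10 := by
      apply abs_le_of_sq_le_sq _ (by norm_num)
      nlinarith [sq_nonneg v]
    have h2 : |v| ≤ 7 / 10 := by
      apply abs_le_of_sq_le_sq _ (by norm_num)
      nlinarith [sq_nonneg u]
    have h3 : |x1| ≤ 14 / 10 := by
      have : x1 = u + x3 := by rw [hu]; ring
      rw [this]
      rw [abs_le] at h1 ⊢
      constructor <;> linarith [h1.1, h1.2]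
    have h4 : |x2| ≤ 14 / 10 := by
      have : x2 = v + a * x3 := by rw [hv]; ring
      rw [this]
      rw [abs_le] at h2 ⊢
      constructor <;> linarith [h2.1, h2.2]
    have h5 := hX (by linarith) (by linarith)
    have h6 : max |x1| |x2| ≤ 14 / 10 := max_le h3 h4
    have h7 : 0 ≤ max |x1| |x2| := le_max_of_le_left (abs_nonneg _)
    have h8 : (max |x1| |x2|) ^ 2 ≤ (14 / 10) ^ 2 := pow_le_pow_left₀ h7 h6 2
    have h9 : |x3| ≤ 1 / 2 := by rw [abs_of_nonneg hx0]; exact hx1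
    have h10 : |x3| * (max |x1| |x2|) ^ 2 ≤ 1 / 2 * (14 / 10) ^ 2 :=
      mul_le_mul h9 h8 (by positivity) (by norm_num)
    norm_num at h10
    linarith
  -- Gram
  set NX : ℝ := u ^ 2 + 2 * v ^ 2 with hNX
  set NY : ℝ := p ^ 2 + 2 * r ^ 2 with hNY
  set B : ℝ := u * p + 2 * (v * r) with hB
  set D : ℝ := u * r - p * v with hDd
  have gram : NX * NY = B ^ 2 + 2 * D ^ 2 := by
    rw [hNX, hNY, hB, hDd]; ring
  have hD2 : D ^ 2 ≤ 49 / 4 := by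
    have := pow_le_pow_left₀ (abs_nonneg D) hD.le 2
    rw [sq_abs] at this
    norm_num at this
    exact this
  have hBB : B ^ 2 ≤ NX * NY / 4 := by
    have h1 : B * B ≤ (NX / 2) * (NX / 2) :=
      mul_le_mul (by linarith) (by linarith) hB0 (by linarith)
    have h2 : NX * NX ≤ NX * NY := mul_le_mul_of_nonneg_left hN (by linarith)
    nlinarith
  have hNYu : NY ≤ 41 := by
    have h1 : 8 / 10 * NY ≤ NX * NY := mul_le_mul_of_nonneg_right hlow (by linarith)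
    nlinarith
  have q1 : |p| ≤ 13 / 2 := by
    apply abs_le_of_sq_le_sq _ (by norm_num)
    nlinarith [sq_nonneg r]
  have q2 : |r| ≤ 13 / 2 := by
    apply abs_le_of_sq_le_sq _ (by norm_num)
    nlinarith [sq_nonneg p]
  have q3 : |u| ≤ 13 / 2 := by
    apply abs_le_of_sq_le_sq _ (by norm_num)
    nlinarith [sq_nonneg v]
  have q4 : |v| ≤ 13 / 2 := by
    apply abs_le_of_sq_le_sq _ (by norm_num)
    nlinarith [sq_nonneg u]
  rw [abs_le] at q1 q2 q3 q4 hay hy3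
  refine ⟨?_, ?_, ?_, ?_⟩
  · rw [abs_le]; constructor <;> linarith [q3.1, q3.2]
  · rw [abs_le]; constructor <;> linarith [q4.1, q4.2]
  · rw [abs_le]; constructor <;> linarith [q1.1, q1.2, hy3.1, hy3.2]
  · rw [abs_le]; constructor <;> linarith [q2.1, q2.2, hay.1, hay.2]

/-- from the conclusion of `B1` to the walk -/
theorem concl_false (hA : AnnulusStmt) (z : B1.Z) (ha0 : 0 ≤ z.a) (ha1 : z.a ≤ 1) (hC : B1.Concl z)
    (κ : ℝ) (hκ : 1 < κ)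
    (hlow : ∀ n i j : ℤ, ¬ (n = 0 ∧ i = 0 ∧ j = 0) →
        |n + i * z.x1 + j * z.y1| ≤ 4000 → |n * z.a + i * z.x2 + j * z.y2| ≤ 4000 →
        κ * (2 / 7 * |(z.x1 - z.x3) * (z.y2 - z.a * z.y3) - (z.y1 - z.y3) * (z.x2 - z.a * z.x3)|) ≤
          |n + i * z.x3 + j * z.y3| *
          (max |n + i * z.x1 + j * z.y1| |n * z.a + i * z.x2 + j * z.y2|) ^ 2) : False := by
  obtain ⟨a, x1, x2, x3, y1, y2, y3⟩ := z
  simp only at ha0 ha1 hlow
  obtain ⟨δ, hδ, u1, a1, b1, u2, a2, b2, hab, hT⟩ := hC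
  simp only at hT
  have hδa : |δ| = 1 := by rcases hδ with h | h <;> rw [h] <;> norm_num
  have hδ2 : δ ^ 2 = 1 := by rcases hδ with h | h <;> rw [h] <;> norm_num
  -- the three rows
  obtain ⟨m11, m12, m13, p0, p1, p2⟩ := vsolve (1 + δ * a)
    ((1 + δ * a) * u1 + (x1 + δ * x2) * a1 + (y1 + δ * y2) * b1)
    ((1 + δ * a) * u2 + (x1 + δ * x2) * a2 + (y1 + δ * y2) * b2)
  obtain ⟨m21, m22, m23, q0, q1, q2⟩ := vsolve (1 - δ * a)
    ((1 - δ * a) * u1 + (x1 - δ * x2) * a1 + (y1 - δ * y2) * b1)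
    ((1 - δ * a) * u2 + (x1 - δ * x2) * a2 + (y1 - δ * y2) * b2)
  obtain ⟨m31, m32, m33, r0, r1, r2⟩ := vsolve 1
    (1 * u1 + x3 * a1 + y3 * b1) (1 * u2 + x3 * a2 + y3 * b2)
  obtain ⟨P1, P2, P3⟩ := wr_close _ _ _ _ _ _ p0 p1 p2
  obtain ⟨Q1, Q2, Q3⟩ := wr_close _ _ _ _ _ _ q0 q1 q2
  obtain ⟨R1, R2, R3⟩ := wr_close _ _ _ _ _ _ r0 r1 r2
  have E1 : ∀ A X Y : ℝ, (A * ((B1.W00 + u1 * B1.W10 + u2 * B1.W20 : ℤ) : ℝ) +
      X * ((a1 * B1.W10 + a2 * B1.W20 : ℤ) : ℝ) + Y * ((b1 * B1.W10 + b2 * B1.W20 : ℤ) : ℝ)) / 16384 =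
      wr1 A (A * u1 + X * a1 + Y * b1) (A * u2 + X * a2 + Y * b2) := by
    intro A X Y
    unfold wr1 B1.W00 B1.W10 B1.W20
    push_cast
    ring
  have E2 : ∀ A X Y : ℝ, (A * ((B1.W01 + u1 * B1.W11 + u2 * B1.W21 : ℤ) : ℝ) +
      X * ((a1 * B1.W11 + a2 * B1.W21 : ℤ) : ℝ) + Y * ((b1 * B1.W11 + b2 * B1.W21 : ℤ) : ℝ)) / 16384 =
      wr2 A (A * u1 + X * a1 + Y * b1) (A * u2 + X * a2 + Y * b2) := by
    intro A X Y
    unfold wr2 B1.W01 B1.W11 B1.W21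
    push_cast
    ring
  have E3 : ∀ A X Y : ℝ, (A * ((B1.W02 + u1 * B1.W12 + u2 * B1.W22 : ℤ) : ℝ) +
      X * ((a1 * B1.W12 + a2 * B1.W22 : ℤ) : ℝ) + Y * ((b1 * B1.W12 + b2 * B1.W22 : ℤ) : ℝ)) / 16384 =
      wr3 A (A * u1 + X * a1 + Y * b1) (A * u2 + X * a2 + Y * b2) := by
    intro A X Y
    unfold wr3 B1.W02 B1.W12 B1.W22
    push_cast
    ring
  rw [E1, E1, E1, E2, E2, E2, E3, E3, E3] at hT
  have hTW : TW m11 m12 m13 m21 m22 m23 m31 m32 m33 :=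
    tube_pert hT P1 P2 P3 Q1 Q2 Q3 R1 R2 R3
  -- the determinant
  have hdpos := tube_det_pos hTW
  have hdet : det9 m11 m12 m13 m21 m22 m23 m31 m32 m33 =
      2 / 7 * |(x1 - x3) * (y2 - a * y3) - (y1 - y3) * (x2 - a * x3)| := by
    set D : ℝ := (x1 - x3) * (y2 - a * y3) - (y1 - y3) * (x2 - a * x3) with hD
    have hV := vander
    have h1 : det9 m11 m12 m13 m21 m22 m23 m31 m32 m33 *
        ((t1 - t2) * (t1 - t3) * (t2 - t3)) =
        2 * δ * D * ((a1 * b2 - a2 * b1 : ℤ) : ℝ) := by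
      have h2 : det9 m11 m12 m13 m21 m22 m23 m31 m32 m33 *
        ((t1 - t2) * (t1 - t3) * (t2 - t3)) =
        - det9 (m11 + m12 + m13) (m11 * t1 + m12 * t2 + m13 * t3)
            (m11 * t1 ^ 2 + m12 * t2 ^ 2 + m13 * t3 ^ 2)
          (m21 + m22 + m23) (m21 * t1 + m22 * t2 + m23 * t3)
            (m21 * t1 ^ 2 + m22 * t2 ^ 2 + m23 * t3 ^ 2)
          (m31 + m32 + m33) (m31 * t1 + m32 * t2 + m33 * t3)
            (m31 * t1 ^ 2 + m32 * t2 ^ 2 + m33 * t3 ^ 2) := by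
        unfold det9
        ring
      rw [h2, p0, p1, p2, q0, q1, q2, r0, r1, r2, hD]
      unfold det9
      push_cast
      ring
    rw [hV] at h1
    have h3 : |det9 m11 m12 m13 m21 m22 m23 m31 m32 m33 * 7| = 2 * |D| := by
      rw [h1, abs_mul, abs_mul, abs_mul, hδa]
      have : |((a1 * b2 - a2 * b1 : ℤ) : ℝ)| = 1 := by
        rcases hab with h | h
        · rw [h]; norm_num
        · rw [h]; norm_num
      rw [this]
      norm_num
    rw [abs_of_pos (by linarith)] at h3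
    linarith
  -- size
  have hsum : m11 + m22 ≤ 4 := by
    have g1 := hTW.h21
    have g2 := hTW.h12
    have g3 := hTW.e1
    have g4 := hTW.e2
    rw [abs_le] at g1 g2 g3 g4
    have : m11 + m22 = 2 - (m12 + m13 + m21 + m23) := by linarith
    linarith [g1.1, g2.1, g3.1, g4.1]
  refine walk hA m11 m12 m13 m21 m22 m23 m31 m32 m33 κ hTW hκ ?_
  intro n hn hR
  set N : ℤ := n.1 + n.2.1 * u1 + n.2.2 * u2 with hNd
  set I : ℤ := n.2.1 * a1 + n.2.2 * a2 with hId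
  set J : ℤ := n.2.1 * b1 + n.2.2 * b2 with hJd
  set w1 : ℝ := N + I * x1 + J * y1 with hw1
  set w2 : ℝ := N * a + I * x2 + J * y2 with hw2
  set w3 : ℝ := N + I * x3 + J * y3 with hw3
  have lin : ∀ m1 m2 m3 : ℝ, m1 * e1 n + m2 * e2 n + m3 * e3 n =
      n.1 * (m1 + m2 + m3) + n.2.1 * (m1 * t1 + m2 * t2 + m3 * t3) +
        n.2.2 * (m1 * t1 ^ 2 + m2 * t2 ^ 2 + m3 * t3 ^ 2) := by
    intro m1 m2 m3
    unfold e1 e2 e3
    ring
  have Y1 : m11 * e1 n + m12 * e2 n + m13 * e3 n = w1 + δ * w2 := by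
    rw [lin, p0, p1, p2, hw1, hw2, hNd, hId, hJd]
    push_cast
    ring
  have Y2 : m21 * e1 n + m22 * e2 n + m23 * e3 n = w1 - δ * w2 := by
    rw [lin, q0, q1, q2, hw1, hw2, hNd, hId, hJd]
    push_cast
    ring
  have Y3 : m31 * e1 n + m32 * e2 n + m33 * e3 n = w3 := by
    rw [lin, r0, r1, r2, hw3, hNd, hId, hJd]
    push_cast
    ring
  rw [Y1, Y2] at hR
  rw [Y1, Y2, Y3, hdet]
  rw [half_max, abs_mul, hδa, one_mul] at hR
  unfold Gy
  rw [half_max, abs_mul, hδa, one_mul]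
  have hne : ¬ (N = 0 ∧ I = 0 ∧ J = 0) := by
    rintro ⟨k1, k2, k3⟩
    apply hn
    have hd1 : a1 * b2 - a2 * b1 ≠ 0 := by
      rcases hab with h | h <;> rw [h] <;> norm_num
    have c1 : n.2.1 * (a1 * b2 - a2 * b1) = 0 := by
      have : n.2.1 * (a1 * b2 - a2 * b1) = I * b2 - J * a2 := by rw [hId, hJd]; ring
      rw [this, k2, k3]; ring
    have c2 : n.2.2 * (a1 * b2 - a2 * b1) = 0 := by
      have : n.2.2 * (a1 * b2 - a2 * b1) = J * a1 - I * b1 := by rw [hId, hJd]; ring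
      rw [this, k2, k3]; ring
    have d1 := (mul_eq_zero.1 c1).resolve_right hd1
    have d2 := (mul_eq_zero.1 c2).resolve_right hd1
    rw [hNd, d1, d2] at k1
    exact ⟨by simpa using k1, d1, d2⟩
  have hb1 : |w1| ≤ 4000 := by
    have := (le_max_left |w1| |w2|).trans hR
    linarith
  have hb2 : |w2| ≤ 4000 := by
    have := (le_max_right |w1| |w2|).trans hR
    linarith
  exact hlow N I J hne hb1 hb2

/-- the upper bound from the two computations -/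
theorem upper (hB1 : B1Stmt) (hA : AnnulusStmt) (ξ₁ ξ₂ c : ℝ)
    (hirr : Irrational ξ₁ ∨ Irrational ξ₂) (hc : 2 / 7 < c) : ¬ Adm ξ₁ ξ₂ c := by
  intro hadm
  obtain ⟨a, x1, x2, x3, y1, y2, y3, ha0, ha1, hx0, hx1, hy3, hN, hIP0, hIP1, hD, -, hF, κ, hκ, hK⟩ :=
    reduction ξ₁ ξ₂ c 4000 (1 / 1000000) hirr hc hadm (by norm_num) (by norm_num)
  have hX : |x1| ≤ 4000 → |x2| ≤ 4000 → 1 - 1 / 1000000 ≤ |x3| * (max |x1| |x2|) ^ 2 := by
    intro h1 h2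
    have := hF 0 1 0 (by norm_num) (by simpa using h1) (by simpa using h2)
    simpa using this
  obtain ⟨b1, b2, b3, b4⟩ := red_bounds a x1 x2 x3 y1 y2 y3 ha0 ha1 hx0 hx1 hy3 hN hIP0 hIP1 hD hX
  set z : B1.Z := ⟨a, x1, x2, x3, y1, y2, y3⟩ with hz
  have hHyp : B1.Hyp z := by
    refine ⟨?_, ha0, hN, hIP0, hIP1, hD.le⟩
    intro n i j h0 hn hi hj
    have hn' : |(n : ℝ)| ≤ 32 := by exact_mod_cast hn
    have hi' : |(i : ℝ)| ≤ 16 := by exact_mod_cast hi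
    have hj' : |(j : ℝ)| ≤ 16 := by exact_mod_cast hj
    have bd : ∀ s x y : ℝ, |s| ≤ 1 → |x| ≤ 8 → |y| ≤ 8 → |n * s + i * x + j * y| ≤ 4000 := by
      intro s x y hs hx hy
      refine (abs_add_le _ _).trans ?_
      refine (add_le_add_left (abs_add_le _ _) _).trans ?_
      rw [abs_mul, abs_mul, abs_mul]
      have e1 := mul_le_mul hn' hs (abs_nonneg _) (by norm_num)
      have e2 := mul_le_mul hi' hx (abs_nonneg _) (by norm_num)
      have e3 := mul_le_mul hj' hy (abs_nonneg _) (by norm_num)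
      linarith
    have g1 : |(n : ℝ) + i * x1 + j * y1| ≤ 4000 := by
      have := bd 1 x1 y1 (by norm_num) b1 b3
      rwa [mul_one] at this
    have g2 : |(n : ℝ) * a + i * x2 + j * y2| ≤ 4000 :=
      bd a x2 y2 (by rw [abs_of_nonneg ha0]; exact ha1) b2 b4
    exact hF n i j h0 g1 g2
  have hC := hB1 z hHyp ha1 hx0 hx1 hy3
  exact concl_false hA z ha0 ha1 hC κ hκ hK

/-- the frozen statement from the two computations -/
theorem assembled (hB1 : B1Stmt) (hA : AnnulusStmt) :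
    sSup {γ : ℝ | ∃ ξ₁ ξ₂ : ℝ, (Irrational ξ₁ ∨ Irrational ξ₂) ∧
      γ = sInf {c : ℝ | 0 < c ∧ c ≤ 1 ∧
        {x : ℤ × ℤ × ℤ | 0 < x.2.2 ∧
          (x.2.2 : ℝ) * |(x.2.2 : ℝ) * ξ₁ - (x.1 : ℝ)| ^ 2 < c ∧
          (x.2.2 : ℝ) * |(x.2.2 : ℝ) * ξ₂ - (x.2.1 : ℝ)| ^ 2 < c}.Infinite}} = 2 / 7 :=
  glue (fun ξ₁ ξ₂ c h1 h2 => upper hB1 hA ξ₁ ξ₂ c h1 h2) lower

end Run7.h349.DS
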