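import Pool.Agent.Run7.h774.Basic

/-!
# MP_be9f18_nt: piece D (Dirichlet)
-/

set_option autoImplicit false

namespace Run7.h349.DS

open Finset

theorem fract_close {N : ℕ} (hN : 0 < N) {x y : ℝ}
    (h : ⌊(N : ℝ) * Int.fract x⌋₊ = ⌊(N : ℝ) * Int.fract y⌋₊) :
    |Int.fract x - Int.fract y| ≤ 1 / N := by
  have hN0 : (0 : ℝ) < N := by exact_mod_cast hN
  have hx := Int.fract_nonneg x
  have hy := Int.fract_nonneg y
  have a1 := Nat.floor_le (mul_nonneg hN0.le hx)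
  have a2 := Nat.lt_floor_add_one ((N : ℝ) * Int.fract x)
  have b1 := Nat.floor_le (mul_nonneg hN0.le hy)
  have b2 := Nat.lt_floor_add_one ((N : ℝ) * Int.fract y)
  rw [h] at a1 a2
  have key : |(Int.fract x - Int.fract y) * N| ≤ 1 := by
    rw [abs_le]
    constructor <;> nlinarith
  rw [abs_mul, abs_of_pos hN0] at key
  rw [le_div_iff₀ hN0]
  exact key

/-- PIECE D -/
theorem dirichlet (ξ₁ ξ₂ ρ : ℝ) (hρ : 0 < ρ) :
    ∃ p₁ p₂ q : ℤ, ¬ (p₁ = 0 ∧ p₂ = 0 ∧ q = 0) ∧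
      |(q : ℝ) * ξ₁ - p₁| ≤ ρ ∧ |(q : ℝ) * ξ₂ - p₂| ≤ ρ ∧
      |(q : ℝ)| * (max |(q : ℝ) * ξ₁ - p₁| |(q : ℝ) * ξ₂ - p₂|) ^ 2 ≤ 1 := by
  obtain ⟨N, hN⟩ := exists_nat_gt (1 / ρ)
  have hN0 : (0 : ℝ) < N := lt_trans (by positivity) hN
  have hNn : 0 < N := by exact_mod_cast hN0
  have hNρ : 1 / (N : ℝ) ≤ ρ := by
    rw [div_le_iff₀ hN0]
    rw [div_lt_iff₀ hρ] at hN
    linarith
  set f : ℕ → ℕ × ℕ := fun q =>
    (⌊(N : ℝ) * Int.fract ((q : ℝ) * ξ₁)⌋₊, ⌊(N : ℝ) * Int.fract ((q : ℝ) * ξ₂)⌋₊) with hf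
  have hm : ∀ q ∈ range (N ^ 2 + 1), f q ∈ range N ×ˢ range N := by
    intro q _
    have key : ∀ x : ℝ, ⌊(N : ℝ) * Int.fract x⌋₊ < N := by
      intro x
      rw [Nat.floor_lt (mul_nonneg hN0.le (Int.fract_nonneg x))]
      have := Int.fract_lt_one x
      nlinarith
    rw [mem_product, mem_range, mem_range]
    exact ⟨key _, key _⟩
  obtain ⟨a, ha, b, hb, hab, hfab⟩ := exists_ne_map_eq_of_card_lt_of_maps_to (s := range (N ^ 2 + 1))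
    (t := range N ×ˢ range N) (by
      rw [card_product, card_range, card_range]
      have : N * N = N ^ 2 := by ring
      omega) (f := f) (fun q hq => hm q hq)
  rw [hf] at hfab
  simp only [Prod.mk.injEq] at hfab
  have h1 := fract_close hNn hfab.1
  have h2 := fract_close hNn hfab.2
  refine ⟨⌊(a : ℝ) * ξ₁⌋ - ⌊(b : ℝ) * ξ₁⌋, ⌊(a : ℝ) * ξ₂⌋ - ⌊(b : ℝ) * ξ₂⌋, (a : ℤ) - b, ?_, ?_⟩
  · rintro ⟨_, _, h⟩
    apply hab
    have : (a : ℤ) = b := by omega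
    exact_mod_cast this
  · have e1 : (((a : ℤ) - b : ℤ) : ℝ) * ξ₁ - ((⌊(a : ℝ) * ξ₁⌋ - ⌊(b : ℝ) * ξ₁⌋ : ℤ) : ℝ) =
        Int.fract ((a : ℝ) * ξ₁) - Int.fract ((b : ℝ) * ξ₁) := by
      unfold Int.fract
      push_cast
      ring
    have e2 : (((a : ℤ) - b : ℤ) : ℝ) * ξ₂ - ((⌊(a : ℝ) * ξ₂⌋ - ⌊(b : ℝ) * ξ₂⌋ : ℤ) : ℝ) =
        Int.fract ((a : ℝ) * ξ₂) - Int.fract ((b : ℝ) * ξ₂) := by
      unfold Int.fract
      push_cast
      ring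
    rw [e1, e2]
    refine ⟨h1.trans hNρ, h2.trans hNρ, ?_⟩
    have h3 : max |Int.fract ((a : ℝ) * ξ₁) - Int.fract ((b : ℝ) * ξ₁)|
        |Int.fract ((a : ℝ) * ξ₂) - Int.fract ((b : ℝ) * ξ₂)| ≤ 1 / N := max_le h1 h2
    have h4 : 0 ≤ max |Int.fract ((a : ℝ) * ξ₁) - Int.fract ((b : ℝ) * ξ₁)|
        |Int.fract ((a : ℝ) * ξ₂) - Int.fract ((b : ℝ) * ξ₂)| := le_max_of_le_left (abs_nonneg _)
    have h5 : |(((a : ℤ) - b : ℤ) : ℝ)| ≤ (N : ℝ) ^ 2 := by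
      rw [mem_range] at ha hb
      have a1 : (a : ℝ) ≤ (N : ℝ) ^ 2 := by
        have : a ≤ N ^ 2 := by omega
        exact_mod_cast this
      have b1 : (b : ℝ) ≤ (N : ℝ) ^ 2 := by
        have : b ≤ N ^ 2 := by omega
        exact_mod_cast this
      have a0 : (0 : ℝ) ≤ a := Nat.cast_nonneg _
      have b0 : (0 : ℝ) ≤ b := Nat.cast_nonneg _
      push_cast
      rw [abs_le]
      constructor <;> linarith
    calc _ ≤ (N : ℝ) ^ 2 * (1 / N) ^ 2 :=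
          mul_le_mul h5 (pow_le_pow_left₀ h4 h3 2) (pow_nonneg h4 2) (by positivity)
      _ = 1 := by field_simp

end Run7.h349.DS
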