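import Pool.Agent.Run7.h349.DS.Units

/-!
# MP_be9f18_nt: piece V (last step of the upper bound)
-/

set_option autoImplicit false

namespace Run7.h349.DS

open Run7.h774

/-- a binary quadratic form bounded by 1 on the square has discriminant at most 4 -/
theorem disc_le {α β γ : ℝ}
    (h : ∀ z1 z2 : ℝ, |z1| ≤ 1 → |z2| ≤ 1 → |α * z1 ^ 2 + β * z1 * z2 + γ * z2 ^ 2| ≤ 1) :
    β ^ 2 - 4 * α * γ ≤ 4 := by
  have c1 := h 1 1 (by norm_num) (by norm_num)
  have c2 := h 1 (-1) (by norm_num) (by norm_num)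
  have c3 := h 1 0 (by norm_num) (by norm_num)
  have c4 := h 0 1 (by norm_num) (by norm_num)
  norm_num at c1 c2 c3 c4
  rw [abs_le] at c1 c2 c3 c4
  rcases le_or_gt 0 (α * γ) with hs | hs
  · have hb : β ^ 2 ≤ 1 := by
      have h1 : |β| ≤ 1 := by rw [abs_le]; constructor <;> linarith [c1.1, c1.2, c2.1, c2.2]
      rw [← sq_abs]
      nlinarith [abs_nonneg β]
    nlinarith
  · -- opposite signs; wlog by symmetry treat both cases
    have key : ∀ (p q : ℝ), 0 < p → q < 0 →
        (∀ z : ℝ, |z| ≤ 1 → p + β * z + q * z ^ 2 ≤ 1) →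
        (∀ z : ℝ, |z| ≤ 1 → -(p * z ^ 2 + β * z + q) ≤ 1) →
        |β| ≤ 1 → β ^ 2 - 4 * p * q ≤ 4 := by
      intro p q hp hq h1 h2 hb
      by_cases hz : |β / (-2 * q)| ≤ 1
      · have h3 := h1 _ hz
        have h4 : p + β * (β / (-2 * q)) + q * (β / (-2 * q)) ^ 2 = p - β ^ 2 / (4 * q) := by
          have : q ≠ 0 := hq.ne
          field_simp
          ring
        rw [h4] at h3
        have h5 : β ^ 2 / (4 * q) ≥ p - 1 := by linarith
        have h6 : β ^ 2 ≤ (p - 1) * (4 * q) := by
          have h7 : 4 * q < 0 := by linarith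
          have h8 := (div_le_iff_of_neg h7).1 (le_refl (β ^ 2 / (4 * q)))
          have h9 : β ^ 2 = β ^ 2 / (4 * q) * (4 * q) := by
            have : (4 * q) ≠ 0 := h7.ne
            exact (div_mul_cancel₀ _ this).symm
          rw [h9]
          nlinarith
        have h10 := h1 1 (by norm_num)
        have h11 := h1 (-1) (by norm_num)
        have h12 := h2 0 (by norm_num)
        norm_num at h12
        nlinarith
      · by_cases hz2 : |β / (-2 * p)| ≤ 1
        · have h3 := h2 _ hz2
          have h4 : -(p * (β / (-2 * p)) ^ 2 + β * (β / (-2 * p)) + q) =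
              β ^ 2 / (4 * p) - q := by
            have : p ≠ 0 := hp.ne'
            field_simp
            ring
          rw [h4] at h3
          have h5 : β ^ 2 ≤ (1 + q) * (4 * p) := by
            rw [← div_le_iff₀ (by positivity)]
            linarith
          have h6 := h1 0 (by norm_num)
          norm_num at h6
          nlinarith
        · push Not at hz hz2
          rw [abs_div, lt_div_iff₀ (abs_pos.2 (by linarith)), one_mul] at hz hz2
          rw [abs_mul, abs_of_neg hq] at hz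
          rw [abs_mul, abs_of_pos hp] at hz2
          norm_num at hz hz2
          have h5 : β ^ 2 ≤ 1 := by
            rw [← sq_abs]
            nlinarith [abs_nonneg β]
          nlinarith
    have hb : |β| ≤ 1 := by rw [abs_le]; constructor <;> linarith [c1.1, c1.2, c2.1, c2.2]
    rcases lt_trichotomy α 0 with ha | ha | ha
    · have hg : 0 < γ := by
        by_contra hno
        push Not at hno
        nlinarith
      have := key γ α hg ha
        (fun z hz => by
          have := (abs_le.1 (h z 1 hz (by norm_num))).2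
          linarith)
        (fun z hz => by
          have := (abs_le.1 (h 1 z (by norm_num) hz)).1
          linarith) hb
      linarith
    · rw [ha] at hs; simp at hs
    · have hg : γ < 0 := by
        by_contra hno
        push Not at hno
        nlinarith
      exact key α γ ha hg
        (fun z hz => by
          have := (abs_le.1 (h 1 z (by norm_num) hz)).2
          linarith)
        (fun z hz => by
          have := (abs_le.1 (h z 1 hz (by norm_num))).1
          linarith) hb

/-- the maximum of `|a + b|, |a - b|` halves -/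
theorem half_sum (x1 x2 : ℝ) (h1 : |x1| ≤ 1) (h2 : |x2| ≤ 1) :
    (|x1 + x2| + |x1 - x2|) / 2 ≤ 1 := by
  rw [abs_le] at h1 h2
  rcases abs_cases (x1 + x2) with h3 | h3 <;> rcases abs_cases (x1 - x2) with h4 | h4 <;>
    rw [h3.1, h4.1] <;> linarith

theorem exists_dir (m11 m12 m21 m22 κ : ℝ) (hdet : 0 < m11 * m22 - m12 * m21) (hκ : 1 < κ) :
    ∃ u1 u2 : ℝ, ((|m11 * u1 + m12 * u2| + |m21 * u1 + m22 * u2|) / 2) ^ 2 <
      κ * (m11 * m22 - m12 * m21) * |u1 * u2| := by
  by_contra hno
  push Not at hno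
  set d := m11 * m22 - m12 * m21 with hd
  have h4 : (κ / d * ((m22 + m12) * (m11 - m21) - (m22 - m12) * (m11 + m21))) ^ 2 -
      4 * (κ / d * ((m22 - m12) * (m11 - m21))) * (-(κ / d * ((m22 + m12) * (m11 + m21)))) ≤ 4 := by
    apply disc_le
    intro z1 z2 hz1 hz2
    have h5 := hno (((m22 - m12) * z1 + (m22 + m12) * z2) / d)
      (((m11 - m21) * z1 - (m11 + m21) * z2) / d)
    have e1 : m11 * (((m22 - m12) * z1 + (m22 + m12) * z2) / d) +
        m12 * (((m11 - m21) * z1 - (m11 + m21) * z2) / d) = z1 + z2 := by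
      field_simp
      rw [hd]; ring
    have e2 : m21 * (((m22 - m12) * z1 + (m22 + m12) * z2) / d) +
        m22 * (((m11 - m21) * z1 - (m11 + m21) * z2) / d) = z1 - z2 := by
      field_simp
      rw [hd]; ring
    rw [e1, e2] at h5
    have h6 : ((|z1 + z2| + |z1 - z2|) / 2) ^ 2 ≤ 1 := by
      have := half_sum z1 z2 hz1 hz2
      have h7 : 0 ≤ (|z1 + z2| + |z1 - z2|) / 2 := by positivity
      nlinarith
    have h8 : κ / d * ((m22 - m12) * (m11 - m21)) * z1 ^ 2 +
        κ / d * ((m22 + m12) * (m11 - m21) - (m22 - m12) * (m11 + m21)) * z1 * z2 +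
        -(κ / d * ((m22 + m12) * (m11 + m21))) * z2 ^ 2 =
        κ * d * ((((m22 - m12) * z1 + (m22 + m12) * z2) / d) *
          (((m11 - m21) * z1 - (m11 + m21) * z2) / d)) := by
      field_simp
      ring
    rw [h8, abs_mul, abs_of_pos (by positivity : 0 < κ * d)]
    linarith
  have h5 : (κ / d * ((m22 + m12) * (m11 - m21) - (m22 - m12) * (m11 + m21))) ^ 2 -
      4 * (κ / d * ((m22 - m12) * (m11 - m21))) * (-(κ / d * ((m22 + m12) * (m11 + m21)))) =
      4 * κ ^ 2 := by
    have : (κ / d) ^ 2 * (2 * d) ^ 2 = 4 * κ ^ 2 := by field_simp; ring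
    rw [← this, hd]
    ring
  rw [h5] at h4
  nlinarith

/-- PIECE V -/
theorem final_density (m11 m12 m21 m22 m31 m32 m33 κ R : ℝ)
    (hdet : 0 < m11 * m22 - m12 * m21) (h33 : 0 < m33) (hκ : 1 < κ) (hR : 0 < R) :
    ∃ n : ℤ × ℤ × ℤ, ¬ (n.1 = 0 ∧ n.2.1 = 0 ∧ n.2.2 = 0) ∧
      (|m11 * e1 n + m12 * e2 n| + |m21 * e1 n + m22 * e2 n|) / 2 ≤ R ∧
      |m31 * e1 n + m32 * e2 n + m33 * e3 n| *
        ((|m11 * e1 n + m12 * e2 n| + |m21 * e1 n + m22 * e2 n|) / 2) ^ 2
        < κ * (m33 * (m11 * m22 - m12 * m21)) := by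
  set d := m11 * m22 - m12 * m21 with hd
  set κ' : ℝ := (1 + κ) / 2 with hκ'
  have hκ1 : 1 < κ' := by rw [hκ']; linarith
  have hκ2 : κ' < κ := by rw [hκ']; linarith
  obtain ⟨u1, u2, hu⟩ := exists_dir m11 m12 m21 m22 κ' hdet hκ1
  rw [← hd] at hu
  have hprod : 0 < |u1 * u2| := by
    by_contra hno
    push Not at hno
    have h0 : |u1 * u2| = 0 := le_antisymm hno (abs_nonneg _)
    rw [h0, mul_zero] at hu
    have := sq_nonneg ((|m11 * u1 + m12 * u2| + |m21 * u1 + m22 * u2|) / 2)
    linarith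
  have hne : u1 * u2 ≠ 0 := abs_pos.1 hprod
  have hu1 : u1 ≠ 0 := left_ne_zero_of_mul hne
  have hu2 : u2 ≠ 0 := right_ne_zero_of_mul hne
  set r : ℝ := u1 / u2 with hr
  have hr0 : r ≠ 0 := div_ne_zero hu1 hu2
  -- the function of the ratio
  set g : ℝ → ℝ := fun x => ((|m11 * x + m12| + |m21 * x + m22|) / 2) ^ 2 - κ' * d * |x| with hg
  have hcont : Continuous g := by
    rw [hg]; fun_prop
  have hscale : ∀ x y : ℝ, y ≠ 0 →
      ((|m11 * x + m12 * y| + |m21 * x + m22 * y|) / 2) ^ 2 =
        y ^ 2 * ((|m11 * (x / y) + m12| + |m21 * (x / y) + m22|) / 2) ^ 2 := by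
    intro x y hy
    have e1 : m11 * x + m12 * y = y * (m11 * (x / y) + m12) := by field_simp
    have e2 : m21 * x + m22 * y = y * (m21 * (x / y) + m22) := by field_simp
    rw [e1, e2, abs_mul, abs_mul, ← mul_add, mul_div_assoc, mul_pow, sq_abs]
  have hgr : g r < 0 := by
    rw [hg]
    simp only
    rw [hscale u1 u2 hu2, ← hr] at hu
    have h1 : |u1 * u2| = u2 ^ 2 * |r| := by
      rw [hr, abs_mul, abs_div, ← sq_abs u2]
      have : |u2| ≠ 0 := abs_ne_zero.2 hu2
      field_simp
    rw [h1] at hu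
    have h2 : 0 < u2 ^ 2 := by positivity
    have h3 : u2 ^ 2 * (((|m11 * r + m12| + |m21 * r + m22|) / 2) ^ 2) <
        u2 ^ 2 * (κ' * d * |r|) := by linarith
    have h4 := lt_of_mul_lt_mul_left h3 h2.le
    linarith
  obtain ⟨δ, hδ, hδg⟩ := Metric.continuousAt_iff.1 hcont.continuousAt (-(g r)) (by linarith)
  have hnear : ∀ x : ℝ, |x - r| ≤ δ / 2 → g x < 0 := by
    intro x hx
    have h1 := hδg (x := x) (by rw [Real.dist_eq]; linarith)
    rw [Real.dist_eq, abs_lt] at h1
    linarith
  -- size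
  set Sgm : ℝ := |m11| + |m12| + |m21| + |m22| + 1 with hSg
  have hSg0 : 0 < Sgm := by rw [hSg]; positivity
  set Tm : ℝ := |m31| + |m32| + 1 with hT
  have hT0 : 0 < Tm := by rw [hT]; positivity
  set η : ℝ := min (min 1 (R / Sgm)) ((κ - κ') * m33 / (κ' * Tm)) with hη
  have hη0 : 0 < η := by
    have : 0 < κ - κ' := by linarith
    have : 0 < κ' := by linarith
    rw [hη]
    exact lt_min (lt_min one_pos (by positivity)) (by positivity)
  have hη1 : η ≤ 1 := (min_le_left _ _).trans (min_le_left _ _)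
  have hη2 : η ≤ R / Sgm := (min_le_left _ _).trans (min_le_right _ _)
  have hη3 : η ≤ (κ - κ') * m33 / (κ' * Tm) := min_le_right _ _
  rw [le_div_iff₀ hSg0] at hη2
  have hκT : 0 < κ' * Tm := by
    have : 0 < κ' := by linarith
    positivity
  rw [le_div_iff₀ hκT] at hη3
  obtain ⟨a, b, hdir, hs1, hs2⟩ := unit_dir r (δ / 2) η hr0 (half_pos hδ) hη0
  set v1 := e1 (wu a b) with hv1
  set v2 := e2 (wu a b) with hv2
  set v3 := e3 (wu a b) with hv3
  have hv : v1 * v2 * v3 = 1 := wu_prod a b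
  have hv2' : v2 ≠ 0 := e2_wu_ne a b
  have hv1' : v1 ≠ 0 := e1_wu_ne a b
  refine ⟨wu a b, ?_, ?_, ?_⟩
  · rintro ⟨h1, h2, h3⟩
    apply hv1'
    rw [hv1]; unfold e1
    rw [h1, h2, h3]; push_cast; ring
  · rw [← hv1, ← hv2]
    have g1 : |m11 * v1 + m12 * v2| ≤ |m11| * η + |m12| * η := by
      refine (abs_add_le _ _).trans ?_
      rw [abs_mul, abs_mul]
      exact add_le_add (mul_le_mul_of_nonneg_left hs1 (abs_nonneg _))
        (mul_le_mul_of_nonneg_left hs2 (abs_nonneg _))
    have g2 : |m21 * v1 + m22 * v2| ≤ |m21| * η + |m22| * η := by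
      refine (abs_add_le _ _).trans ?_
      rw [abs_mul, abs_mul]
      exact add_le_add (mul_le_mul_of_nonneg_left hs1 (abs_nonneg _))
        (mul_le_mul_of_nonneg_left hs2 (abs_nonneg _))
    have g3 : η * Sgm = |m11| * η + |m12| * η + |m21| * η + |m22| * η + η := by rw [hSg]; ring
    linarith
  · rw [← hv1, ← hv2, ← hv3]
    have k1 := hnear _ hdir
    rw [hg] at k1
    simp only at k1
    have k2 : ((|m11 * v1 + m12 * v2| + |m21 * v1 + m22 * v2|) / 2) ^ 2 <
        κ' * d * |v1 * v2| := by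
      rw [hscale v1 v2 hv2']
      have h1 : |v1 * v2| = v2 ^ 2 * |v1 / v2| := by
        rw [abs_mul, abs_div, ← sq_abs v2]
        have : |v2| ≠ 0 := abs_ne_zero.2 hv2'
        field_simp
      rw [h1]
      have h2 : 0 < v2 ^ 2 := by positivity
      nlinarith
    have hv12 : 0 < |v1 * v2| := abs_pos.2 (mul_ne_zero hv1' hv2')
    have hv3a : |v3| * |v1 * v2| = 1 := by
      rw [← abs_mul]
      have : v3 * (v1 * v2) = 1 := by rw [← hv]; ring
      rw [this, abs_one]
    have k3 : |m31 * v1 + m32 * v2 + m33 * v3| ≤ (|m31| + |m32|) * η + m33 * |v3| := by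
      refine (abs_add_le _ _).trans (add_le_add ((abs_add_le _ _).trans ?_) ?_)
      · rw [abs_mul, abs_mul, add_mul]
        exact add_le_add (mul_le_mul_of_nonneg_left hs1 (abs_nonneg _))
          (mul_le_mul_of_nonneg_left hs2 (abs_nonneg _))
      · rw [abs_mul, abs_of_pos h33]
    have hv12le : |v1 * v2| ≤ 1 := by
      rw [abs_mul]
      have h1 := hs1.trans hη1
      have h2 := hs2.trans hη1
      calc |v1| * |v2| ≤ 1 * 1 := mul_le_mul h1 h2 (abs_nonneg _) zero_le_one
        _ = 1 := one_mul 1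
    have hv3pos : 0 < |v3| := by
      by_contra hno
      push Not at hno
      have : |v3| = 0 := le_antisymm hno (abs_nonneg _)
      rw [this, zero_mul] at hv3a
      norm_num at hv3a
    have hκ'0 : 0 < κ' := by linarith
    have k4 : 0 < (|m31| + |m32|) * η + m33 * |v3| := by positivity
    have k5 : |m31 * v1 + m32 * v2 + m33 * v3| *
        ((|m11 * v1 + m12 * v2| + |m21 * v1 + m22 * v2|) / 2) ^ 2 <
        ((|m31| + |m32|) * η + m33 * |v3|) * (κ' * d * |v1 * v2|) := by
      refine lt_of_le_of_lt (mul_le_mul_of_nonneg_right k3 (sq_nonneg _)) ?_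
      exact mul_lt_mul_of_pos_left k2 k4
    refine k5.trans_le ?_
    have k6 : ((|m31| + |m32|) * η + m33 * |v3|) * (κ' * d * |v1 * v2|) =
        κ' * d * ((|m31| + |m32|) * η * |v1 * v2| + m33 * (|v3| * |v1 * v2|)) := by ring
    rw [k6, hv3a, mul_one]
    have k7 : (|m31| + |m32|) * η * |v1 * v2| ≤ Tm * η := by
      have h1 : 0 ≤ (|m31| + |m32|) * η := by positivity
      have h2 : (|m31| + |m32|) * η ≤ Tm * η := by
        apply mul_le_mul_of_nonneg_right _ hη0.le
        rw [hT]; linarith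
      calc (|m31| + |m32|) * η * |v1 * v2| ≤ (|m31| + |m32|) * η * 1 :=
            mul_le_mul_of_nonneg_left hv12le h1
        _ ≤ Tm * η := by linarith
    have k8 : κ' * (Tm * η + m33) ≤ κ * m33 := by nlinarith
    calc κ' * d * ((|m31| + |m32|) * η * |v1 * v2| + m33)
        ≤ κ' * d * (Tm * η + m33) := by
          apply mul_le_mul_of_nonneg_left _ (by positivity)
          linarith
      _ = d * (κ' * (Tm * η + m33)) := by ring
      _ ≤ d * (κ * m33) := mul_le_mul_of_nonneg_left k8 hdet.le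
      _ = κ * (m33 * d) := by ring

end Run7.h349.DS
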