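import Pool.Agent.Run7.h774.Basic

/-!
# MP_be9f18_nt: the ring `ℤ[2cos(2π/7)]`, norm, multiplication, Vandermonde, density
-/

set_option autoImplicit false

namespace Run7.h349.DS

open Run7.h774

/-- the norm form -/
def N3 (n : ℤ × ℤ × ℤ) : ℤ :=
  n.1 ^ 3 - n.1 ^ 2 * n.2.1 + 5 * n.1 ^ 2 * n.2.2 - 2 * n.1 * n.2.1 ^ 2 - n.1 * n.2.1 * n.2.2
    + 6 * n.1 * n.2.2 ^ 2 + n.2.1 ^ 3 - n.2.1 ^ 2 * n.2.2 - 2 * n.2.1 * n.2.2 ^ 2 + n.2.2 ^ 3

theorem e_prod (n : ℤ × ℤ × ℤ) : e1 n * e2 n * e3 n = (N3 n : ℝ) := by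
  have s1 := t_sum
  have s2 := t_sym2
  have s3 := t_prod
  have h : e1 n * e2 n * e3 n = (n.1 : ℝ) ^ 3 + n.1 ^ 2 * n.2.1 * (t1 + t2 + t3) +
      n.1 ^ 2 * n.2.2 * ((t1 + t2 + t3) ^ 2 - 2 * (t1 * t2 + t2 * t3 + t3 * t1)) +
      n.1 * n.2.1 ^ 2 * (t1 * t2 + t2 * t3 + t3 * t1) +
      n.1 * n.2.1 * n.2.2 * ((t1 + t2 + t3) * (t1 * t2 + t2 * t3 + t3 * t1) - 3 * (t1 * t2 * t3)) +
      n.1 * n.2.2 ^ 2 * ((t1 * t2 + t2 * t3 + t3 * t1) ^ 2 -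
        2 * ((t1 + t2 + t3) * (t1 * t2 * t3))) +
      n.2.1 ^ 3 * (t1 * t2 * t3) + n.2.1 ^ 2 * n.2.2 * ((t1 * t2 * t3) * (t1 + t2 + t3)) +
      n.2.1 * n.2.2 ^ 2 * ((t1 * t2 * t3) * (t1 * t2 + t2 * t3 + t3 * t1)) +
      n.2.2 ^ 3 * (t1 * t2 * t3) ^ 2 := by
    unfold e1 e2 e3
    ring
  rw [h, s1, s2, s3]
  unfold N3
  push_cast
  ring

theorem N3_mod2 : ∀ a b c : ZMod 2,
    a ^ 3 - a ^ 2 * b + 5 * a ^ 2 * c - 2 * a * b ^ 2 - a * b * c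
    + 6 * a * c ^ 2 + b ^ 3 - b ^ 2 * c - 2 * b * c ^ 2 + c ^ 3 = 0 → a = 0 ∧ b = 0 ∧ c = 0 := by
  decide

theorem N3_zero_aux (k : ℕ) : ∀ a b c : ℤ, a.natAbs + b.natAbs + c.natAbs ≤ k →
    N3 (a, b, c) = 0 → a = 0 ∧ b = 0 ∧ c = 0 := by
  induction k with
  | zero =>
    intro a b c h _
    omega
  | succ k ih =>
    intro a b c h h0
    have h1 := congrArg (Int.cast : ℤ → ZMod 2) h0
    unfold N3 at h1
    push_cast at h1
    obtain ⟨ha, hb, hc⟩ := N3_mod2 a b c h1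
    rw [ZMod.intCast_zmod_eq_zero_iff_dvd] at ha hb hc
    obtain ⟨a', rfl⟩ := ha
    obtain ⟨b', rfl⟩ := hb
    obtain ⟨c', rfl⟩ := hc
    push_cast at *
    have h2 : N3 (a', b', c') = 0 := by
      unfold N3 at h0 ⊢
      simp only at h0 ⊢
      have : (8 : ℤ) * (a' ^ 3 - a' ^ 2 * b' + 5 * a' ^ 2 * c' - 2 * a' * b' ^ 2 - a' * b' * c'
        + 6 * a' * c' ^ 2 + b' ^ 3 - b' ^ 2 * c' - 2 * b' * c' ^ 2 + c' ^ 3) = 0 := by
        linear_combination h0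
      omega
    by_cases hz : a' = 0 ∧ b' = 0 ∧ c' = 0
    · obtain ⟨rfl, rfl, rfl⟩ := hz
      simp
    · have h3 : a'.natAbs + b'.natAbs + c'.natAbs ≤ k := by
        have e1 : (2 * a').natAbs = 2 * a'.natAbs := by rw [Int.natAbs_mul]; rfl
        have e2 : (2 * b').natAbs = 2 * b'.natAbs := by rw [Int.natAbs_mul]; rfl
        have e3 : (2 * c').natAbs = 2 * c'.natAbs := by rw [Int.natAbs_mul]; rfl
        omega
      exact absurd (ih a' b' c' h3 h2) hz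

theorem N3_ne {n : ℤ × ℤ × ℤ} (h : ¬ (n.1 = 0 ∧ n.2.1 = 0 ∧ n.2.2 = 0)) : N3 n ≠ 0 := by
  intro h0
  exact h (N3_zero_aux _ n.1 n.2.1 n.2.2 le_rfl h0)

theorem norm_ge {n : ℤ × ℤ × ℤ} (h : ¬ (n.1 = 0 ∧ n.2.1 = 0 ∧ n.2.2 = 0)) :
    1 ≤ |e1 n * e2 n * e3 n| := by
  rw [e_prod]
  have := Int.one_le_abs (N3_ne h)
  exact_mod_cast this

theorem e1_ne {n : ℤ × ℤ × ℤ} (h : ¬ (n.1 = 0 ∧ n.2.1 = 0 ∧ n.2.2 = 0)) : e1 n ≠ 0 := by
  intro h0
  have := norm_ge h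
  rw [h0] at this
  norm_num at this

theorem e2_ne {n : ℤ × ℤ × ℤ} (h : ¬ (n.1 = 0 ∧ n.2.1 = 0 ∧ n.2.2 = 0)) : e2 n ≠ 0 := by
  intro h0
  have := norm_ge h
  rw [h0] at this
  norm_num at this

/-- multiplication of `ℤ[t]` -/
def mulT (x y : ℤ × ℤ × ℤ) : ℤ × ℤ × ℤ :=
  (x.1 * y.1 + (x.2.1 * y.2.2 + x.2.2 * y.2.1) - x.2.2 * y.2.2,
    x.1 * y.2.1 + x.2.1 * y.1 + 2 * (x.2.1 * y.2.2 + x.2.2 * y.2.1) - x.2.2 * y.2.2,
    x.1 * y.2.2 + x.2.1 * y.2.1 + x.2.2 * y.1 - (x.2.1 * y.2.2 + x.2.2 * y.2.1)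
      + 3 * (x.2.2 * y.2.2))

theorem mul_gen {t : ℝ} (ht : t ^ 3 + t ^ 2 - 2 * t - 1 = 0) (a b c a' b' c' : ℝ) :
    (a * a' + (b * c' + c * b') - c * c') +
      (a * b' + b * a' + 2 * (b * c' + c * b') - c * c') * t +
      (a * c' + b * b' + c * a' - (b * c' + c * b') + 3 * (c * c')) * t ^ 2 =
    (a + b * t + c * t ^ 2) * (a' + b' * t + c' * t ^ 2) := by
  linear_combination (-(b * c' + c * b') - c * c' * (t - 1)) * ht

theorem e1_mul (x y : ℤ × ℤ × ℤ) : e1 (mulT x y) = e1 x * e1 y := by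
  unfold e1 mulT
  push_cast
  exact mul_gen t1_eq _ _ _ _ _ _

theorem e2_mul (x y : ℤ × ℤ × ℤ) : e2 (mulT x y) = e2 x * e2 y := by
  unfold e2 mulT
  push_cast
  exact mul_gen t2_eq _ _ _ _ _ _

theorem e3_mul (x y : ℤ × ℤ × ℤ) : e3 (mulT x y) = e3 x * e3 y := by
  unfold e3 mulT
  push_cast
  exact mul_gen t3_eq _ _ _ _ _ _

/-- powers -/
def powT (x : ℤ × ℤ × ℤ) : ℕ → ℤ × ℤ × ℤ
  | 0 => (1, 0, 0)
  | k + 1 => mulT (powT x k) x

theorem e1_pow (x : ℤ × ℤ × ℤ) (k : ℕ) : e1 (powT x k) = e1 x ^ k := by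
  induction k with
  | zero => simp [powT, e1]
  | succ k ih => rw [powT, e1_mul, ih, pow_succ]

theorem e2_pow (x : ℤ × ℤ × ℤ) (k : ℕ) : e2 (powT x k) = e2 x ^ k := by
  induction k with
  | zero => simp [powT, e2]
  | succ k ih => rw [powT, e2_mul, ih, pow_succ]

theorem e3_pow (x : ℤ × ℤ × ℤ) (k : ℕ) : e3 (powT x k) = e3 x ^ k := by
  induction k with
  | zero => simp [powT, e3]
  | succ k ih => rw [powT, e3_mul, ih, pow_succ]

theorem vander : (t1 - t2) * (t1 - t3) * (t2 - t3) = 7 := by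
  have h := t1_eq
  rw [t3_def', t2_def']
  linear_combination (1 + 9 * t1 - t1 ^ 2 - 2 * t1 ^ 3) * h

/-- density of the ring in the plane of the first two embeddings -/
theorem dens (y1 y2 η : ℝ) (hη : 0 < η) :
    ∃ n : ℤ × ℤ × ℤ, |e1 n - y1| ≤ η ∧ |e2 n - y2| ≤ η := by
  have a1 := t1_lo
  have a2 := t1_hi
  have b1 := t2_lo
  have b2 := t2_hi
  obtain ⟨k, hk⟩ := exists_pow_lt_of_lt_one (half_pos hη) (by norm_num : (0.81 : ℝ) < 1)
  set s : ℤ × ℤ × ℤ := powT (1, 0, -1) k with hs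
  have hs1 : e1 s = (1 - t1 ^ 2) ^ k := by
    rw [hs, e1_pow]
    congr 1
    unfold e1
    push_cast
    ring
  have hs2 : e2 s = (1 - t2 ^ 2) ^ k := by
    rw [hs, e2_pow]
    congr 1
    unfold e2
    push_cast
    ring
  have c1 : |1 - t1 ^ 2| ≤ 0.81 := by
    rw [abs_le]
    constructor <;> nlinarith
  have c2 : |1 - t2 ^ 2| ≤ 0.81 := by
    rw [abs_le]
    constructor <;> nlinarith
  have d1 : |e1 s| ≤ η / 2 := by
    rw [hs1, abs_pow]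
    exact (pow_le_pow_left₀ (abs_nonneg _) c1 k).trans hk.le
  have d2 : |e2 s| ≤ η / 2 := by
    rw [hs2, abs_pow]
    exact (pow_le_pow_left₀ (abs_nonneg _) c2 k).trans hk.le
  have n1 : e1 s ≠ 0 := by
    rw [hs1]
    apply pow_ne_zero
    nlinarith
  have n2 : e2 s ≠ 0 := by
    rw [hs2]
    apply pow_ne_zero
    nlinarith
  -- real solution
  set z1 : ℝ := y1 / e1 s with hz1
  set z2 : ℝ := y2 / e2 s with hz2
  have ht : t1 - t2 ≠ 0 := by nlinarith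
  set v : ℝ := (z1 - z2) / (t1 - t2) with hv
  set u : ℝ := z1 - v * t1 with hu
  have r1 : u + v * t1 = z1 := by rw [hu]; ring
  have r2 : u + v * t2 = z2 := by
    rw [hu, hv]
    field_simp
    ring
  refine ⟨mulT (round u, round v, 0) s, ?_, ?_⟩
  · rw [e1_mul]
    have h1 : y1 = (u + v * t1) * e1 s := by rw [r1, hz1]; field_simp
    have h2 : e1 (round u, round v, 0) = (round u : ℝ) + round v * t1 := by
      unfold e1; push_cast; ring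
    rw [h2, h1, ← sub_mul, abs_mul]
    have h3 : |(round u : ℝ) + round v * t1 - (u + v * t1)| ≤ 2 := by
      have h4 := abs_sub_round u
      have h5 := abs_sub_round v
      rw [abs_le] at h4 h5 ⊢
      constructor <;> nlinarith
    calc _ ≤ 2 * (η / 2) := mul_le_mul h3 d1 (abs_nonneg _) (by norm_num)
      _ = η := by ring
  · rw [e2_mul]
    have h1 : y2 = (u + v * t2) * e2 s := by rw [r2, hz2]; field_simp
    have h2 : e2 (round u, round v, 0) = (round u : ℝ) + round v * t2 := by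
      unfold e2; push_cast; ring
    rw [h2, h1, ← sub_mul, abs_mul]
    have h3 : |(round u : ℝ) + round v * t2 - (u + v * t2)| ≤ 2 := by
      have h4 := abs_sub_round u
      have h5 := abs_sub_round v
      rw [abs_le] at h4 h5 ⊢
      constructor <;> nlinarith
    calc _ ≤ 2 * (η / 2) := mul_le_mul h3 d2 (abs_nonneg _) (by norm_num)
      _ = η := by ring

end Run7.h349.DS
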