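import Pool.Agent.Run7.h349.DS.Walk

/-!
# MP_be9f18_nt: piece A, part 1: the matrix in the basis of the embeddings, perturbation of the tube
-/

set_option autoImplicit false

namespace Run7.h349.DS

open Run7.h774

/-- Lagrange interpolation at `t1, t2, t3` -/
theorem vsolve (B0 B1 B2 : ℝ) : ∃ m1 m2 m3 : ℝ,
    m1 + m2 + m3 = B0 ∧ m1 * t1 + m2 * t2 + m3 * t3 = B1 ∧
    m1 * t1 ^ 2 + m2 * t2 ^ 2 + m3 * t3 ^ 2 = B2 := by
  have l1 := t1_lo
  have u1 := t1_hi
  have l2 := t2_lo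
  have u2 := t2_hi
  have l3 := t3_lo
  have u3 := t3_hi
  have h12 : t1 - t2 ≠ 0 := by
    have : 0 < t1 - t2 := by linarith
    exact this.ne'
  have h13 : t1 - t3 ≠ 0 := by
    have : 0 < t1 - t3 := by linarith
    exact this.ne'
  have h23 : t2 - t3 ≠ 0 := by
    have : 0 < t2 - t3 := by linarith
    exact this.ne'
  have key : ∀ x y z : ℝ, x - y ≠ 0 → x - z ≠ 0 → y - z ≠ 0 → ∃ m1 m2 m3 : ℝ,
    m1 + m2 + m3 = B0 ∧ m1 * x + m2 * y + m3 * z = B1 ∧
    m1 * x ^ 2 + m2 * y ^ 2 + m3 * z ^ 2 = B2 := by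
    intro x y z h1 h2 h3
    refine ⟨(B2 - (y + z) * B1 + y * z * B0) / ((x - y) * (x - z)),
      -(B2 - (z + x) * B1 + z * x * B0) / ((y - z) * (x - y)),
      (B2 - (x + y) * B1 + x * y * B0) / ((x - z) * (y - z)), ?_, ?_, ?_⟩
    · field_simp
      ring
    · field_simp
      ring
    · field_simp
      ring
  exact key t1 t2 t3 h12 h13 h23

/-- rows of the approximate matrix -/
noncomputable def wr1 (B0 B1 B2 : ℝ) : ℝ := (B0 * 2547 + B1 * 7136 + B2 * 3176) / 16384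
noncomputable def wr2 (B0 B1 B2 : ℝ) : ℝ := (B0 * 16035 + B1 * (-3960) + B2 * (-7136)) / 16384
noncomputable def wr3 (B0 B1 B2 : ℝ) : ℝ := (B0 * (-2198) + B1 * (-3176) + B2 * 3960) / 16384

theorem wr_close (B0 B1 B2 m1 m2 m3 : ℝ) (h0 : m1 + m2 + m3 = B0)
    (h1 : m1 * t1 + m2 * t2 + m3 * t3 = B1) (h2 : m1 * t1 ^ 2 + m2 * t2 ^ 2 + m3 * t3 ^ 2 = B2) :
    |wr1 B0 B1 B2 - m1| ≤ 2 / 10000 * (|m1| + |m2| + |m3|) ∧
    |wr2 B0 B1 B2 - m2| ≤ 2 / 10000 * (|m1| + |m2| + |m3|) ∧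
    |wr3 B0 B1 B2 - m3| ≤ 2 / 10000 * (|m1| + |m2| + |m3|) := by
  have l1 := t1_lo
  have u1 := t1_hi
  have l2 := t2_lo
  have u2 := t2_hi
  have l3 := t3_lo
  have u3 := t3_hi
  have s1 : t1 ^ 2 = t2 + 2 := by rw [t2_def']; ring
  have s2 : t2 ^ 2 = t3 + 2 := by rw [t2_sq]; ring
  have s3 : t3 ^ 2 = t1 + 2 := by
    have := t3_sq
    linarith
  rw [s1, s2, s3] at h2
  have comb : ∀ g1 g2 g3 : ℝ, |g1| ≤ 2 / 10000 → |g2| ≤ 2 / 10000 → |g3| ≤ 2 / 10000 →
      |m1 * g1 + m2 * g2 + m3 * g3| ≤ 2 / 10000 * (|m1| + |m2| + |m3|) := by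
    intro g1 g2 g3 k1 k2 k3
    refine (abs_add_le _ _).trans ?_
    refine (add_le_add_left (abs_add_le _ _) _).trans ?_
    rw [abs_mul, abs_mul, abs_mul]
    have e1 := mul_le_mul_of_nonneg_left k1 (abs_nonneg m1)
    have e2 := mul_le_mul_of_nonneg_left k2 (abs_nonneg m2)
    have e3 := mul_le_mul_of_nonneg_left k3 (abs_nonneg m3)
    linarith
  refine ⟨?_, ?_, ?_⟩
  · have e : wr1 B0 B1 B2 - m1 =
        m1 * ((2547 + t1 * 7136 + (t2 + 2) * 3176) / 16384 - 1) +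
        m2 * ((2547 + t2 * 7136 + (t3 + 2) * 3176) / 16384) +
        m3 * ((2547 + t3 * 7136 + (t1 + 2) * 3176) / 16384) := by
      unfold wr1
      rw [← h0, ← h1, ← h2]
      ring
    rw [e]
    apply comb
    · rw [abs_le]; constructor <;> linarith
    · rw [abs_le]; constructor <;> linarith
    · rw [abs_le]; constructor <;> linarith
  · have e : wr2 B0 B1 B2 - m2 =
        m1 * ((16035 + t1 * (-3960) + (t2 + 2) * (-7136)) / 16384) +
        m2 * ((16035 + t2 * (-3960) + (t3 + 2) * (-7136)) / 16384 - 1) +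
        m3 * ((16035 + t3 * (-3960) + (t1 + 2) * (-7136)) / 16384) := by
      unfold wr2
      rw [← h0, ← h1, ← h2]
      ring
    rw [e]
    apply comb
    · rw [abs_le]; constructor <;> linarith
    · rw [abs_le]; constructor <;> linarith
    · rw [abs_le]; constructor <;> linarith
  · have e : wr3 B0 B1 B2 - m3 =
        m1 * ((-2198 + t1 * (-3176) + (t2 + 2) * 3960) / 16384) +
        m2 * ((-2198 + t2 * (-3176) + (t3 + 2) * 3960) / 16384) +
        m3 * ((-2198 + t3 * (-3176) + (t1 + 2) * 3960) / 16384 - 1) := by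
      unfold wr3
      rw [← h0, ← h1, ← h2]
      ring
    rw [e]
    apply comb
    · rw [abs_le]; constructor <;> linarith
    · rw [abs_le]; constructor <;> linarith
    · rw [abs_le]; constructor <;> linarith

/-- one row: closeness in terms of the approximate entries -/
theorem row_close {m1 m2 m3 w1 w2 w3 : ℝ}
    (h1 : |w1 - m1| ≤ 2 / 10000 * (|m1| + |m2| + |m3|))
    (h2 : |w2 - m2| ≤ 2 / 10000 * (|m1| + |m2| + |m3|))
    (h3 : |w3 - m3| ≤ 2 / 10000 * (|m1| + |m2| + |m3|)) :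
    |m1 - w1| ≤ 3 / 10000 * (|w1| + |w2| + |w3|) ∧
    |m2 - w2| ≤ 3 / 10000 * (|w1| + |w2| + |w3|) ∧
    |m3 - w3| ≤ 3 / 10000 * (|w1| + |w2| + |w3|) := by
  have t : ∀ m w : ℝ, |m| ≤ |w| + |w - m| := by
    intro m w
    have := abs_sub_abs_le_abs_sub m w
    rw [abs_sub_comm] at this
    linarith
  have k1 := t m1 w1
  have k2 := t m2 w2
  have k3 := t m3 w3
  have a1 := abs_nonneg m1
  have a2 := abs_nonneg m2
  have a3 := abs_nonneg m3
  have b1 := abs_nonneg w1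
  have b2 := abs_nonneg w2
  have b3 := abs_nonneg w3
  rw [abs_sub_comm m1, abs_sub_comm m2, abs_sub_comm m3]
  refine ⟨?_, ?_, ?_⟩ <;> linarith

/-- perturbation of the tube -/
theorem tube_pert {m11 m12 m13 m21 m22 m23 m31 m32 m33 w11 w12 w13 w21 w22 w23 w31 w32 w33 : ℝ}
    (ht : B1.Tube w11 w12 w13 w21 w22 w23 w31 w32 w33)
    (a1 : |w11 - m11| ≤ 2 / 10000 * (|m11| + |m12| + |m13|))
    (a2 : |w12 - m12| ≤ 2 / 10000 * (|m11| + |m12| + |m13|))
    (a3 : |w13 - m13| ≤ 2 / 10000 * (|m11| + |m12| + |m13|))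
    (b1 : |w21 - m21| ≤ 2 / 10000 * (|m21| + |m22| + |m23|))
    (b2 : |w22 - m22| ≤ 2 / 10000 * (|m21| + |m22| + |m23|))
    (b3 : |w23 - m23| ≤ 2 / 10000 * (|m21| + |m22| + |m23|))
    (c1 : |w31 - m31| ≤ 2 / 10000 * (|m31| + |m32| + |m33|))
    (c2 : |w32 - m32| ≤ 2 / 10000 * (|m31| + |m32| + |m33|))
    (c3 : |w33 - m33| ≤ 2 / 10000 * (|m31| + |m32| + |m33|)) :
    TW m11 m12 m13 m21 m22 m23 m31 m32 m33 := by
  obtain ⟨p1, p2, p3⟩ := row_close a1 a2 a3
  obtain ⟨q1, q2, q3⟩ := row_close b1 b2 b3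
  obtain ⟨r1, r2, r3⟩ := row_close c1 c2 c3
  have d1 := ht.d1
  have d2 := ht.d2
  have d3 := ht.d3
  have s1 := ht.s1
  have s2 := ht.s2
  have w11p : 0 < w11 := by linarith
  have w22p : 0 < w22 := by linarith
  have w33p : 0 < w33 := by linarith
  have h21 := ht.h21
  have h12 := ht.h12
  have e1 := ht.e1
  have e2 := ht.e2
  have f1 := ht.c1
  have f2 := ht.c2
  -- rows
  have R1 : |w11| + |w12| + |w13| ≤ 171 / 100 * w11 := by
    rw [abs_of_pos w11p]; linarith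
  have R2 : |w21| + |w22| + |w23| ≤ 171 / 100 * w22 := by
    rw [abs_of_pos w22p]; linarith
  have g1 : |w31| ≤ 12 / 100 * w33 := by
    have h : |w31| * ((w11 + w22) / 2) ≤ 12 / 100 * w33 * ((w11 + w22) / 2) := by
      refine f1.trans ?_
      have : 8 / 100 * w11 ≤ 12 / 100 * ((w11 + w22) / 2) := by linarith
      have := mul_le_mul_of_nonneg_right this w33p.le
      linarith
    exact le_of_mul_le_mul_right h (by linarith)
  have g2 : |w32| ≤ 12 / 100 * w33 := by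
    have h : |w32| * ((w11 + w22) / 2) ≤ 12 / 100 * w33 * ((w11 + w22) / 2) := by
      refine f2.trans ?_
      have : 8 / 100 * w22 ≤ 12 / 100 * ((w11 + w22) / 2) := by linarith
      have := mul_le_mul_of_nonneg_right this w33p.le
      linarith
    exact le_of_mul_le_mul_right h (by linarith)
  have R3 : |w31| + |w32| + |w33| ≤ 124 / 100 * w33 := by
    rw [abs_of_pos w33p]; linarith
  have t : ∀ m w E : ℝ, |m - w| ≤ E → |m| ≤ |w| + E := by
    intro m w E h
    have := abs_sub_abs_le_abs_sub m w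
    linarith
  have m11l : 999 / 1000 * w11 ≤ m11 := by
    have := (abs_le.1 p1).1; linarith
  have m11u : m11 ≤ 1001 / 1000 * w11 := by
    have := (abs_le.1 p1).2; linarith
  have m22l : 999 / 1000 * w22 ≤ m22 := by
    have := (abs_le.1 q2).1; linarith
  have m22u : m22 ≤ 1001 / 1000 * w22 := by
    have := (abs_le.1 q2).2; linarith
  have m33l : 999 / 1000 * w33 ≤ m33 := by
    have := (abs_le.1 r3).1; linarith
  have x12 := t _ _ _ p2
  have x13 := t _ _ _ p3
  have x21 := t _ _ _ q1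
  have x23 := t _ _ _ q3
  have x31 := t _ _ _ r1
  have x32 := t _ _ _ r2
  refine ⟨by linarith, by linarith, by linarith, by linarith, by linarith, by linarith, by linarith,
    ?_, ?_, by linarith, by linarith⟩
  · -- c1
    have y1 : |m31| ≤ |w31| + 4 / 10000 * w33 := by linarith
    have y2 : (m11 + m22) / 2 ≤ 1001 / 1000 * ((w11 + w22) / 2) := by linarith
    have y3 : |m31| * ((m11 + m22) / 2) ≤
        (|w31| + 4 / 10000 * w33) * (1001 / 1000 * ((w11 + w22) / 2)) :=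
      mul_le_mul y1 y2 (by linarith) (by positivity)
    have y4 : w33 * ((w11 + w22) / 2) ≤ 2 * (w11 * w33) := by nlinarith
    have y5 : (999 / 1000 * w11) * (999 / 1000 * w33) ≤ m11 * m33 :=
      mul_le_mul m11l m33l (by positivity) (by linarith)
    have y6 : 0 < w11 * w33 := mul_pos w11p w33p
    nlinarith
  · have y1 : |m32| ≤ |w32| + 4 / 10000 * w33 := by linarith
    have y2 : (m11 + m22) / 2 ≤ 1001 / 1000 * ((w11 + w22) / 2) := by linarith
    have y3 : |m32| * ((m11 + m22) / 2) ≤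
        (|w32| + 4 / 10000 * w33) * (1001 / 1000 * ((w11 + w22) / 2)) :=
      mul_le_mul y1 y2 (by linarith) (by positivity)
    have y4 : w33 * ((w11 + w22) / 2) ≤ 2 * (w22 * w33) := by nlinarith
    have y5 : (999 / 1000 * w22) * (999 / 1000 * w33) ≤ m22 * m33 :=
      mul_le_mul m22l m33l (by positivity) (by linarith)
    have y6 : 0 < w22 * w33 := mul_pos w22p w33p
    nlinarith

end Run7.h349.DS
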