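import Pool.Agent.Run7.h349.DS.Field

/-!
# MP_be9f18_nt: density of the directions of the units
-/

set_option autoImplicit false

namespace Run7.h349.DS

open Run7.h774

theorem rat_of_eq {n : ℤ × ℤ × ℤ} (h : e1 n = e2 n) : n.2.1 = 0 ∧ n.2.2 = 0 := by
  have h3 : (t1 - t2) * ((n.2.1 : ℝ) + n.2.2 * (t1 + t2)) = 0 := by
    have : e1 n - e2 n = (t1 - t2) * ((n.2.1 : ℝ) + n.2.2 * (t1 + t2)) := by
      unfold e1 e2; ring
    rw [← this, h, sub_self]
  have ht : t1 - t2 ≠ 0 := by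
    have a1 := t1_lo
    have b2 := t2_hi
    intro h; linarith
  have h4 : (n.2.1 : ℝ) + n.2.2 * (t1 + t2) = 0 := by
    rcases mul_eq_zero.1 h3 with h | h
    · exact absurd h ht
    · exact h
  have h5 : e1 (n.2.1 - 2 * n.2.2, n.2.2, n.2.2) = 0 := by
    unfold e1
    push_cast
    rw [t2_def'] at h4
    linear_combination h4
  by_contra hne
  refine e1_ne ?_ h5
  rintro ⟨ha, hb, hc⟩
  simp only at ha hb hc
  exact hne ⟨by omega, hb⟩

/-- the unit `t^a t'^b` -/
def wu (a b : ℕ) : ℤ × ℤ × ℤ := mulT (powT (0, 1, 0) a) (powT (-2, 0, 1) b)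

theorem e1_wu (a b : ℕ) : e1 (wu a b) = t1 ^ a * t2 ^ b := by
  unfold wu
  rw [e1_mul, e1_pow, e1_pow]
  congr 2
  · unfold e1; push_cast; ring
  · unfold e1; rw [t2_def']; push_cast; ring

theorem e2_wu (a b : ℕ) : e2 (wu a b) = t2 ^ a * t3 ^ b := by
  unfold wu
  rw [e2_mul, e2_pow, e2_pow]
  congr 2
  · unfold e2; push_cast; ring
  · unfold e2; rw [t2_sq]; push_cast; ring

theorem e3_wu (a b : ℕ) : e3 (wu a b) = t3 ^ a * t1 ^ b := by
  unfold wu
  rw [e3_mul, e3_pow, e3_pow]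
  congr 2
  · unfold e3; push_cast; ring
  · unfold e3; rw [t3_sq]; push_cast; ring

theorem t1_pos : 0 < t1 := by linarith [t1_lo]
theorem t2_neg : t2 < 0 := by linarith [t2_hi]
theorem t3_neg : t3 < 0 := by linarith [t3_hi]

theorem wu_prod (a b : ℕ) : e1 (wu a b) * e2 (wu a b) * e3 (wu a b) = 1 := by
  rw [e1_wu, e2_wu, e3_wu]
  have : t1 ^ a * t2 ^ b * (t2 ^ a * t3 ^ b) * (t3 ^ a * t1 ^ b) =
      (t1 * t2 * t3) ^ a * (t1 * t2 * t3) ^ b := by
    rw [mul_pow, mul_pow, mul_pow, mul_pow]; ring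
  rw [this, t_prod]
  simp

noncomputable def l1 : ℝ := Real.log t1
noncomputable def l2 : ℝ := Real.log (-t2)
noncomputable def l3 : ℝ := Real.log (-t3)

theorem l1_pos : 0 < l1 := Real.log_pos (by linarith [t1_lo])
theorem l2_neg : l2 < 0 := Real.log_neg (by linarith [t2_hi]) (by linarith [t2_lo])
theorem l3_pos : 0 < l3 := Real.log_pos (by linarith [t3_hi])

theorem l_sum : l1 + l2 + l3 = 0 := by
  unfold l1 l2 l3
  have h1 := t1_pos
  have h2 : 0 < -t2 := by linarith [t2_neg]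
  have h3 : 0 < -t3 := by linarith [t3_neg]
  rw [← Real.log_mul h1.ne' h2.ne', ← Real.log_mul (mul_pos h1 h2).ne' h3.ne']
  have : t1 * -t2 * -t3 = 1 := by rw [← t_prod]; ring
  rw [this, Real.log_one]

theorem log_e1 (a b : ℕ) : Real.log |e1 (wu a b)| = a * l1 + b * l2 := by
  rw [e1_wu, abs_mul, abs_pow, abs_pow, abs_of_pos t1_pos, abs_of_neg t2_neg]
  have h1 := t1_pos
  have h2 : 0 < -t2 := by linarith [t2_neg]
  rw [Real.log_mul (pow_pos h1 a).ne' (pow_pos h2 b).ne', Real.log_pow, Real.log_pow]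
  rfl

theorem log_e2 (a b : ℕ) : Real.log |e2 (wu a b)| = a * l2 + b * l3 := by
  rw [e2_wu, abs_mul, abs_pow, abs_pow, abs_of_neg t3_neg, abs_of_neg t2_neg]
  have h3 : 0 < -t3 := by linarith [t3_neg]
  have h2 : 0 < -t2 := by linarith [t2_neg]
  rw [Real.log_mul (pow_pos h2 a).ne' (pow_pos h3 b).ne', Real.log_pow, Real.log_pow]
  rfl

theorem e1_wu_ne (a b : ℕ) : e1 (wu a b) ≠ 0 := by
  have := wu_prod a b
  intro h; rw [h] at this; norm_num at this

theorem e2_wu_ne (a b : ℕ) : e2 (wu a b) ≠ 0 := by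
  have := wu_prod a b
  intro h; rw [h] at this; norm_num at this

/-- multiplicative independence -/
theorem indep (a b : ℕ) (ha : 0 < a) : (a : ℝ) * (l1 - l2) - b * (l3 - l2) ≠ 0 := by
  intro h
  have h1 : Real.log |e1 (wu a b)| = Real.log |e2 (wu a b)| := by
    rw [log_e1, log_e2]; linarith
  have h2 : |e1 (wu a b)| = |e2 (wu a b)| :=
    Real.log_injOn_pos (Set.mem_Ioi.2 (abs_pos.2 (e1_wu_ne a b)))
      (Set.mem_Ioi.2 (abs_pos.2 (e2_wu_ne a b))) h1
  have h3 : e1 (mulT (wu a b) (wu a b)) = e2 (mulT (wu a b) (wu a b)) := by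
    rw [e1_mul, e2_mul, ← abs_mul_abs_self, h2, abs_mul_abs_self]
  obtain ⟨g1, g2⟩ := rat_of_eq h3
  have h4 : e1 (mulT (wu a b) (wu a b)) = e3 (mulT (wu a b) (wu a b)) := by
    unfold e1 e3
    rw [g1, g2]
    push_cast
    ring
  rw [e1_mul, e3_mul] at h4
  rw [e1_mul, e2_mul] at h3
  set x := e1 (wu a b)
  set y := e2 (wu a b)
  set z := e3 (wu a b)
  have h5 : x * y * z = 1 := wu_prod a b
  have h6 : (x ^ 2) ^ 3 = 1 := by
    have : (x ^ 2) ^ 3 = (x * x) * (x * x) * (x * x) := by ring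
    calc (x ^ 2) ^ 3 = (x * x) * (x * x) * (x * x) := this
      _ = (x * x) * (y * y) * (z * z) := by
          nth_rewrite 2 [h3]
          nth_rewrite 2 [h4]
          ring
      _ = (x * y * z) ^ 2 := by ring
      _ = 1 := by rw [h5]; norm_num
  have h7 : x ^ 2 = 1 := by
    have h8 : 0 ≤ x ^ 2 := sq_nonneg x
    exact (pow_eq_one_iff_of_nonneg h8 (by norm_num)).1 h6
  have h8 : |x| = 1 := by
    have : |x| ^ 2 = 1 := by rw [sq_abs]; exact h7
    exact (pow_eq_one_iff_of_nonneg (abs_nonneg x) (by norm_num)).1 this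
  have h9 := log_e1 a b
  have h10 := log_e2 a b
  change Real.log |x| = _ at h9
  change Real.log |y| = _ at h10
  rw [h8, Real.log_one] at h9
  have h11 : |y| = 1 := h2.symm.trans h8
  rw [h11, Real.log_one] at h10
  have h12 := l_sum
  have h13 := l1_pos
  have h14 := l3_pos
  have h15 : (1 : ℝ) ≤ a := by exact_mod_cast ha
  have h16 : (0 : ℝ) ≤ b := Nat.cast_nonneg b
  have h17 : l1 + l2 = -l3 := by linarith
  have h18 : l2 + l3 = -l1 := by linarith
  have h19 : (a : ℝ) * l3 + b * l1 = 0 := by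
    have : (a : ℝ) * (l1 + l2) + b * (l2 + l3) = 0 := by linarith
    rw [h17, h18] at this
    linarith
  have h20 : 0 ≤ (b : ℝ) * l1 := mul_nonneg h16 h13.le
  have h21 : 0 < (a : ℝ) * l3 := by positivity
  linarith

/-- small steps -/
theorem small_step (L : ℕ) (ε : ℝ) (hε : 0 < ε) :
    ∃ a b : ℕ, L ≤ a ∧ (a : ℝ) * (l1 - l2) - b * (l3 - l2) ≠ 0 ∧
      |(a : ℝ) * (l1 - l2) - b * (l3 - l2)| ≤ ε := by
  set A := l1 - l2 with hA
  set B := l3 - l2 with hB
  have hA0 : 0 < A := by have := l1_pos; have := l2_neg; linarith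
  have hB0 : 0 < B := by have := l3_pos; have := l2_neg; linarith
  obtain ⟨n, hn⟩ := exists_nat_gt (B / ε)
  have hn0 : 0 < n := by
    have h1 : (0 : ℝ) < n := lt_trans (by positivity) hn
    exact_mod_cast h1
  obtain ⟨k, hk0, _, hk⟩ := Real.exists_nat_abs_mul_sub_round_le ((L + 1) * A / B) hn0
  set r : ℤ := round ((k : ℝ) * ((L + 1) * A / B)) with hr
  have hk1 : (1 : ℝ) ≤ k := by exact_mod_cast hk0
  have hr0 : 0 ≤ r := by
    have h1 : (0 : ℝ) < (k : ℝ) * ((L + 1) * A / B) := by positivity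
    have h2 := abs_sub_round ((k : ℝ) * ((L + 1) * A / B))
    rw [← hr, abs_le] at h2
    have h3 : (-1 : ℝ) < r := by linarith
    have h4 : (-1 : ℤ) < r := by exact_mod_cast h3
    omega
  refine ⟨k * (L + 1), r.toNat, by nlinarith, indep _ _ (by positivity), ?_⟩
  have hrn : ((r.toNat : ℕ) : ℝ) = (r : ℝ) := by
    have : ((r.toNat : ℕ) : ℤ) = r := Int.toNat_of_nonneg hr0
    exact_mod_cast this
  rw [hrn]
  push_cast
  have h5 : (k : ℝ) * ((L : ℝ) + 1) * A - r * B = ((k : ℝ) * ((L + 1) * A / B) - r) * B := by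
    field_simp
  rw [h5, abs_mul, abs_of_pos hB0]
  calc _ ≤ 1 / ((n : ℝ) + 1) * B := mul_le_mul_of_nonneg_right hk hB0.le
    _ = B / (n + 1) := by ring
    _ ≤ ε := by
        rw [div_le_iff₀ (by positivity)]
        rw [div_lt_iff₀ hε] at hn
        nlinarith

theorem sign_wu (a b : ℕ) : 0 < (-1 : ℝ) ^ a * (e1 (wu a b) / e2 (wu a b)) := by
  rw [e1_wu, e2_wu]
  have h1 := t1_pos
  have h2 : 0 < -t2 := by linarith [t2_neg]
  have h3 : 0 < -t3 := by linarith [t3_neg]
  have e : (-1 : ℝ) ^ a * (t1 ^ a * t2 ^ b / (t2 ^ a * t3 ^ b)) =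
      t1 ^ a * (-t2) ^ b / ((-t2) ^ a * (-t3) ^ b) := by
    have h4 : t2 ≠ 0 := by linarith
    have h5 : t3 ≠ 0 := by linarith
    rw [neg_pow t2 b, neg_pow t2 a, neg_pow t3 b]
    have h6 : ((-1 : ℝ) ^ b) ≠ 0 := pow_ne_zero _ (by norm_num)
    have h7 : ((-1 : ℝ) ^ a) ≠ 0 := pow_ne_zero _ (by norm_num)
    have h8 : ((-1 : ℝ) ^ a) * (-1) ^ a = 1 := by
      rw [← mul_pow]; norm_num
    field_simp
    linear_combination h8
  rw [e]
  positivity

/-- directions of units are dense -/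
theorem unit_dir (r δ η : ℝ) (hr : r ≠ 0) (hδ : 0 < δ) (hη : 0 < η) :
    ∃ a b : ℕ, |e1 (wu a b) / e2 (wu a b) - r| ≤ δ ∧ |e1 (wu a b)| ≤ η ∧ |e2 (wu a b)| ≤ η := by
  set τ : ℝ := Real.log |r| with hτ
  have hrp : 0 < |r| := abs_pos.2 hr
  have hA0 : 0 < l1 - l2 := by have := l1_pos; have := l2_neg; linarith
  have hB0 : 0 < l3 - l2 := by have := l3_pos; have := l2_neg; linarith
  have hl3 := l3_pos
  have hl1 := l1_pos
  have hls := l_sum
  -- L
  obtain ⟨L, hL⟩ := exists_nat_gt ((|τ| + 1 - 2 * Real.log η) / (2 * l3))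
  rw [div_lt_iff₀ (by positivity)] at hL
  set ε : ℝ := min (1 / 2) (δ / (4 * |r|)) with hε
  have hε0 : 0 < ε := lt_min (by norm_num) (by positivity)
  have hε1 : ε ≤ 1 / 2 := min_le_left _ _
  have hε2 : ε ≤ δ / (4 * |r|) := min_le_right _ _
  obtain ⟨a, b, ha, hne, hab⟩ := small_step L ε hε0
  set μ : ℝ := (a : ℝ) * (l1 - l2) - b * (l3 - l2) with hμ
  set lam : ℝ := 2 * μ with hlam
  have hlam0 : lam ≠ 0 := by rw [hlam]; exact mul_ne_zero (by norm_num) hne
  have hlam1 : |lam| ≤ 2 * ε := by rw [hlam, abs_mul]; norm_num; linarith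
  -- parity for the sign
  set s : ℕ := if 0 < r then 0 else 1 with hs
  have hsr : (-1 : ℝ) ^ s * r = |r| := by
    rw [hs]
    split_ifs with h
    · rw [pow_zero, one_mul, abs_of_pos h]
    · have : r < 0 := lt_of_le_of_ne (not_lt.1 h) hr
      rw [pow_one, abs_of_neg this]; ring
  -- starting point
  obtain ⟨a0, b0, hpar, hstart⟩ : ∃ a0 b0 : ℕ, (-1 : ℝ) ^ a0 = (-1) ^ s ∧
      1 ≤ (τ - ((a0 : ℝ) * (l1 - l2) - b0 * (l3 - l2))) / lam := by
    rcases lt_or_gt_of_ne hlam0 with h | h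
    · -- lam < 0 : start above
      obtain ⟨K, hK⟩ := exists_nat_gt ((|τ| + 1) / (l1 - l2))
      rw [div_lt_iff₀ hA0] at hK
      refine ⟨2 * K + s, 0, ?_, ?_⟩
      · rw [pow_add, pow_mul]; norm_num
      · rw [le_div_iff_of_neg h]
        have h1 : (0 : ℝ) ≤ (s : ℝ) := Nat.cast_nonneg s
        have h2 := le_abs_self τ
        have h3 : -(1 : ℝ) ≤ lam := by
          have := (abs_le.1 hlam1).1
          linarith
        have h4 : 0 ≤ (s : ℝ) * (l1 - l2) := mul_nonneg h1 hA0.le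
        have h5 : 0 ≤ (K : ℝ) * (l1 - l2) := mul_nonneg (Nat.cast_nonneg K) hA0.le
        push_cast
        nlinarith
    · obtain ⟨K, hK⟩ := exists_nat_gt ((|τ| + 1 + (l1 - l2)) / (l3 - l2))
      rw [div_lt_iff₀ hB0] at hK
      refine ⟨s, K, rfl, ?_⟩
      rw [le_div_iff₀ h]
      have h1 : (s : ℝ) ≤ 1 := by
        rw [hs]; split_ifs <;> norm_num
      have h2 := neg_abs_le τ
      have h3 : lam ≤ 1 := by
        have := (abs_le.1 hlam1).2
        linarith
      have h4 : (s : ℝ) * (l1 - l2) ≤ 1 * (l1 - l2) := mul_le_mul_of_nonneg_right h1 hA0.le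
      linarith
  set V : ℝ := (a0 : ℝ) * (l1 - l2) - b0 * (l3 - l2) with hV
  set N : ℕ := ⌊(τ - V) / lam⌋₊ with hN
  have hN1 : 1 ≤ N := Nat.le_floor (by exact_mod_cast hstart)
  have hN2 : |τ - V - N * lam| ≤ |lam| := by
    have h1 := Nat.floor_le (a := (τ - V) / lam) (by linarith)
    have h2 := Nat.lt_floor_add_one ((τ - V) / lam)
    rw [← hN] at h1 h2
    have h3 : τ - V - N * lam = ((τ - V) / lam - N) * lam := by field_simp
    rw [h3, abs_mul]
    have h4 : |(τ - V) / lam - N| ≤ 1 := by rw [abs_le]; constructor <;> linarith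
    calc _ ≤ 1 * |lam| := mul_le_mul_of_nonneg_right h4 (abs_nonneg _)
      _ = |lam| := one_mul _
  set at' : ℕ := a0 + 2 * a * N with hat
  set bt' : ℕ := b0 + 2 * b * N with hbt
  have hdiff : Real.log |e1 (wu at' bt')| - Real.log |e2 (wu at' bt')| = V + N * lam := by
    rw [log_e1, log_e2, hat, hbt, hV, hlam, hμ]
    push_cast
    ring
  have hsum : Real.log |e1 (wu at' bt')| + Real.log |e2 (wu at' bt')| ≤ -(2 * L * l3) := by
    have h1 : Real.log |e1 (wu at' bt')| + Real.log |e2 (wu at' bt')| =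
        -((at' : ℝ) * l3) - bt' * l1 := by
      rw [log_e1, log_e2]
      have : l1 = -l2 - l3 := by linarith
      rw [this]; ring
    rw [h1]
    have h2 : (2 * L : ℝ) ≤ at' := by
      have : 2 * L ≤ at' := by
        rw [hat]
        have h3 : L * 1 ≤ a * N := Nat.mul_le_mul ha hN1
        nlinarith
      exact_mod_cast this
    have h3 : 0 ≤ (bt' : ℝ) * l1 := mul_nonneg (Nat.cast_nonneg _) hl1.le
    have h4 := mul_le_mul_of_nonneg_right h2 hl3.le
    linarith
  have hd1 : |V + N * lam - τ| ≤ 2 * ε := by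
    have : V + N * lam - τ = -(τ - V - N * lam) := by ring
    rw [this, abs_neg]
    exact hN2.trans hlam1
  have hd2 := abs_le.1 hd1
  have p1 : 0 < |e1 (wu at' bt')| := abs_pos.2 (e1_wu_ne _ _)
  have p2 : 0 < |e2 (wu at' bt')| := abs_pos.2 (e2_wu_ne _ _)
  refine ⟨at', bt', ?_, ?_, ?_⟩
  · -- ratio
    set q : ℝ := e1 (wu at' bt') / e2 (wu at' bt') with hq
    have hsg : 0 < (-1 : ℝ) ^ s * q := by
      have h1 := sign_wu at' bt'
      have h2 : (-1 : ℝ) ^ at' = (-1) ^ s := by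
        rw [hat, pow_add, hpar, mul_assoc, pow_mul]; norm_num
      rw [h2] at h1
      exact h1
    have hss : ((-1 : ℝ) ^ s) * (-1) ^ s = 1 := by rw [← mul_pow]; norm_num
    have hqa : (-1 : ℝ) ^ s * q = |q| := by
      rw [← abs_of_pos hsg, abs_mul, abs_pow]
      norm_num
    have habs : |q - r| = abs (|q| - |r|) := by
      rw [← hqa, ← hsr, ← mul_sub, abs_mul, abs_pow]
      norm_num
    have hql : |q| = Real.exp (V + N * lam) := by
      rw [hq, abs_div, ← hdiff, Real.exp_sub, Real.exp_log p1, Real.exp_log p2]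
    have hrl : |r| = Real.exp τ := by rw [hτ, Real.exp_log hrp]
    have h5 : |q| - |r| = |r| * (Real.exp (V + N * lam - τ) - 1) := by
      rw [mul_sub, mul_one, hql]
      congr 1
      rw [hrl, ← Real.exp_add]
      congr 1
      ring
    have h6 : |Real.exp (V + N * lam - τ) - 1| ≤ 2 * |V + N * lam - τ| :=
      Real.abs_exp_sub_one_le (by linarith)
    rw [habs, h5, abs_mul, abs_of_pos hrp]
    calc |r| * |Real.exp (V + N * lam - τ) - 1| ≤ |r| * (2 * (2 * ε)) := by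
          apply mul_le_mul_of_nonneg_left _ hrp.le
          linarith
      _ = (4 * |r|) * ε := by ring
      _ ≤ (4 * |r|) * (δ / (4 * |r|)) := mul_le_mul_of_nonneg_left hε2 (by positivity)
      _ = δ := by field_simp
  · rw [← Real.log_le_log_iff p1 hη]
    have h2 := le_abs_self τ
    linarith
  · rw [← Real.log_le_log_iff p2 hη]
    have h2 := neg_abs_le τ
    linarith

end Run7.h349.DS
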