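import Pool.Agent.Run7.h774.CoreDefs
import Pool.Agent.Run7.h349.DS.Density

/-!
# MP_be9f18_nt: piece C (the walk by units)
-/

set_option autoImplicit false

namespace Run7.h349.DS

open Run7.h774

/-- the tube of the walk -/
abbrev TW (m11 m12 m13 m21 m22 m23 m31 m32 m33 : ℝ) : Prop :=
  TubeP (135 / 1000) (83 / 1000) (2035 / 10000) (4535 / 10000) m11 m12 m13 m21 m22 m23 m31 m32 m33

/-- lower bound for the form on the region of size `R` -/
def LowB (R K m11 m12 m13 m21 m22 m23 m31 m32 m33 : ℝ) : Prop :=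
  ∀ n : ℤ × ℤ × ℤ, ¬ (n.1 = 0 ∧ n.2.1 = 0 ∧ n.2.2 = 0) →
      (|m11 * e1 n + m12 * e2 n + m13 * e3 n| + |m21 * e1 n + m22 * e2 n + m23 * e3 n|) / 2 ≤ R →
      K ≤ Gy (m11 * e1 n + m12 * e2 n + m13 * e3 n) (m21 * e1 n + m22 * e2 n + m23 * e3 n)
        (m31 * e1 n + m32 * e2 n + m33 * e3 n)

theorem lowB_act {R K m11 m12 m13 m21 m22 m23 m31 m32 m33 : ℝ}
    (h : LowB R K m11 m12 m13 m21 m22 m23 m31 m32 m33) (g : ℤ × ℤ × ℤ) (s1 s2 s3 : ℝ)
    (hs1 : |s1| = 1) (hs2 : |s2| = 1) (hs3 : |s3| = 1) (hg : e1 g ≠ 0) :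
    LowB R K (s1 * e1 g * m11) (s1 * e2 g * m12) (s1 * e3 g * m13)
      (s2 * e1 g * m21) (s2 * e2 g * m22) (s2 * e3 g * m23)
      (s3 * e1 g * m31) (s3 * e2 g * m32) (s3 * e3 g * m33) := by
  intro n hn hR
  have key : ∀ s a b c : ℝ, |s| = 1 →
      |s * e1 g * a * e1 n + s * e2 g * b * e2 n + s * e3 g * c * e3 n| =
      |a * e1 (mulT g n) + b * e2 (mulT g n) + c * e3 (mulT g n)| := by
    intro s a b c hs
    rw [e1_mul, e2_mul, e3_mul]
    have : s * e1 g * a * e1 n + s * e2 g * b * e2 n + s * e3 g * c * e3 n =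
      s * (a * (e1 g * e1 n) + b * (e2 g * e2 n) + c * (e3 g * e3 n)) := by ring
    rw [this, abs_mul, hs, one_mul]
  have hne : ¬ ((mulT g n).1 = 0 ∧ (mulT g n).2.1 = 0 ∧ (mulT g n).2.2 = 0) := by
    rintro ⟨g1, g2, g3⟩
    have h1 : e1 (mulT g n) = 0 := by
      unfold e1
      rw [g1, g2, g3]
      push_cast; ring
    rw [e1_mul] at h1
    exact mul_ne_zero hg (e1_ne hn) h1
  rw [key s1 _ _ _ hs1, key s2 _ _ _ hs2] at hR
  have := h (mulT g n) hne hR
  unfold Gy at this ⊢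
  rw [key s1 _ _ _ hs1, key s2 _ _ _ hs2, key s3 _ _ _ hs3]
  exact this

/-- the state of the walk -/
structure St (R κ D m11 m12 m13 m21 m22 m23 m31 m32 m33 : ℝ) : Prop where
  tube : TW m11 m12 m13 m21 m22 m23 m31 m32 m33
  size : 1000 * ((m11 + m22) / 2) ≤ R
  det : det9 m11 m12 m13 m21 m22 m23 m31 m32 m33 = D
  low : LowB R (κ * D) m11 m12 m13 m21 m22 m23 m31 m32 m33

theorem st_act {R κ D m11 m12 m13 m21 m22 m23 m31 m32 m33 : ℝ}
    (h : St R κ D m11 m12 m13 m21 m22 m23 m31 m32 m33) (g : ℤ × ℤ × ℤ) (s1 s2 s3 v1 v2 v3 : ℝ)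
    (hs1 : |s1| = 1) (hs2 : |s2| = 1) (hs3 : |s3| = 1)
    (e1v : s1 * e1 g = v1) (e2v : s2 * e2 g = v2) (e3v : s3 * e3 g = v3)
    (hv1 : 0 < v1) (hv2 : 0 < v2) (hv3 : 1 ≤ v3) (hprod : v1 * v2 * v3 = 1)
    (hm1 : |m13| ≤ 562 / 10000 * ((m11 + m22) / 2))
    (hm2 : |m23| ≤ 562 / 10000 * ((m11 + m22) / 2))
    (hE : v3 * (562 / 10000 * ((m11 + m22) / 2)) ≤ 2035 / 10000 * ((v1 * m11 + v2 * m22) / 2))
    (hS : v1 * m11 + v2 * m22 ≤ m11 + m22)
    (hσ1 : (1 - 4535 / 10000) * (v1 * m11) ≤ (1 + 4535 / 10000) * (v2 * m22))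
    (hσ2 : (1 - 4535 / 10000) * (v2 * m22) ≤ (1 + 4535 / 10000) * (v1 * m11)) :
    St R κ D (s1 * e1 g * m11) (s1 * e2 g * m12) (s1 * e3 g * m13)
      (s2 * e1 g * m21) (s2 * e2 g * m22) (s2 * e3 g * m23)
      (s3 * e1 g * m31) (s3 * e2 g * m32) (s3 * e3 g * m33) := by
  obtain ⟨ht, hsz, hdet, hlow⟩ := h
  have hv3p : 0 < v3 := by linarith
  have a1 : |e1 g| = v1 := by
    have : |s1 * e1 g| = v1 := by rw [e1v, abs_of_pos hv1]
    rwa [abs_mul, hs1, one_mul] at this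
  have a2 : |e2 g| = v2 := by
    have : |s2 * e2 g| = v2 := by rw [e2v, abs_of_pos hv2]
    rwa [abs_mul, hs2, one_mul] at this
  have a3 : |e3 g| = v3 := by
    have : |s3 * e3 g| = v3 := by rw [e3v, abs_of_pos hv3p]
    rwa [abs_mul, hs3, one_mul] at this
  have key : ∀ s u v m : ℝ, |s| = 1 → |u| = v → |s * u * m| = v * |m| := by
    intro s u v m h1 h2
    rw [abs_mul, abs_mul, h1, h2, one_mul]
  have hne : e1 g ≠ 0 := by
    intro h0
    rw [h0, abs_zero] at a1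
    linarith
  have d1 := ht.d1
  have d2 := ht.d2
  have d3 := ht.d3
  refine ⟨⟨?_, ?_, ?_, ?_, ?_, ?_, ?_, ?_, ?_, ?_, ?_⟩, ?_, ?_,
    lowB_act hlow g s1 s2 s3 hs1 hs2 hs3 hne⟩
  · rw [e1v]; positivity
  · rw [e2v]; positivity
  · rw [e3v]; positivity
  · rw [key s2 _ v1 _ hs2 a1, e1v]
    nlinarith [ht.h21]
  · rw [key s1 _ v2 _ hs1 a2, e2v]
    nlinarith [ht.h12]
  · rw [key s1 _ v3 _ hs1 a3, e1v, e2v]
    exact (mul_le_mul_of_nonneg_left hm1 hv3p.le).trans hE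
  · rw [key s2 _ v3 _ hs2 a3, e1v, e2v]
    exact (mul_le_mul_of_nonneg_left hm2 hv3p.le).trans hE
  · rw [key s3 _ v1 _ hs3 a1, e1v, e2v, e3v]
    have h1 := ht.c1
    have h2 : |m31| * ((v1 * m11 + v2 * m22) / 2) ≤ |m31| * ((m11 + m22) / 2) :=
      mul_le_mul_of_nonneg_left (by linarith) (abs_nonneg _)
    have h3 : m11 * m33 ≤ m11 * (v3 * m33) := by
      have : m33 ≤ v3 * m33 := by nlinarith
      exact mul_le_mul_of_nonneg_left this d1.le
    have h4 : |m31| * ((v1 * m11 + v2 * m22) / 2) ≤ 2035 / 10000 * 0 + 83 / 1000 * (m11 * (v3 * m33)) := by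
      linarith
    calc v1 * |m31| * ((v1 * m11 + v2 * m22) / 2) = v1 * (|m31| * ((v1 * m11 + v2 * m22) / 2)) := by
          ring
      _ ≤ v1 * (2035 / 10000 * 0 + 83 / 1000 * (m11 * (v3 * m33))) :=
          mul_le_mul_of_nonneg_left h4 hv1.le
      _ = 83 / 1000 * (v1 * m11 * (v3 * m33)) := by ring
  · rw [key s3 _ v2 _ hs3 a2, e1v, e2v, e3v]
    have h1 := ht.c2
    have h2 : |m32| * ((v1 * m11 + v2 * m22) / 2) ≤ |m32| * ((m11 + m22) / 2) :=
      mul_le_mul_of_nonneg_left (by linarith) (abs_nonneg _)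
    have h3 : m22 * m33 ≤ m22 * (v3 * m33) := by
      have : m33 ≤ v3 * m33 := by nlinarith
      exact mul_le_mul_of_nonneg_left this d2.le
    have h4 : |m32| * ((v1 * m11 + v2 * m22) / 2) ≤ 2035 / 10000 * 0 + 83 / 1000 * (m22 * (v3 * m33)) := by
      linarith
    calc v2 * |m32| * ((v1 * m11 + v2 * m22) / 2) = v2 * (|m32| * ((v1 * m11 + v2 * m22) / 2)) := by
          ring
      _ ≤ v2 * (2035 / 10000 * 0 + 83 / 1000 * (m22 * (v3 * m33))) :=
          mul_le_mul_of_nonneg_left h4 hv2.le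
      _ = 83 / 1000 * (v2 * m22 * (v3 * m33)) := by ring
  · rw [e1v, e2v]; exact hσ1
  · rw [e1v, e2v]; exact hσ2
  · rw [e1v, e2v]; linarith
  · rw [← hdet]
    have : det9 (s1 * e1 g * m11) (s1 * e2 g * m12) (s1 * e3 g * m13)
      (s2 * e1 g * m21) (s2 * e2 g * m22) (s2 * e3 g * m23)
      (s3 * e1 g * m31) (s3 * e2 g * m32) (s3 * e3 g * m33) =
      ((s1 * e1 g) * (s2 * e2 g) * (s3 * e3 g)) * det9 m11 m12 m13 m21 m22 m23 m31 m32 m33 := by
      unfold det9; ring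
    rw [this, e1v, e2v, e3v, hprod, one_mul]

/-- the annulus theorem bounds the third column -/
theorem st_small (hann : AnnulusStmt) {R κ D m11 m12 m13 m21 m22 m23 m31 m32 m33 : ℝ}
    (hκ : 1 ≤ κ) (hD : 0 ≤ D) (h : St R κ D m11 m12 m13 m21 m22 m23 m31 m32 m33) :
    max |m13| |m23| < 562 / 10000 * ((m11 + m22) / 2) := by
  by_contra hno
  push Not at hno
  obtain ⟨n, hn, h1, h2⟩ := hann _ _ _ _ _ _ _ _ _ h.tube hno
  have h3 := h.low n hn (h1.trans h.size)
  rw [h.det] at h2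
  nlinarith

/-- the third column cannot grow -/
theorem st_zero (hann : AnnulusStmt) {R κ D : ℝ} (hκ : 1 ≤ κ) (hD : 0 ≤ D) (k : ℕ) :
    ∀ m11 m12 m13 m21 m22 m23 m31 m32 m33 : ℝ, St R κ D m11 m12 m13 m21 m22 m23 m31 m32 m33 →
      2 ^ k * max |m13| |m23| ≤ 562 / 10000 * ((m11 + m22) / 2) := by
  induction k with
  | zero =>
    intro m11 m12 m13 m21 m22 m23 m31 m32 m33 h
    rw [pow_zero, one_mul]
    exact (st_small hann hκ hD h).le
  | succ k ih =>
    intro m11 m12 m13 m21 m22 m23 m31 m32 m33 h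
    have hsm := st_small hann hκ hD h
    have hm1 : |m13| ≤ 562 / 10000 * ((m11 + m22) / 2) := (le_max_left _ _).trans hsm.le
    have hm2 : |m23| ≤ 562 / 10000 * ((m11 + m22) / 2) := (le_max_right _ _).trans hsm.le
    have d1 := h.tube.d1
    have d2 := h.tube.d2
    have r1 := h.tube.s1
    have r2 := h.tube.s2
    have l1 := t1_lo
    have u1 := t1_hi
    have l2 := t2_lo
    have u2 := t2_hi
    have l3 := t3_lo
    have u3 := t3_hi
    -- conclusion from a step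
    have fin : ∀ (g : ℤ × ℤ × ℤ) (s1 s2 s3 v1 v2 v3 : ℝ),
        |s1| = 1 → |s2| = 1 → |s3| = 1 →
        s1 * e1 g = v1 → s2 * e2 g = v2 → s3 * e3 g = v3 →
        0 < v1 → 0 < v2 → 1 ≤ v3 → v1 * v2 * v3 = 1 →
        v3 * (562 / 10000 * ((m11 + m22) / 2)) ≤ 2035 / 10000 * ((v1 * m11 + v2 * m22) / 2) →
        v1 * m11 + v2 * m22 ≤ m11 + m22 →
        (1 - 4535 / 10000) * (v1 * m11) ≤ (1 + 4535 / 10000) * (v2 * m22) →
        (1 - 4535 / 10000) * (v2 * m22) ≤ (1 + 4535 / 10000) * (v1 * m11) →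
        2 * (v1 * m11 + v2 * m22) ≤ v3 * (m11 + m22) →
        2 ^ (k + 1) * max |m13| |m23| ≤ 562 / 10000 * ((m11 + m22) / 2) := by
      intro g s1 s2 s3 v1 v2 v3 hs1 hs2 hs3 e1v e2v e3v hv1 hv2 hv3 hprod hE hS hσ1 hσ2 hgr
      have hst := st_act h g s1 s2 s3 v1 v2 v3 hs1 hs2 hs3 e1v e2v e3v hv1 hv2 hv3 hprod hm1 hm2
        hE hS hσ1 hσ2
      have hI := ih _ _ _ _ _ _ _ _ _ hst
      have hv3p : 0 < v3 := by linarith
      have a3 : |e3 g| = v3 := by
        have : |s3 * e3 g| = v3 := by rw [e3v, abs_of_pos hv3p]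
        rwa [abs_mul, hs3, one_mul] at this
      rw [abs_mul, abs_mul, hs1, one_mul, abs_mul, abs_mul, hs2, one_mul, a3,
        ← mul_max_of_nonneg _ _ hv3p.le, e1v, e2v] at hI
      have h5 : 2 ^ k * (v3 * max |m13| |m23|) ≤ 562 / 10000 * (v3 * (m11 + m22) / 4) := by
        linarith
      have h6 : v3 * (2 ^ (k + 1) * max |m13| |m23|) ≤ v3 * (562 / 10000 * ((m11 + m22) / 2)) := by
        rw [pow_succ]
        linarith
      exact le_of_mul_le_mul_left h6 hv3p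
    have p12 : t1 * t2 * t3 = 1 := t_prod
    by_cases hc : 5434 / 10000 * m22 ≤ m11
    · -- the unit `1 - t²`
      have q1 : e1 (1, 0, -1) = 1 - t1 ^ 2 := by unfold e1; push_cast; ring
      have q2 : e2 (1, 0, -1) = 1 - t2 ^ 2 := by unfold e2; push_cast; ring
      have q3 : e3 (1, 0, -1) = 1 - t3 ^ 2 := by unfold e3; push_cast; ring
      have b1l : 0.5549577 ≤ t1 ^ 2 - 1 := by nlinarith
      have b1u : t1 ^ 2 - 1 ≤ 0.5549588 := by nlinarith
      have b2l : 0.8019375 ≤ 1 - t2 ^ 2 := by nlinarith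
      have b2u : 1 - t2 ^ 2 ≤ 0.8019380 := by nlinarith
      have b3l : 2.2469790 ≤ t3 ^ 2 - 1 := by nlinarith
      have b3u : t3 ^ 2 - 1 ≤ 2.2469810 := by nlinarith
      refine fin (1, 0, -1) (-1) 1 (-1) (t1 ^ 2 - 1) (1 - t2 ^ 2) (t3 ^ 2 - 1) (by norm_num)
        (by norm_num) (by norm_num) (by rw [q1]; ring) (by rw [q2]; ring) (by rw [q3]; ring)
        (by linarith) (by linarith) (by linarith) ?_ ?_ ?_ ?_ ?_ ?_
      · have k1 := t1_eq
        have k2 := t2_eq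
        have k3 := t3_eq
        have z1 : t1 ^ 2 - 1 = -(t1 * t2) := by rw [t2_def']; linear_combination k1
        have z2 : 1 - t2 ^ 2 = t2 * t3 := by rw [t2_sq]; linear_combination -k2
        have z3 : t3 ^ 2 - 1 = -(t3 * t1) := by
          have : t1 = t3 ^ 2 - 2 := t3_sq
          rw [this]; linear_combination k3
        rw [z1, z2, z3]
        have : -(t1 * t2) * (t2 * t3) * -(t3 * t1) = (t1 * t2 * t3) ^ 2 := by ring
        rw [this, p12]; norm_num
      · nlinarith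
      · nlinarith
      · nlinarith
      · nlinarith
      · nlinarith
    · -- the unit `t`
      push Not at hc
      have q1 : e1 (0, 1, 0) = t1 := by unfold e1; push_cast; ring
      have q2 : e2 (0, 1, 0) = t2 := by unfold e2; push_cast; ring
      have q3 : e3 (0, 1, 0) = t3 := by unfold e3; push_cast; ring
      refine fin (0, 1, 0) 1 (-1) (-1) t1 (-t2) (-t3) (by norm_num)
        (by norm_num) (by norm_num) (by rw [q1]; ring) (by rw [q2]; ring) (by rw [q3]; ring)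
        (by linarith) (by linarith) (by linarith) ?_ ?_ ?_ ?_ ?_ ?_
      · have : t1 * -t2 * -t3 = t1 * t2 * t3 := by ring
        rw [this, p12]
      · nlinarith
      · nlinarith
      · nlinarith
      · nlinarith
      · nlinarith

/-- the determinant of a matrix in the tube is positive -/
theorem tube_det_pos {m11 m12 m13 m21 m22 m23 m31 m32 m33 : ℝ}
    (ht : TW m11 m12 m13 m21 m22 m23 m31 m32 m33) :
    0 < det9 m11 m12 m13 m21 m22 m23 m31 m32 m33 := by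
  have d1 := ht.d1
  have d2 := ht.d2
  have d3 := ht.d3
  set S : ℝ := (m11 + m22) / 2 with hS
  have hS0 : 0 < S := by rw [hS]; linarith
  have c1 := ht.c1
  have c2 := ht.c2
  have h21 := ht.h21
  have h12 := ht.h12
  have q1 := ht.e1
  have q2 := ht.e2
  rw [← hS] at c1 c2 q1 q2
  have gen : ∀ x y B : ℝ, |x| ≤ 2035 / 10000 * S → |y| * S ≤ 83 / 1000 * B → 0 ≤ B →
      |x * y| ≤ 17 / 1000 * B := by
    intro x y B hx hy hB
    rw [abs_mul]
    have h1 : |x| * |y| ≤ 2035 / 10000 * S * |y| := mul_le_mul_of_nonneg_right hx (abs_nonneg _)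
    nlinarith
  have p1 := gen m23 m32 _ q2 c2 (by positivity)
  have p2 := gen m23 m31 _ q2 c1 (by positivity)
  have p3 := gen m13 m32 _ q1 c2 (by positivity)
  have p4 := gen m13 m31 _ q1 c1 (by positivity)
  set V : ℝ := m11 * m22 * m33 with hV
  have hV0 : 0 < V := by rw [hV]; positivity
  have r1 : |m11 * (m23 * m32)| ≤ 17 / 1000 * V := by
    rw [abs_mul, abs_of_pos d1, hV]
    nlinarith
  have r2 : |m12 * (m23 * m31)| ≤ 3 / 1000 * V := by
    rw [abs_mul, hV]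
    calc |m12| * |m23 * m31| ≤ (135 / 1000 * m22) * (17 / 1000 * (m11 * m33)) :=
          mul_le_mul h12 p2 (abs_nonneg _) (by positivity)
      _ ≤ 3 / 1000 * (m11 * m22 * m33) := by nlinarith
  have r3 : |m21 * (m13 * m32)| ≤ 3 / 1000 * V := by
    rw [abs_mul, hV]
    calc |m21| * |m13 * m32| ≤ (135 / 1000 * m11) * (17 / 1000 * (m22 * m33)) :=
          mul_le_mul h21 p3 (abs_nonneg _) (by positivity)
      _ ≤ 3 / 1000 * (m11 * m22 * m33) := by nlinarith
  have r4 : |m22 * (m13 * m31)| ≤ 17 / 1000 * V := by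
    rw [abs_mul, abs_of_pos d2, hV]
    nlinarith
  have r5 : |m12 * m21 * m33| ≤ 20 / 1000 * V := by
    rw [abs_mul, abs_mul, abs_of_pos d3, hV]
    have : |m12| * |m21| ≤ (135 / 1000 * m22) * (135 / 1000 * m11) :=
      mul_le_mul h12 h21 (abs_nonneg _) (by positivity)
    nlinarith
  have e : det9 m11 m12 m13 m21 m22 m23 m31 m32 m33 =
      V - m11 * (m23 * m32) - m12 * m21 * m33 + m12 * (m23 * m31) + m21 * (m13 * m32) -
        m22 * (m13 * m31) := by
    rw [hV]; unfold det9; ring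
  rw [e]
  rw [abs_le] at r1 r2 r3 r4 r5
  linarith [r1.2, r2.1, r3.1, r4.2, r5.2]

/-- PIECE C: the walk -/
theorem walk (hann : AnnulusStmt) : WalkStmt := by
  intro m11 m12 m13 m21 m22 m23 m31 m32 m33 κ ht hκ hlow
  have d1 := ht.d1
  have d2 := ht.d2
  have d3 := ht.d3
  set D : ℝ := det9 m11 m12 m13 m21 m22 m23 m31 m32 m33 with hD
  set R : ℝ := 1000 * ((m11 + m22) / 2) with hR
  have hdet2 : 0 < m11 * m22 - m12 * m21 := by
    have h1 := ht.h21
    have h2 := ht.h12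
    have h3 : |m12 * m21| ≤ (135 / 1000 * m22) * (135 / 1000 * m11) := by
      rw [abs_mul]
      exact mul_le_mul h2 h1 (abs_nonneg _) (by positivity)
    have h4 := le_abs_self (m12 * m21)
    have h5 : 0 < m11 * m22 := mul_pos d1 d2
    nlinarith
  have hDpos : 0 ≤ D := (tube_det_pos ht).le
  have hst : St R κ D m11 m12 m13 m21 m22 m23 m31 m32 m33 := ⟨ht, le_refl _, rfl, hlow⟩
  have hz : max |m13| |m23| = 0 := by
    by_contra hne
    have hpos : 0 < max |m13| |m23| :=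
      lt_of_le_of_ne (le_max_of_le_left (abs_nonneg _)) (Ne.symm hne)
    obtain ⟨k, hk⟩ := pow_unbounded_of_one_lt
      (562 / 10000 * ((m11 + m22) / 2) / max |m13| |m23|) (by norm_num : (1 : ℝ) < 2)
    rw [div_lt_iff₀ hpos] at hk
    have := st_zero hann hκ.le hDpos k _ _ _ _ _ _ _ _ _ hst
    linarith
  have h13 : m13 = 0 := by
    have := le_max_left |m13| |m23|
    rw [hz] at this
    exact abs_nonpos_iff.1 this
  have h23 : m23 = 0 := by
    have := le_max_right |m13| |m23|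
    rw [hz] at this
    exact abs_nonpos_iff.1 this
  obtain ⟨n, hn, h1, h2⟩ := final_density m11 m12 m21 m22 m31 m32 m33 κ R hdet2 d3 hκ
    (by rw [hR]; positivity)
  have h3 := hlow n hn (by rw [h13, h23]; simpa using h1)
  have h4 : D = m33 * (m11 * m22 - m12 * m21) := by
    rw [hD, h13, h23]; unfold det9; ring
  rw [h4, h13, h23] at h3
  unfold Gy at h3
  simp only [zero_mul, add_zero] at h3
  linarith

end Run7.h349.DS
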